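import Pool.Agent.R435.Defs

/-!
# A functional on `R[G]` which vanishes on the cube of the augmentation ideal
-/

set_option autoImplicit false

open Polynomial

namespace Pool.Agent.R435.Alg

open Pool.Agent.W97.V20 (aug)

/-- the ring `𝔽_7[X]/(X^3)` -/
abbrev SR : Type := (ZMod 7)[X] ⧸ Ideal.span {(X : (ZMod 7)[X]) ^ 3}

/-- `1 + kX + k²X²/2` -/
noncomputable def Ep (k : ZMod 7) : (ZMod 7)[X] := 1 + C k * X + C (4 * k ^ 2) * X ^ 2

/-- the homomorphism `k ↦ exp(kX)` -/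
noncomputable def Eh : Multiplicative (ZMod 7) →* SR where
  toFun k := Ideal.Quotient.mk _ (Ep k.toAdd)
  map_one' := by
    have : Ep (Multiplicative.toAdd (1 : Multiplicative (ZMod 7))) = 1 := by
      unfold Ep
      simp
    rw [this, map_one]
  map_mul' j k := by
    rw [← map_mul, Ideal.Quotient.eq, Ideal.mem_span_singleton, toAdd_mul]
    generalize Multiplicative.toAdd j = a
    generalize Multiplicative.toAdd k = b
    refine ⟨-(C (4 * a ^ 2 * b + 4 * a * b ^ 2) + C (16 * a ^ 2 * b ^ 2) * X), ?_⟩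
    unfold Ep
    have h8 : (C (8 : ZMod 7) : (ZMod 7)[X]) = 1 := by
      have : (8 : ZMod 7) = 1 := rfl
      rw [this, C_1]
    have h4 : (C (4 * (a + b) ^ 2) : (ZMod 7)[X]) =
        C (4 * a ^ 2) + C 8 * (C a * C b) + C (4 * b ^ 2) := by
      rw [← C_mul, ← C_mul, ← C_add, ← C_add]
      congr 1
      ring
    rw [h4, h8]
    simp only [C_add, C_mul, C_pow]
    have e16 : (C (16 : ZMod 7) : (ZMod 7)[X]) = C 4 * C 4 := by
      rw [← C_mul]
      norm_num
    rw [e16]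
    ring

lemma Ep_coeff (k : ZMod 7) : (Ep k).coeff 2 = 4 * k ^ 2 := by
  unfold Ep
  rw [coeff_add, coeff_add, coeff_C_mul, coeff_C_mul, coeff_X_pow, coeff_X, coeff_one]
  norm_num

section

variable {R G : Type} [CommRing R] [CommGroup G] [Fintype G] (ρ : R →+* ZMod 7)
  (ψ : G →* Multiplicative (ZMod 7))

/-- the ring homomorphism to `𝔽_7[X]/(X^3)` -/
noncomputable def Phi : MonoidAlgebra R G →+* SR :=
  MonoidAlgebra.liftNCRingHom ((algebraMap (ZMod 7) SR).comp ρ) (Eh.comp ψ)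
    (fun _ _ => Commute.all _ _)

omit [Fintype G] in
lemma Phi_single (g : G) (r : R) : Phi ρ ψ (MonoidAlgebra.single g r) =
    Ideal.Quotient.mk _ (C (ρ r) * Ep (ψ g).toAdd) := by
  unfold Phi
  rw [MonoidAlgebra.liftNCRingHom_single]
  rfl

/-- the value as the class of a polynomial -/
noncomputable def pol (x : MonoidAlgebra R G) : (ZMod 7)[X] :=
  ∑ g : G, C (ρ (x.coeff g)) * Ep (ψ g).toAdd

lemma Phi_eq (x : MonoidAlgebra R G) : Phi ρ ψ x = Ideal.Quotient.mk _ (pol ρ ψ x) := by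
  classical
  have h : x.coeff.sum MonoidAlgebra.single = x := MonoidAlgebra.sum_coeff_single x
  conv_lhs => rw [← h]
  rw [Finsupp.sum_fintype _ _ (fun g => by simp), map_sum]
  unfold pol
  rw [map_sum]
  exact Finset.sum_congr rfl fun g _ => Phi_single ρ ψ g _

lemma pol_coeff (x : MonoidAlgebra R G) : (pol ρ ψ x).coeff 2 =
    4 * ∑ g : G, ρ (x.coeff g) * (ψ g).toAdd ^ 2 := by
  unfold pol
  rw [finsetSum_coeff, Finset.mul_sum]
  refine Finset.sum_congr rfl fun g _ => ?_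
  rw [coeff_C_mul, Ep_coeff]
  ring

lemma pol_split (x : MonoidAlgebra R G) : pol ρ ψ x = C (ρ (∑ g : G, x.coeff g)) +
    X * ∑ g : G, C (ρ (x.coeff g)) * (C (ψ g).toAdd + C (4 * (ψ g).toAdd ^ 2) * X) := by
  unfold pol
  rw [map_sum, map_sum, Finset.mul_sum, ← Finset.sum_add_distrib]
  refine Finset.sum_congr rfl fun g _ => ?_
  unfold Ep
  ring

lemma aug_sum {x : MonoidAlgebra R G} (hx : x ∈ aug R G) : ∑ g : G, x.coeff g = 0 := by
  classical
  have h : MonoidAlgebra.lift R R G (1 : G →* R) x = 0 := hx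
  rw [MonoidAlgebra.lift_apply, Finsupp.sum_fintype _ _ (fun g => by simp)] at h
  simpa using h

lemma aug_le : aug R G ≤ Ideal.comap (Phi ρ ψ)
    (Ideal.span {(Ideal.Quotient.mk (Ideal.span {(X : (ZMod 7)[X]) ^ 3}) X)}) := by
  intro x hx
  rw [Ideal.mem_comap, Phi_eq, pol_split, aug_sum hx, map_zero, C_0, zero_add, map_mul]
  exact Ideal.mul_mem_right _ _ (Ideal.mem_span_singleton_self _)

lemma Phi_cube {x : MonoidAlgebra R G} (hx : x ∈ aug R G ^ 3) : Phi ρ ψ x = 0 := by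
  have h2 := (Ideal.le_comap_pow (Phi ρ ψ) 3) (Ideal.pow_right_mono (aug_le ρ ψ) 3 hx)
  rw [Ideal.mem_comap, Ideal.span_singleton_pow, Ideal.mem_span_singleton] at h2
  obtain ⟨r, hr⟩ := h2
  rw [hr, ← map_pow, Ideal.Quotient.eq_zero_iff_mem.2 (Ideal.mem_span_singleton_self _), zero_mul]

lemma sum_of_Phi {x : MonoidAlgebra R G} (hx : Phi ρ ψ x = 0) :
    ∑ g : G, ρ (x.coeff g) * (ψ g).toAdd ^ 2 = 0 := by
  rw [Phi_eq, Ideal.Quotient.eq_zero_iff_mem, Ideal.mem_span_singleton, X_pow_dvd_iff] at hx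
  have h := hx 2 (by norm_num)
  rw [pol_coeff] at h
  have h4 : (2 : ZMod 7) * 4 = 1 := rfl
  calc _ = (2 * 4) * ∑ g : G, ρ (x.coeff g) * (ψ g).toAdd ^ 2 := by rw [h4, one_mul]
    _ = 0 := by rw [mul_assoc, h, mul_zero]

/-- **the criterion**: if `θ - c ∏ ([v_p] - 1) ∈ I^3` and the logarithm of one of the `v_p` is
zero, then the second moment of `θ` is zero -/
theorem main {θ : MonoidAlgebra R G} (S : Finset ℕ) (v : ℕ → G) (c : R)
    (h : θ - c • ∏ p ∈ S, (MonoidAlgebra.single (v p) 1 - 1) ∈ aug R G ^ 3) (p : ℕ) (hp : p ∈ S)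
    (hv : (ψ (v p)).toAdd = 0) : ∑ g : G, ρ (θ.coeff g) * (ψ g).toAdd ^ 2 = 0 := by
  refine sum_of_Phi ρ ψ ?_
  have h1 := Phi_cube ρ ψ h
  rw [map_sub, Algebra.smul_def, map_mul, map_prod, Finset.prod_eq_zero hp, mul_zero, sub_zero] at h1
  · exact h1
  · have e : (Ideal.Quotient.mk (Ideal.span {(X : (ZMod 7)[X]) ^ 3})) (C (ρ 1) * Ep 0) = 1 := by
      have : C (ρ 1) * Ep 0 = 1 := by
        rw [map_one, C_1, one_mul]
        unfold Ep
        simp
      rw [this, map_one]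
    rw [map_sub, Phi_single, hv, e, map_one, sub_self]

end

end Pool.Agent.R435.Alg
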