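import Pool.Agent.W97.V20.Defs

/-!
# The refined leading term formula of Mazur and Tate in rank zero: definitions

The newform `f_E`, the modular symbols `λ(a, b)` (`lam`), the number `Ω_E` (`Omega`), the group
`G_M` (`GM`), the augmentation ideal (`aug`), globally minimal equations (`IsGloballyMinimal`),
split multiplicative reduction (`IsSplit`) and the Tate period (`IsTatePeriod`) are the ones of
`Pool.Agent.W97.MT.Defs` and `Pool.Agent.W97.V20.Defs`.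
-/

set_option autoImplicit false

namespace Pool.Agent.R435

open Pool.Agent.W97.MT (IsGloballyMinimal IsTatePeriod)
open Pool.Agent.W97.V20 (lam GM aug IsSplit)

/-- The group `E(ℚ)` of the rational points. -/
abbrev Pts (W : WeierstrassCurve ℤ) : Type := (W.map (Int.castRingHom ℚ)).toAffine.Point

/-- The ring `R`: the smallest subring of `ℚ` which contains `1 / τ`, `τ = #E(ℚ)`, and all
`λ(a, M)`, `a ∈ G_M`. -/
noncomputable def RT (W : WeierstrassCurve ℤ) (M : ℕ) : Subring ℚ :=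
  Subring.closure ({((Nat.card (Pts W) : ℚ))⁻¹} ∪
    {q : ℚ | ∃ a : (ZMod M)ˣ, (q : ℂ) = lam W (a : ZMod M).val M})

/-- `θ` is the Mazur-Tate element `θ_M = ∑_{a ∈ G_M} λ(a, M) [a]` in `R[G_M]`. -/
def IsTheta (W : WeierstrassCurve ℤ) (M : ℕ) (θ : MonoidAlgebra (RT W M) (GM M)) : Prop :=
  ∀ a : (ZMod M)ˣ, (((θ.coeff (QuotientGroup.mk a) : RT W M) : ℚ) : ℂ) = lam W (a : ZMod M).val M

/-- `v ∈ (ℤ/M)ˣ` is the image of `q̃_p` under `ℤ_pˣ → (ℤ/p^e)ˣ ↪ (ℤ/M)ˣ` (`p^e ∥ M`): the Tate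
period is `q_p = u p^n` with a unit `u = q̃_p`, and `v` is congruent to `u` modulo `p^e` and to `1`
modulo `M / p^e`. -/
def IsQt (W : WeierstrassCurve ℤ) (p : ℕ) [Fact p.Prime] (e M : ℕ) (v : (ZMod M)ˣ) : Prop :=
  ∃ (u : ℤ_[p]ˣ) (n : ℕ), 0 < n ∧ IsTatePeriod W (((u : ℤ_[p]) : ℚ_[p]) * (p : ℚ_[p]) ^ n) ∧
    (((v : ZMod M).val : ZMod (p ^ e)) = PadicInt.toZModPow e (u : ℤ_[p])) ∧
    (((v : ZMod M).val : ZMod (M / p ^ e)) = 1)

/-- The element `[v] - [1]` of `R[G_M]`. -/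
noncomputable def br {M : ℕ} (R : Subring ℚ) (v : (ZMod M)ˣ) : MonoidAlgebra R (GM M) :=
  MonoidAlgebra.single (QuotientGroup.mk v : GM M) 1 - 1

/-- **Q1 (after Mazur-Tate 1987), up to the rational factor.** If `E(ℚ)` is finite, then
`θ_M ∈ I^r`, and the class of `θ_M` in `I^r / I^(r+1)` is `∏_{p ∈ S} ([q̃_p] - [1])` times an
element `c` of `R` (the full conjecture states moreover that
`c = #Ш(E) ∏_{p ∉ S} C_p / τ²`). -/
def LeadingTermConjecture : Prop :=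
  ∀ W : WeierstrassCurve ℤ, IsGloballyMinimal W → Finite (Pts W) →
    ∀ (S : Finset ℕ) (e : ℕ → ℕ), (∀ p ∈ S, p.Prime ∧ IsSplit W p ∧ 1 ≤ e p) →
    ∀ M : ℕ, M = ∏ p ∈ S, p ^ e p → ∀ v : ℕ → (ZMod M)ˣ,
    (∀ (p : ℕ) [Fact p.Prime], p ∈ S → IsQt W p (e p) M (v p)) →
    ∀ θ : MonoidAlgebra (RT W M) (GM M), IsTheta W M θ →
      θ ∈ aug (RT W M) (GM M) ^ S.card ∧
      ∃ c : RT W M, θ - c • ∏ p ∈ S, br (RT W M) (v p) ∈ aug (RT W M) (GM M) ^ (S.card + 1)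

/-- The curve `y² + xy + y = x³ + x² + 1617x + 42677`, of conductor `5054 = 2 · 7 · 19²`: the
quadratic twist of the curve `X_0(14)` by the character of `ℚ(√-19)`. -/
def EE : WeierstrassCurve ℤ := ⟨1, 1, 1, 1617, 42677⟩

end Pool.Agent.R435
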