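import Pool.Agent.R435.TW

/-!
# MIN: global minimality and reduction types
-/

set_option autoImplicit false

namespace Pool.Agent.R435

open Pool.Agent.W97.MT (IsGloballyMinimal ap affCount E14)
open Pool.Agent.W97.V20 (IsSplit)

theorem delta_ee : EE.Δ = -(2 ^ 6 * 7 ^ 3 * 19 ^ 6) := by
  simp [WeierstrassCurve.Δ, WeierstrassCurve.b₂, WeierstrassCurve.b₄, WeierstrassCurve.b₆,
    WeierstrassCurve.b₈, EE]

theorem min_ee : IsGloballyMinimal EE := by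
  refine ⟨by rw [delta_ee]; norm_num, ?_⟩
  intro W' C h
  have h1 := congrArg WeierstrassCurve.Δ h
  rw [WeierstrassCurve.variableChange_Δ, WeierstrassCurve.map_Δ, WeierstrassCurve.map_Δ,
    delta_ee] at h1
  set r : ℚ := ((C.u⁻¹ : ℚˣ) : ℚ) with hr
  have hr0 : r ≠ 0 := Units.ne_zero _
  have h2 : r ^ 12 * (-(2 ^ 6 * 7 ^ 3 * 19 ^ 6)) = (W'.Δ : ℚ) := by
    rw [eq_comm] at h1
    simp only [eq_intCast] at h1
    rw [h1]
    push_cast
    ring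
  have h3 : (r.num : ℚ) ^ 12 * (-(2 ^ 6 * 7 ^ 3 * 19 ^ 6)) = (W'.Δ : ℚ) * (r.den : ℚ) ^ 12 := by
    have h5 : (r.num : ℚ) = r * r.den := by
      rw [eq_comm, Rat.mul_den_eq_num]
    rw [h5, ← h2]; ring
  have h3' : r.num ^ 12 * (-(2 ^ 6 * 7 ^ 3 * 19 ^ 6)) = W'.Δ * (r.den : ℤ) ^ 12 := by
    exact_mod_cast h3
  have hcop : IsCoprime ((r.den : ℤ) ^ 12) (r.num ^ 12) := by
    apply IsCoprime.pow
    rw [Int.isCoprime_iff_gcd_eq_one, Int.gcd_comm]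
    have := r.reduced
    rwa [Int.gcd, Int.natAbs_natCast]
  have hdvd : ((r.den : ℤ) ^ 12) ∣ (-(2 ^ 6 * 7 ^ 3 * 19 ^ 6) : ℤ) := by
    apply hcop.dvd_of_dvd_mul_left
    rw [h3']
    exact Dvd.intro_left _ rfl
  have hdvd' : r.den ^ 12 ∣ 2 ^ 6 * 7 ^ 3 * 19 ^ 6 := by
    have : ((r.den ^ 12 : ℕ) : ℤ) ∣ ((2 ^ 6 * 7 ^ 3 * 19 ^ 6 : ℕ) : ℤ) := by
      push_cast
      rw [Int.dvd_neg] at hdvd
      exact hdvd
    exact Int.natCast_dvd_natCast.1 this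
  have hden : r.den = 1 := by
    have hle : r.den ≤ 10 := by
      by_contra hc
      push Not at hc
      have h6 : 11 ^ 12 ≤ r.den ^ 12 := Nat.pow_le_pow_left hc 12
      have h7 := Nat.le_of_dvd (by norm_num) hdvd'
      norm_num at h6 h7
      omega
    have hpos := r.den_pos
    interval_cases hh : r.den
    · rfl
    all_goals norm_num at hdvd'
  rw [hden] at h3'
  have h8 : W'.Δ = r.num ^ 12 * (-(2 ^ 6 * 7 ^ 3 * 19 ^ 6)) := by rw [h3']; ring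
  rw [h8, abs_mul, abs_pow, delta_ee]
  have hn : 1 ≤ |r.num| := Int.one_le_abs (Rat.num_ne_zero.2 hr0)
  have : (1 : ℤ) ≤ |r.num| ^ 12 := one_le_pow₀ hn
  norm_num
  linarith

theorem c4_ee : EE.c₄ = -77615 := by
  simp [WeierstrassCurve.c₄, WeierstrassCurve.b₂, WeierstrassCurve.b₄, EE]

theorem s_min : S_MIN := by
  refine ⟨min_ee, ⟨?_, ?_, ee_two⟩, ⟨?_, ?_, ee_seven⟩, delta_ee⟩
  · rw [delta_ee]; norm_num
  · rw [c4_ee]; norm_num
  · rw [delta_ee]; norm_num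
  · rw [c4_ee]; norm_num

end Pool.Agent.R435
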