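import Pool.Agent.R435.Stm
import Pool.Agent.Y248.BSD14.Omega

/-!
# OM: the real period of the twist of `X_0(14)` by `-19`
-/

set_option autoImplicit false

namespace Pool.Agent.R435

open Set Filter Topology PeriodPair MeasureTheory
open Pool.Agent.H285R3.Str (P_conj P'_conj)
open Pool.Agent.Y248.BSD14 (image_eq)
open Pool.Agent.W97.V20 (Omega psi)

/-- The Weierstrass function of a lattice stable under conjugation on the imaginary axis, when the
cubic has one real root only. -/
theorem perI (L : PeriodPair) (T : ℝ) (hT : 0 < T)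
    (h2T : ((2 * T : ℝ) : ℂ) * Complex.I ∈ L.lattice)
    (hnm : ∀ x : ℝ, 0 < x → x < 2 * T → (x : ℂ) * Complex.I ∉ L.lattice)
    (hc : ∀ l ∈ L.lattice, (starRingEnd ℂ) l ∈ L.lattice) (a b e : ℝ)
    (ha : L.g₂ = a) (hb : L.g₃ = b) (huniq : ∀ x : ℝ, 4 * x ^ 3 - a * x + b = 0 → x = e) :
    ∃ p q : ℝ → ℝ, (∀ x ∈ Ioo (0 : ℝ) T, HasDerivAt p (q x) x) ∧
      (∀ x ∈ Ioo (0 : ℝ) T, q x < 0) ∧
      (∀ x ∈ Ioo (0 : ℝ) T, q x ^ 2 = 4 * p x ^ 3 - a * p x + b) ∧
      Tendsto p (𝓝[>] 0) atTop ∧ Tendsto p (𝓝[<] T) (𝓝 e) := by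
  set p : ℝ → ℝ := fun x => -(L.weierstrassP (x * Complex.I)).re with hp
  set q : ℝ → ℝ := fun x => (L.derivWeierstrassP (x * Complex.I)).im with hq
  have hcI : ∀ x : ℝ, (starRingEnd ℂ) ((x : ℂ) * Complex.I) = -((x : ℂ) * Complex.I) := by
    intro x
    simp
  have hpx : ∀ x : ℝ, L.weierstrassP (x * Complex.I) = -(p x : ℂ) := by
    intro x
    have := P_conj L hc (x * Complex.I)
    rw [hcI, L.weierstrassP_neg] at this
    have h2 := (Complex.conj_eq_iff_re.1 this.symm).symm
    rw [h2]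
    simp [hp]
  have hqx : ∀ x : ℝ, L.derivWeierstrassP (x * Complex.I) = (q x : ℂ) * Complex.I := by
    intro x
    have := P'_conj L hc (x * Complex.I)
    rw [hcI, L.derivWeierstrassP_neg] at this
    have h2 : (L.derivWeierstrassP (x * Complex.I)).re = 0 := by
      have h3 := congrArg Complex.re this
      simp at h3
      linarith
    apply Complex.ext
    · rw [h2]; simp
    · simp [hq]
  have hopen : IsOpen (L.lattice : Set ℂ)ᶜ := L.isClosed_lattice.isOpen_compl
  have hd : ∀ x ∈ Ioo (0 : ℝ) (2 * T), HasDerivAt p (q x) x := by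
    intro x hx
    have hx' : (x : ℂ) * Complex.I ∈ (L.lattice : Set ℂ)ᶜ := hnm x hx.1 hx.2
    have h2 : DifferentiableAt ℂ L.weierstrassP (x * Complex.I) :=
      (L.differentiableOn_weierstrassP _ hx').differentiableAt (hopen.mem_nhds hx')
    have h3 := h2.hasDerivAt
    rw [L.deriv_weierstrassP, hqx] at h3
    have h4 : HasDerivAt (fun y : ℝ => (y : ℂ) * Complex.I) Complex.I x := by
      simpa using (Complex.ofRealCLM.hasDerivAt (x := x)).mul_const Complex.I
    have h5 : HasDerivAt (fun y : ℝ => L.weierstrassP (y * Complex.I))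
        ((q x : ℂ) * Complex.I * Complex.I) x :=
      HasDerivAt.comp (h₂ := L.weierstrassP) (h := fun y : ℝ => (y : ℂ) * Complex.I) x h3 h4
    have h6 : HasDerivAt (fun y : ℝ => (L.weierstrassP (y * Complex.I)).re)
        ((q x : ℂ) * Complex.I * Complex.I).re x :=
      Complex.reCLM.hasFDerivAt.comp_hasDerivAt x h5
    refine h6.neg.congr_deriv ?_
    rw [mul_assoc, Complex.I_mul_I]
    simp
  have hcq : ContinuousOn q (Ioo (0 : ℝ) (2 * T)) := by
    have h2 : ContinuousOn L.derivWeierstrassP (L.lattice : Set ℂ)ᶜ :=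
      L.differentiableOn_derivWeierstrassP.continuousOn
    have h3 : ContinuousOn (fun x : ℝ => L.derivWeierstrassP (x * Complex.I))
        (Ioo (0 : ℝ) (2 * T)) :=
      h2.comp (by fun_prop) (fun x hx => hnm x hx.1 hx.2)
    exact Complex.continuous_im.comp_continuousOn h3
  have hode : ∀ x ∈ Ioo (0 : ℝ) (2 * T), q x ^ 2 = 4 * p x ^ 3 - a * p x + b := by
    intro x hx
    have h2 := L.derivWeierstrassP_sq _ (hnm x hx.1 hx.2)
    rw [hpx, hqx, ha, hb] at h2
    have h3 : ((q x ^ 2 : ℝ) : ℂ) = ((4 * p x ^ 3 - a * p x + b : ℝ) : ℂ) := by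
      push_cast
      linear_combination -h2 + (q x : ℂ) ^ 2 * Complex.I_sq
    exact_mod_cast h3
  have htop : Tendsto p (𝓝[>] 0) atTop := by
    have h2 : ∀ x : ℝ, p x = -(L.weierstrassPExcept 0 (x * Complex.I)).re + 1 / x ^ 2 := by
      intro x
      have h3 := L.weierstrassPExcept_add 0 (x * Complex.I)
      simp only [Submodule.coe_zero, sub_zero] at h3
      simp only [hp]
      rw [← h3]
      rw [Complex.add_re, neg_add]
      congr 1
      have : (1 / ((x : ℂ) * Complex.I) ^ 2 - 1 / (0 : ℂ) ^ 2) = ((-(1 / x ^ 2) : ℝ) : ℂ) := by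
        rw [mul_pow, Complex.I_sq]
        push_cast
        simp [div_neg]
      rw [this, Complex.ofReal_re, neg_neg]
    have h3 : ContinuousAt (fun x : ℝ => -(L.weierstrassPExcept 0 (x * Complex.I)).re) 0 := by
      have h4 : ContinuousAt (L.weierstrassPExcept 0) (((0 : ℝ) : ℂ) * Complex.I) := by
        refine ((L.differentiableOn_weierstrassPExcept 0).differentiableAt ?_).continuousAt
        rw [Complex.ofReal_zero, zero_mul]
        exact_mod_cast L.compl_lattice_sdiff_singleton_mem_nhds 0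
      exact (Complex.continuous_re.continuousAt.comp
        (ContinuousAt.comp (f := fun x : ℝ => (x : ℂ) * Complex.I) h4
          (by fun_prop : Continuous fun x : ℝ => (x : ℂ) * Complex.I).continuousAt)).neg
    have h4 : Tendsto (fun x : ℝ => -(L.weierstrassPExcept 0 (x * Complex.I)).re) (𝓝[>] 0)
        (𝓝 (-(L.weierstrassPExcept 0 (((0 : ℝ) : ℂ) * Complex.I)).re)) :=
      h3.tendsto.mono_left nhdsWithin_le_nhds
    have h5 : Tendsto (fun x : ℝ => 1 / x ^ 2) (𝓝[>] 0) atTop := by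
      have h6 : Tendsto (fun x : ℝ => (x⁻¹) ^ 2) (𝓝[>] 0) atTop :=
        (tendsto_pow_atTop two_ne_zero).comp tendsto_inv_nhdsGT_zero
      refine h6.congr fun x => ?_
      rw [one_div, inv_pow]
    have h7 := h4.add_atTop h5
    exact h7.congr fun x => (h2 x).symm
  have hhalf : T ∈ Ioo (0 : ℝ) (2 * T) := by constructor <;> linarith
  have hq0 : q T = 0 := by
    have h2 : L.derivWeierstrassP (-(((T : ℝ) : ℂ) * Complex.I)) =
        - L.derivWeierstrassP (((T : ℝ) : ℂ) * Complex.I) :=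
      L.derivWeierstrassP_neg _
    have h3 : L.derivWeierstrassP (-(((T : ℝ) : ℂ) * Complex.I) + (⟨_, h2T⟩ : L.lattice)) =
        L.derivWeierstrassP (-(((T : ℝ) : ℂ) * Complex.I)) := L.derivWeierstrassP_add_coe _ _
    have h4 : -(((T : ℝ) : ℂ) * Complex.I) + ((⟨_, h2T⟩ : L.lattice) : ℂ)
        = ((T : ℝ) : ℂ) * Complex.I := by
      push_cast; ring
    rw [h4, h2] at h3
    have h6 := congrArg Complex.im h3
    rw [Complex.neg_im] at h6
    change q T = - q T at h6
    linarith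
  have hpT : p T = e := by
    apply huniq
    have := hode T hhalf
    rw [hq0] at this
    linarith
  have he : Tendsto p (𝓝[<] T) (𝓝 e) := by
    rw [← hpT]
    exact (hd _ hhalf).continuousAt.tendsto.mono_left nhdsWithin_le_nhds
  have hsub : Ioo (0 : ℝ) T ⊆ Ioo (0 : ℝ) (2 * T) := Ioo_subset_Ioo_right (by linarith)
  refine ⟨p, q, fun x hx => hd x (hsub hx), ?_, fun x hx => hode x (hsub hx), htop, he⟩
  have hqne : ∀ x ∈ Ioo (0 : ℝ) T, q x ≠ 0 := by
    intro x hx h0
    have h1 : p x = e := by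
      apply huniq
      have := hode x (hsub hx)
      rw [h0] at this
      linarith
    have h2 : L.weierstrassP (x * Complex.I) = L.weierstrassP (T * Complex.I) := by
      rw [hpx, hpx, h1, hpT]
    rcases Wg.wp_inj L _ _ (hnm x hx.1 (hsub hx).2) (hnm T hhalf.1 hhalf.2) h2 with h3 | h3
    · have h4 : ((T - x : ℝ) : ℂ) * Complex.I ∈ L.lattice := by
        have := neg_mem h3
        push_cast
        rwa [neg_sub, ← sub_mul] at this
      exact hnm _ (by linarith [hx.2]) (by linarith [hx.1]) h4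
    · have h4 : ((x + T : ℝ) : ℂ) * Complex.I ∈ L.lattice := by
        push_cast
        rwa [← add_mul] at h3
      exact hnm _ (by linarith [hx.1]) (by linarith [hx.2]) h4
  by_contra hcon
  push Not at hcon
  obtain ⟨x0, hx0, hx0'⟩ := hcon
  have hx0pos : 0 < q x0 := lt_of_le_of_ne hx0' (hqne x0 hx0).symm
  have hall : ∀ x ∈ Ioo (0 : ℝ) T, 0 < q x := by
    intro x hx
    by_contra hn
    have hn' : q x ≤ 0 := not_lt.1 hn
    obtain ⟨y, hy, hy'⟩ := isPreconnected_Ioo.intermediate_value hx hx0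
      (hcq.mono hsub) (show (0 : ℝ) ∈ Icc (q x) (q x0) from ⟨hn', hx0pos.le⟩)
    exact hqne y hy hy'
  have hmono : StrictMonoOn p (Ioo (0 : ℝ) T) := by
    refine strictMonoOn_of_deriv_pos (convex_Ioo _ _) ?_ ?_
    · intro x hx
      exact (hd x (hsub hx)).continuousAt.continuousWithinAt
    · intro x hx
      rw [interior_Ioo] at hx
      rw [(hd x (hsub hx)).deriv]
      exact hall x hx
  have h3 : ∀ᶠ x in 𝓝[>] (0 : ℝ), p x0 < p x := htop.eventually_gt_atTop (p x0)
  have h4 : ∀ᶠ x in 𝓝[>] (0 : ℝ), x ∈ Ioo (0 : ℝ) x0 := Ioo_mem_nhdsGT hx0.1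
  obtain ⟨x, hx, hx'⟩ := (h3.and h4).exists
  have := hmono ⟨hx'.1, hx'.2.trans hx0.2⟩ hx0 hx'.2
  linarith

theorem psi_EE (x : ℝ) : psi EE x = 4 * x ^ 3 + 5 * x ^ 2 + 6470 * x + 170709 := by
  simp only [psi, EE, WeierstrassCurve.b₂, WeierstrassCurve.b₄, WeierstrassCurve.b₆]
  push_cast
  ring

theorem s_om : S_OM := by
  intro L Op Om hOp hOm hg2 hg3 hL
  -- the lattice
  have h2T : ((2 * Om : ℝ) : ℂ) * Complex.I ∈ L.lattice := by
    rw [hL]
    exact ⟨0, 2, ⟨-1, by norm_num⟩, by push_cast; ring⟩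
  have hnm : ∀ x : ℝ, 0 < x → x < 2 * Om → (x : ℂ) * Complex.I ∉ L.lattice := by
    intro x hx0 hx1 hx
    obtain ⟨a, b, ⟨c, hab⟩, h⟩ := (hL _).1 hx
    have hi := congrArg Complex.im h
    have hr := congrArg Complex.re h
    simp at hi hr
    rcases hr with hr | hr
    · subst hr
      rw [hi] at hx0 hx1
      have h2 : (0 : ℝ) < b := by
        by_contra hn
        push Not at hn
        have := mul_nonpos_of_nonpos_of_nonneg hn hOm.le
        linarith
      have h3 : (b : ℝ) < 2 := by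
        by_contra hn
        push Not at hn
        nlinarith
      have h4 : (0 : ℤ) < b := by exact_mod_cast h2
      have h5 : b < (2 : ℤ) := by exact_mod_cast h3
      omega
    · exact absurd hr hOp.ne'
  have hc : ∀ l ∈ L.lattice, (starRingEnd ℂ) l ∈ L.lattice := by
    intro l hl
    obtain ⟨a, b, ⟨c, hab⟩, rfl⟩ := (hL _).1 hl
    rw [hL]
    refine ⟨a, -b, ⟨c + b, by omega⟩, ?_⟩
    simp
  have huniq : ∀ x : ℝ, 4 * x ^ 3 - (-215 / 12) * x + 5291 / 216 = 0 → x = -(13 / 12) := by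
    intro x hx
    have h1 : (x + 13 / 12) * (4 * x ^ 2 - 13 / 3 * x + 407 / 18) = 0 := by
      linear_combination hx
    rcases mul_eq_zero.1 h1 with h | h
    · linarith
    · exfalso
      nlinarith [sq_nonneg (x - 13 / 24)]
  obtain ⟨p, q, hd, hq, hode, h0, h1⟩ := perI L Om hOm h2T hnm hc (-215 / 12) (5291 / 216)
    (-(13 / 12)) (by rw [hg2]; push_cast; ring) (by rw [hg3]; push_cast; ring) huniq
  obtain ⟨hinj, himg⟩ := image_eq Om hOm p q _ hd hq h0 h1
  have hpsi : ∀ v : ℝ, psi EE (19 * v - 5 / 12) =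
      19 ^ 3 * (4 * v ^ 3 - (-215 / 12) * v + 5291 / 216) := by
    intro v
    rw [psi_EE]
    ring
  have hset : {x : ℝ | 0 < psi EE x} = Ioi (-21 : ℝ) := by
    ext x
    simp only [mem_ofPred_eq, mem_Ioi]
    have h2 : psi EE x = (x + 21) * (4 * x ^ 2 - 79 * x + 8129) := by
      rw [psi_EE]
      ring
    rw [h2]
    have h3 : 0 < 4 * x ^ 2 - 79 * x + 8129 := by nlinarith [sq_nonneg (x - 79 / 8)]
    rw [mul_pos_iff_of_pos_right h3]
    constructor <;> intro h <;> linarith
  have himg2 : (fun x => 19 * p x - 5 / 12) '' Ioo (0 : ℝ) Om = Ioi (-21 : ℝ) := by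
    have h2 : (fun x => 19 * p x - 5 / 12) '' Ioo (0 : ℝ) Om =
        (fun v => 19 * v - 5 / 12) '' (p '' Ioo (0 : ℝ) Om) := by
      rw [image_image]
    rw [h2, himg]
    ext v
    simp only [mem_image, mem_Ioi]
    constructor
    · rintro ⟨w, hw, rfl⟩
      linarith
    · intro hv
      refine ⟨(v + 5 / 12) / 19, ?_, by ring⟩
      rw [lt_div_iff₀ (by norm_num)]
      linarith
  have hinj2 : InjOn (fun x => 19 * p x - 5 / 12) (Ioo (0 : ℝ) Om) := by
    intro x hx y hy hxy
    apply hinj hx hy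
    have h2 : 19 * p x - 5 / 12 = 19 * p y - 5 / 12 := hxy
    linarith
  have hder : ∀ x ∈ Ioo (0 : ℝ) Om,
      HasDerivWithinAt (fun x => 19 * p x - 5 / 12) (19 * q x) (Ioo (0 : ℝ) Om) x := by
    intro x hx
    exact (((hd x hx).const_mul _).sub_const _).hasDerivWithinAt
  rw [Omega, hset, ← himg2,
    integral_image_eq_integral_abs_deriv_smul measurableSet_Ioo hder hinj2]
  have hconst : ∀ x ∈ Ioo (0 : ℝ) Om,
      |19 * q x| • (Real.sqrt (psi EE (19 * p x - 5 / 12)))⁻¹ = (Real.sqrt 19)⁻¹ := by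
    intro x hx
    have hqx := hq x hx
    have h2 : psi EE (19 * p x - 5 / 12) = 19 * (19 * (-q x)) ^ 2 := by
      rw [hpsi, ← hode x hx]
      ring
    have h3 : 0 < 19 * (-q x) := by linarith
    rw [h2, Real.sqrt_mul (by norm_num), Real.sqrt_sq h3.le, smul_eq_mul]
    have h4 : |19 * q x| = 19 * (-q x) := by
      rw [← abs_neg, abs_of_pos]
      · ring
      · linarith
    rw [h4]
    have h5 : 0 < Real.sqrt 19 := Real.sqrt_pos.2 (by norm_num)
    rw [mul_inv, mul_comm, mul_assoc, inv_mul_cancel₀ h3.ne', mul_one]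
  rw [setIntegral_congr_fun measurableSet_Ioo hconst]
  simp only [integral_const, MeasurableSet.univ, measureReal_restrict_apply, univ_inter,
    smul_eq_mul, Real.volume_real_Ioo]
  rw [sub_zero, max_eq_left hOm.le]
  rw [div_eq_mul_inv]

end Pool.Agent.R435
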