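import Pool.Agent.R435.Stm

/-!
# The rational points of the curve `y² + xy + y = x³ + x² + 1617x + 42677`

A complete descent through the 2-isogeny: the only rational points are the point at infinity
and `(-21, 10)`.
-/

set_option autoImplicit false

namespace Pool.Agent.R435.PTS

/-- a nonzero rational is a squarefree integer times a square -/
theorem sqf_rat (x : ℚ) (hx : x ≠ 0) :
    ∃ (d : ℤ) (z : ℚ), Squarefree d ∧ z ≠ 0 ∧ x = d * z ^ 2 := by
  obtain ⟨a, b, hab, ha⟩ := Nat.sq_mul_squarefree (x.num * x.den).natAbs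
  have hA : (x.num * x.den) ≠ 0 :=
    mul_ne_zero (Rat.num_ne_zero.2 hx) (by exact_mod_cast x.den_nz)
  have hb : b ≠ 0 := by
    rintro rfl
    apply hA
    rw [← Int.natAbs_eq_zero, ← hab]
    simp
  have hden : (x.den : ℚ) ≠ 0 := by exact_mod_cast x.den_nz
  have hbQ : (b : ℚ) ≠ 0 := by exact_mod_cast hb
  have hx1 : x = ((x.num * x.den : ℤ) : ℚ) / (x.den : ℚ) ^ 2 := by
    rw [eq_div_iff (pow_ne_zero 2 hden)]
    have := Rat.num_div_den x
    rw [div_eq_iff hden] at this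
    push_cast
    rw [this]
    ring
  rcases Int.natAbs_eq (x.num * x.den) with h | h
  · refine ⟨a, b / x.den, ?_, div_ne_zero hbQ hden, ?_⟩
    · exact Int.squarefree_natCast.2 ha
    · have h2 : ((x.num * x.den : ℤ) : ℚ) = (b : ℚ) ^ 2 * a := by
        rw [h, ← hab]; push_cast; ring
      rw [h2] at hx1
      rw [div_pow]
      push_cast
      linear_combination hx1
  · refine ⟨-a, b / x.den, ?_, div_ne_zero hbQ hden, ?_⟩
    · rw [← Int.squarefree_natAbs, Int.natAbs_neg, Int.natAbs_natCast]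
      exact ha
    · have h2 : ((x.num * x.den : ℤ) : ℚ) = -((b : ℚ) ^ 2 * a) := by
        rw [h, ← hab]; push_cast; ring
      rw [h2] at hx1
      rw [div_pow]
      push_cast
      linear_combination hx1

/-- a rational with an integral square is an integer -/
theorem int_of_sq {q : ℚ} {k : ℤ} (h : q ^ 2 = k) : ∃ n : ℤ, q = n := by
  have h1 : (q ^ 2).den = 1 := by rw [h]; exact Rat.den_intCast k
  rw [Rat.den_pow] at h1
  have h2 : q.den = 1 := by
    rcases Nat.pow_eq_one.1 h1 with h | h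
    · exact h
    · omega
  exact ⟨q.num, (Rat.den_eq_one_iff q).1 h2 |>.symm⟩

/-- the homogeneous space of a point with abscissa `d z ^ 2` -/
theorem hspace {a b d : ℤ} {z y : ℚ} (hd : Squarefree d) (hz : z ≠ 0)
    (h : (d * z ^ 2) * ((d * z ^ 2) ^ 2 + a * (d * z ^ 2) + b) = y ^ 2) :
    ∃ m n N : ℤ, IsCoprime m n ∧ m ≠ 0 ∧ n ≠ 0 ∧
      d * N ^ 2 = d ^ 2 * m ^ 4 + a * d * m ^ 2 * n ^ 2 + b * n ^ 4 ∧ d ∣ b := by
  have hd0 : d ≠ 0 := hd.ne_zero
  set m := z.num with hm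
  obtain ⟨n, hn⟩ : ∃ n : ℤ, n = z.den := ⟨_, rfl⟩
  have hn0 : n ≠ 0 := by rw [hn]; exact_mod_cast z.den_nz
  have hm0 : m ≠ 0 := Rat.num_ne_zero.2 hz
  have hmQ : (m : ℚ) ≠ 0 := by exact_mod_cast hm0
  have hnQ : (n : ℚ) ≠ 0 := by exact_mod_cast hn0
  have hzq : z = m / n := by
    rw [hm, hn]
    push_cast
    exact (Rat.num_div_den z).symm
  have hcop : IsCoprime m n := by
    rw [hm, hn]
    exact Rat.isCoprime_num_den z
  have h1 : (y * n ^ 3 / m) ^ 2 =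
      ((d * (d ^ 2 * m ^ 4 + a * d * m ^ 2 * n ^ 2 + b * n ^ 4) : ℤ) : ℚ) := by
    rw [div_pow, mul_pow, ← h, hzq]
    push_cast
    field_simp
  obtain ⟨Y, hY⟩ := int_of_sq h1
  rw [hY] at h1
  have h2 : Y ^ 2 = d * (d ^ 2 * m ^ 4 + a * d * m ^ 2 * n ^ 2 + b * n ^ 4) := by
    exact_mod_cast h1
  have h3 : d ∣ Y := by
    rw [← hd.dvd_pow_iff_dvd two_ne_zero, h2]
    exact Dvd.intro _ rfl
  obtain ⟨N, hN⟩ := h3
  have h4 : d * N ^ 2 = d ^ 2 * m ^ 4 + a * d * m ^ 2 * n ^ 2 + b * n ^ 4 := by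
    apply mul_left_cancel₀ hd0
    rw [← h2, hN]
    ring
  refine ⟨m, n, N, hcop, hm0, hn0, h4, ?_⟩
  -- `d` is prime to `n`
  have hdn : IsCoprime d n := by
    rw [Int.isCoprime_iff_gcd_eq_one]
    by_contra hg
    obtain ⟨l, hl, hl1⟩ := Nat.exists_prime_and_dvd hg
    have hlZ : Prime (l : ℤ) := Nat.prime_iff_prime_int.1 hl
    have hld : (l : ℤ) ∣ d := (Int.natCast_dvd_natCast.2 hl1).trans (Int.gcd_dvd_left ..)
    have hln : (l : ℤ) ∣ n := (Int.natCast_dvd_natCast.2 hl1).trans (Int.gcd_dvd_right ..)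
    obtain ⟨d', hd'⟩ := hld
    obtain ⟨n', hn'⟩ := hln
    have hl0 : (l : ℤ) ≠ 0 := hlZ.ne_zero
    have hld' : ¬ (l : ℤ) ∣ d' := by
      rintro ⟨c, hc⟩
      have : (l : ℤ) * l ∣ d := ⟨c, by rw [hd', hc]; ring⟩
      exact hlZ.not_isUnit (hd _ this)
    rw [hd', hn'] at h4
    have h5 : d' * N ^ 2 = l * (d' ^ 2 * m ^ 4 + a * l * d' * m ^ 2 * n' ^ 2 + b * l ^ 2 * n' ^ 4) := by
      apply mul_left_cancel₀ hl0
      linear_combination h4
    have h6 : (l : ℤ) ∣ N := by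
      have h7 : (l : ℤ) ∣ d' * N ^ 2 := ⟨_, h5⟩
      rcases hlZ.dvd_or_dvd h7 with h8 | h8
      · exact absurd h8 hld'
      · exact hlZ.dvd_of_dvd_pow h8
    obtain ⟨N', hN'⟩ := h6
    rw [hN'] at h5
    have h7 : l * d' * N' ^ 2 = d' ^ 2 * m ^ 4 + a * l * d' * m ^ 2 * n' ^ 2 + b * l ^ 2 * n' ^ 4 := by
      apply mul_left_cancel₀ hl0
      linear_combination h5
    have h8 : (l : ℤ) ∣ d' ^ 2 * m ^ 4 := by
      refine ⟨d' * N' ^ 2 - a * d' * m ^ 2 * n' ^ 2 - b * l * n' ^ 4, ?_⟩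
      linear_combination -h7
    rcases hlZ.dvd_or_dvd h8 with h9 | h9
    · exact hld' (hlZ.dvd_of_dvd_pow h9)
    · have h10 := hlZ.dvd_of_dvd_pow h9
      have h11 : (l : ℤ) ∣ n := ⟨n', hn'⟩
      exact hlZ.not_isUnit (hcop.isUnit_of_dvd' h10 h11)
  have h5 : d ∣ b * n ^ 4 := by
    refine ⟨N ^ 2 - d * m ^ 4 - a * m ^ 2 * n ^ 2, ?_⟩
    linear_combination -h4
  exact (hdn.pow_right (n := 4)).dvd_of_dvd_mul_right h5

theorem p19 : Prime (19 : ℤ) := by
  have := Nat.prime_iff_prime_int.1 (show Nat.Prime 19 by norm_num)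
  exact_mod_cast this

/-- `-1` is not a square modulo `19` -/
theorem sum19 {A B : ℤ} (h : (19 : ℤ) ∣ A ^ 2 + B ^ 2) : (19 : ℤ) ∣ A ∧ (19 : ℤ) ∣ B := by
  have key : ∀ x y : ZMod 19, x ^ 2 + y ^ 2 = 0 → x = 0 ∧ y = 0 := by
    decide
  have h1 := (ZMod.intCast_zmod_eq_zero_iff_dvd (A ^ 2 + B ^ 2) 19).2 (by exact_mod_cast h)
  push_cast at h1
  have := key A B h1
  exact ⟨by exact_mod_cast (ZMod.intCast_zmod_eq_zero_iff_dvd _ _).1 this.1,
    by exact_mod_cast (ZMod.intCast_zmod_eq_zero_iff_dvd _ _).1 this.2⟩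

theorem kill19a {c m n N : ℤ} (hc : ¬ (19 : ℤ) ∣ c) (hcop : IsCoprime m n)
    (h : (19 * c) * N ^ 2 = (19 * c) ^ 2 * m ^ 4 + 494 * (19 * c) * m ^ 2 * n ^ 2 +
      -123823 * n ^ 4) : False := by
  have h1 : c * N ^ 2 = 19 * (c ^ 2 * m ^ 4 + 26 * c * m ^ 2 * n ^ 2 - 343 * n ^ 4) := by
    linarith
  have h2 : (19 : ℤ) ∣ N := by
    rcases p19.dvd_or_dvd (⟨_, h1⟩ : (19 : ℤ) ∣ c * N ^ 2) with h3 | h3
    · exact absurd h3 hc
    · exact p19.dvd_of_dvd_pow h3
  obtain ⟨N1, rfl⟩ := h2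
  have h3 : (19 : ℤ) ∣ (c * m ^ 2 + 13 * n ^ 2) ^ 2 + (n ^ 2) ^ 2 := by
    refine ⟨c * N1 ^ 2 + 27 * n ^ 4, ?_⟩
    linarith
  obtain ⟨h4, h5⟩ := sum19 h3
  have h6 : (19 : ℤ) ∣ c * m ^ 2 := by
    have := dvd_sub h4 (h5.mul_left 13)
    simpa using this
  rcases p19.dvd_or_dvd h6 with h7 | h7
  · exact hc h7
  · exact p19.not_isUnit (hcop.isUnit_of_dvd' (p19.dvd_of_dvd_pow h7) (p19.dvd_of_dvd_pow h5))

theorem kill19b {c m n N : ℤ} (hc : ¬ (19 : ℤ) ∣ c) (hcop : IsCoprime m n)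
    (h : (19 * c) * N ^ 2 = (19 * c) ^ 2 * m ^ 4 + -247 * (19 * c) * m ^ 2 * n ^ 2 +
      46208 * n ^ 4) : False := by
  have h1 : c * N ^ 2 = 19 * (c ^ 2 * m ^ 4 - 13 * c * m ^ 2 * n ^ 2 + 128 * n ^ 4) := by
    linarith
  have h2 : (19 : ℤ) ∣ N := by
    rcases p19.dvd_or_dvd (⟨_, h1⟩ : (19 : ℤ) ∣ c * N ^ 2) with h3 | h3
    · exact absurd h3 hc
    · exact p19.dvd_of_dvd_pow h3
  obtain ⟨N1, rfl⟩ := h2
  have h3 : (19 : ℤ) ∣ (2 * c * m ^ 2 - 13 * n ^ 2) ^ 2 + (n ^ 2) ^ 2 := by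
    refine ⟨4 * c * N1 ^ 2 - 18 * n ^ 4, ?_⟩
    linarith
  obtain ⟨h4, h5⟩ := sum19 h3
  have h6 : (19 : ℤ) ∣ (2 * c) * m ^ 2 := by
    have := dvd_add h4 (h5.mul_left 13)
    simpa using this
  rcases p19.dvd_or_dvd h6 with h7 | h7
  · rcases p19.dvd_or_dvd h7 with h8 | h8
    · exact absurd h8 (by norm_num)
    · exact hc h8
  · exact p19.not_isUnit (hcop.isUnit_of_dvd' (p19.dvd_of_dvd_pow h7) (p19.dvd_of_dvd_pow h5))

/-- squarefree divisors -/
theorem class38 {d : ℤ} (hd : Squarefree d) (h : d ∣ 46208) :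
    d = 1 ∨ d = 2 ∨ d = 19 ∨ d = 38 ∨ d < 0 := by
  have h1 : d ∣ 38 := by
    rw [← hd.dvd_pow_iff_dvd (n := 7) (by norm_num)]
    exact h.trans (by norm_num)
  by_cases h0 : d < 0
  · simp [h0]
  · have h2 : d ≤ 38 := Int.le_of_dvd (by norm_num) h1
    have h3 : 0 ≤ d := not_lt.1 h0
    interval_cases d <;> simp_all (config := { decide := true })

theorem class133 {d : ℤ} (hd : Squarefree d) (h : d ∣ -123823) :
    d = 1 ∨ d = -1 ∨ d = 7 ∨ d = -7 ∨ d = 19 ∨ d = -19 ∨ d = 133 ∨ d = -133 := by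
  have h1 : d ∣ 133 := by
    rw [← hd.dvd_pow_iff_dvd (n := 3) (by norm_num)]
    exact h.trans (by norm_num)
  have h2 : d.natAbs ∣ 133 := by
    have := Int.natAbs_dvd_natAbs.2 h1
    simpa using this
  have h3 : d.natAbs ∈ Nat.divisors 133 := Nat.mem_divisors.2 ⟨h2, by norm_num⟩
  have h4 : Nat.divisors 133 = {1, 7, 19, 133} := by decide +kernel
  rw [h4] at h3
  simp only [Finset.mem_insert, Finset.mem_singleton] at h3
  omega

/-- the first local lemma -/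
theorem local1 {x y : ℚ} (hx : x ≠ 0) (h : x * (x ^ 2 + 494 * x - 123823) = y ^ 2) :
    (∃ w : ℚ, x = w ^ 2) ∨ ∃ w : ℚ, -123823 / x = w ^ 2 := by
  obtain ⟨d, z, hd, hz, rfl⟩ := sqf_rat x hx
  have h' : ((d : ℚ) * z ^ 2) * ((d * z ^ 2) ^ 2 + (494 : ℤ) * (d * z ^ 2) + (-123823 : ℤ)) = y ^ 2 := by
    rw [← h]; push_cast; ring
  obtain ⟨m, n, N, hcop, hm0, hn0, he, hdb⟩ := hspace hd hz h'
  have h16 : ∀ x y z : ZMod 16, (-x ^ 2 = y ^ 4 - 494 * y ^ 2 * z ^ 2 - 123823 * z ^ 4 ∨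
      x ^ 2 = 7 * y ^ 4 + 494 * y ^ 2 * z ^ 2 - 17689 * z ^ 4) →
      8 * y = 0 ∧ 8 * z = 0 := by
    decide +kernel
  have hno : ¬ (((8 * m : ℤ) : ZMod 16) = 0 ∧ ((8 * n : ℤ) : ZMod 16) = 0) := by
    rintro ⟨h1, h2⟩
    rw [ZMod.intCast_zmod_eq_zero_iff_dvd] at h1 h2
    have h3 : (2 : ℤ) ∣ m := by push_cast at h1; omega
    have h4 : (2 : ℤ) ∣ n := by push_cast at h2; omega
    have := hcop.isUnit_of_dvd' h3 h4
    exact absurd this (by decide)
  rcases class133 hd hdb with rfl | rfl | rfl | rfl | rfl | rfl | rfl | rfl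
  · left
    exact ⟨z, by push_cast; ring⟩
  · exfalso
    apply hno
    have h1 : -N ^ 2 = m ^ 4 - 494 * m ^ 2 * n ^ 2 - 123823 * n ^ 4 := by linear_combination he
    have h2 := congrArg (Int.cast : ℤ → ZMod 16) h1
    push_cast at h2 ⊢
    exact h16 _ _ _ (Or.inl h2)
  · exfalso
    apply hno
    have h1 : N ^ 2 = 7 * m ^ 4 + 494 * m ^ 2 * n ^ 2 - 17689 * n ^ 4 := by
      have : 7 * N ^ 2 = 7 * (7 * m ^ 4 + 494 * m ^ 2 * n ^ 2 - 17689 * n ^ 4) := by
        linear_combination he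
      exact mul_left_cancel₀ (by norm_num) this
    have h2 := congrArg (Int.cast : ℤ → ZMod 16) h1
    push_cast at h2 ⊢
    exact h16 _ _ _ (Or.inr h2)
  · right
    refine ⟨133 / z, ?_⟩
    push_cast
    field_simp
    norm_num
  · exact (kill19a (c := 1) (N := N) (by norm_num) hcop (by linear_combination he)).elim
  · exact (kill19a (c := -1) (N := N) (by norm_num) hcop (by linear_combination he)).elim
  · exact (kill19a (c := 7) (N := N) (by norm_num) hcop (by linear_combination he)).elim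
  · exact (kill19a (c := -7) (N := N) (by norm_num) hcop (by linear_combination he)).elim

/-- the second local lemma -/
theorem local2 {x y : ℚ} (hx : x ≠ 0) (h : x * (x ^ 2 - 247 * x + 46208) = y ^ 2) :
    (∃ w : ℚ, x = w ^ 2) ∨ ∃ w : ℚ, 46208 / x = w ^ 2 := by
  obtain ⟨d, z, hd, hz, rfl⟩ := sqf_rat x hx
  have h' : ((d : ℚ) * z ^ 2) * ((d * z ^ 2) ^ 2 + (-247 : ℤ) * (d * z ^ 2) + (46208 : ℤ)) = y ^ 2 := by
    rw [← h]; push_cast; ring
  obtain ⟨m, n, N, hcop, hm0, hn0, he, hdb⟩ := hspace hd hz h'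
  rcases class38 hd hdb with rfl | rfl | rfl | rfl | hneg
  · left
    exact ⟨z, by push_cast; ring⟩
  · right
    refine ⟨152 / z, ?_⟩
    push_cast
    field_simp
    norm_num
  · exact (kill19b (c := 1) (N := N) (by norm_num) hcop (by linear_combination he)).elim
  · exact (kill19b (c := 2) (N := N) (by norm_num) hcop (by linear_combination he)).elim
  · exfalso
    have h1 : 0 < n ^ 4 := by positivity
    have h2 : 0 ≤ d ^ 2 * m ^ 4 := by positivity
    have h3 : 0 ≤ (-d) * (m ^ 2 * n ^ 2) := mul_nonneg (by omega) (by positivity)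
    have h4 : 0 ≤ (-d) * N ^ 2 := mul_nonneg (by omega) (by positivity)
    nlinarith

/-- one step of the descent -/
theorem step {s t : ℚ} (h : t ^ 2 = s ^ 4 - 247 * s ^ 2 + 46208) :
    ∃ s' t' : ℚ, s' ≠ 0 ∧ t' ^ 2 = s' ^ 4 - 247 * s' ^ 2 + 46208 ∧
      s * (2 * s' * t') = s' ^ 4 - 46208 := by
  -- the point on the dual curve
  obtain ⟨t0, w, ht0, hw⟩ : ∃ t0 w : ℚ, t0 ^ 2 = s ^ 4 - 247 * s ^ 2 + 46208 ∧
      2 * s ^ 2 - 247 + 2 * t0 = w ^ 2 := by
    have hprod : (2 * s ^ 2 - 247 + 2 * t) * (2 * s ^ 2 - 247 - 2 * t) = -123823 := by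
      linear_combination -4 * h
    have hx : 2 * s ^ 2 - 247 + 2 * t ≠ 0 := by
      intro h0
      rw [h0, zero_mul] at hprod
      norm_num at hprod
    have hxc : (2 * s ^ 2 - 247 + 2 * t) * ((2 * s ^ 2 - 247 + 2 * t) ^ 2 +
        494 * (2 * s ^ 2 - 247 + 2 * t) - 123823) =
        (2 * s * (2 * s ^ 2 - 247 + 2 * t)) ^ 2 := by
      linear_combination (2 * s ^ 2 - 247 + 2 * t) * (4 * h)
    rcases local1 hx hxc with ⟨w, hw⟩ | ⟨w, hw⟩
    · exact ⟨t, w, h, hw⟩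
    · refine ⟨-t, w, by rw [neg_sq]; exact h, ?_⟩
      rw [← hw, eq_div_iff hx]
      linear_combination hprod
  have hw0 : w ≠ 0 := by
    rintro rfl
    have : (2 * s ^ 2 - 247 + 2 * t0) * (2 * s ^ 2 - 247 - 2 * t0) = -123823 := by
      linear_combination -4 * ht0
    rw [hw] at this
    norm_num at this
  -- the point on the curve
  obtain ⟨w1, s', hw1, hs'⟩ : ∃ w1 s' : ℚ, w1 ^ 2 = w ^ 2 ∧
      (w1 ^ 2 + 247 + 2 * s * w1) / 2 = s' ^ 2 := by
    have hprod : (w ^ 2 + 247 + 2 * s * w) / 2 * ((w ^ 2 + 247 - 2 * s * w) / 2) = 46208 := by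
      rw [← hw]
      have e : w ^ 2 = 2 * s ^ 2 - 247 + 2 * t0 := hw.symm
      linear_combination ht0 - s ^ 2 * e
    have hx : (w ^ 2 + 247 + 2 * s * w) / 2 ≠ 0 := by
      intro h0
      rw [h0, zero_mul] at hprod
      norm_num at hprod
    have hxc : (w ^ 2 + 247 + 2 * s * w) / 2 * (((w ^ 2 + 247 + 2 * s * w) / 2) ^ 2 -
        247 * ((w ^ 2 + 247 + 2 * s * w) / 2) + 46208) =
        ((w ^ 2 + 247 + 2 * s * w) / 2 * w) ^ 2 := by
      rw [← hprod]
      ring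
    rcases local2 hx hxc with ⟨s', hs'⟩ | ⟨s', hs'⟩
    · exact ⟨w, s', rfl, hs'⟩
    · refine ⟨-w, s', by ring, ?_⟩
      rw [← hs', eq_div_iff hx, ← hprod]
      ring
  rw [← hw1] at hw
  have hw10 : w1 ≠ 0 := by
    rintro rfl
    apply hw0
    have : w ^ 2 = 0 := by rw [← hw1]; ring
    exact pow_eq_zero_iff (two_ne_zero) |>.1 this
  have hprod : (w1 ^ 2 + 247 + 2 * s * w1) / 2 * ((w1 ^ 2 + 247 - 2 * s * w1) / 2) = 46208 := by
    have e : w1 ^ 2 = 2 * s ^ 2 - 247 + 2 * t0 := hw.symm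
    have e2 : w1 ^ 4 = (2 * s ^ 2 - 247 + 2 * t0) ^ 2 := by
      rw [← e]; ring
    linear_combination ht0 - s ^ 2 * e + (1 / 4) * e2 + (247 / 2) * e
  have hs'0 : s' ≠ 0 := by
    rintro rfl
    rw [hs'] at hprod
    norm_num at hprod
  refine ⟨s', s' * w1, hs'0, ?_, ?_⟩
  · linear_combination (-w1 ^ 2 + (w1 ^ 2 + 247 + 2 * s * w1) / 2 + s' ^ 2 - 247) * hs' + hprod
  · linear_combination (-2 * s * w1 + (w1 ^ 2 + 247 + 2 * s * w1) / 2 + s' ^ 2) * hs' - hprod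

theorem int_form {s t : ℚ} (h : t ^ 2 = s ^ 4 - 247 * s ^ 2 + 46208) : ∃ N : ℤ,
    N ^ 2 = s.num ^ 4 - 247 * s.num ^ 2 * (s.den : ℤ) ^ 2 + 46208 * (s.den : ℤ) ^ 4 ∧
      t = N / (s.den : ℚ) ^ 2 := by
  have hd : (s.den : ℚ) ≠ 0 := by exact_mod_cast s.den_nz
  have hsq : s * s.den = s.num := by
    have := Rat.num_div_den s
    rw [div_eq_iff hd] at this
    exact this.symm
  have h1 : (t * (s.den : ℚ) ^ 2) ^ 2 =
      ((s.num ^ 4 - 247 * s.num ^ 2 * (s.den : ℤ) ^ 2 + 46208 * (s.den : ℤ) ^ 4 : ℤ) : ℚ) := by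
    push_cast
    rw [← hsq, mul_pow, h]
    ring
  obtain ⟨N, hN⟩ := int_of_sq h1
  refine ⟨N, ?_, ?_⟩
  · rw [hN] at h1
    exact_mod_cast h1
  · rw [eq_div_iff (pow_ne_zero 2 hd), hN]

theorem not_dvd19 {M e N : ℤ} (hcop : IsCoprime M e)
    (h : N ^ 2 = M ^ 4 - 247 * M ^ 2 * e ^ 2 + 46208 * e ^ 4) : ¬ (19 : ℤ) ∣ M := by
  rintro ⟨m, rfl⟩
  have h1 : (19 : ℤ) ∣ N := by
    apply p19.dvd_of_dvd_pow (n := 2)
    rw [h]
    exact ⟨6859 * m ^ 4 - 4693 * m ^ 2 * e ^ 2 + 2432 * e ^ 4, by ring⟩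
  obtain ⟨n, rfl⟩ := h1
  have h2 : n ^ 2 = 19 * (19 * m ^ 4 - 13 * m ^ 2 * e ^ 2) + 128 * e ^ 4 := by
    have : 361 * n ^ 2 = 361 * (19 * (19 * m ^ 4 - 13 * m ^ 2 * e ^ 2) + 128 * e ^ 4) := by
      linear_combination h
    exact mul_left_cancel₀ (by norm_num) this
  have key : ∀ x y : ZMod 19, x ^ 2 = 128 * y ^ 4 → x = 0 ∧ y = 0 := by
    decide
  have h3 := congrArg (Int.cast : ℤ → ZMod 19) h2
  push_cast at h3
  have h19 : (19 : ZMod 19) = 0 := by decide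
  rw [h19, zero_mul, zero_add] at h3
  have h4 := (key _ _ h3).2
  have h5 : (19 : ℤ) ∣ e := by exact_mod_cast (ZMod.intCast_zmod_eq_zero_iff_dvd _ _).1 h4
  exact p19.not_isUnit (hcop.isUnit_of_dvd' (Dvd.intro _ rfl) h5)

theorem not_both_odd {M e N : ℤ} (hM : M % 2 = 1) (he : e % 2 = 1)
    (h : N ^ 2 = M ^ 4 - 247 * M ^ 2 * e ^ 2 + 46208 * e ^ 4) : False := by
  have key : ∀ x y z : ZMod 8, z ^ 2 = x ^ 4 - 247 * x ^ 2 * y ^ 2 + 46208 * y ^ 4 →
      ¬ (4 * x = 4 ∧ 4 * y = 4) := by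
    decide +kernel
  have h3 := congrArg (Int.cast : ℤ → ZMod 8) h
  push_cast at h3
  apply key _ _ _ h3
  have hq : ∀ x : ℤ, x % 2 = 1 → (4 * x : ZMod 8) = 4 := by
    intro x hx
    have h1 : ((4 * x - 4 : ℤ) : ZMod 8) = 0 := by
      rw [ZMod.intCast_zmod_eq_zero_iff_dvd]
      push_cast
      omega
    push_cast at h1
    linear_combination h1
  exact ⟨hq M hM, hq e he⟩

theorem even_num {M e N : ℤ} (hM : M % 2 = 0) (he : e % 2 = 1)
    (h : N ^ 2 = M ^ 4 - 247 * M ^ 2 * e ^ 2 + 46208 * e ^ 4) :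
    ∃ m n : ℤ, M = 4 * m ∧ N = 4 * n ∧ m % 2 = 1 ∧ n % 2 = 1 ∧
      n ^ 2 = 16 * m ^ 4 - 247 * m ^ 2 * e ^ 2 + 2888 * e ^ 4 := by
  have hsq8 : ∀ x : ℤ, x % 2 = 1 → x ^ 2 % 8 = 1 := by
    intro x hx
    have : x % 8 = 1 ∨ x % 8 = 3 ∨ x % 8 = 5 ∨ x % 8 = 7 := by omega
    rcases this with h | h | h | h <;> simp [pow_two, Int.mul_emod, h]
  have heven : ∀ x k : ℤ, x ^ 2 = 4 * k → ∃ y, x = 2 * y ∧ y ^ 2 = k := by
    intro x k hx
    have h1 : x % 2 = 0 := by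
      rcases Int.emod_two_eq_zero_or_one x with h1 | h1
      · exact h1
      · have := hsq8 x h1
        omega
    obtain ⟨y, rfl⟩ := Int.dvd_of_emod_eq_zero h1
    refine ⟨y, rfl, ?_⟩
    nlinarith
  have he8 := hsq8 e he
  have he4 : e ^ 4 % 8 = 1 := by
    have : e ^ 4 = e ^ 2 * e ^ 2 := by ring
    rw [this, Int.mul_emod, he8]
    norm_num
  obtain ⟨m1, rfl⟩ := Int.dvd_of_emod_eq_zero hM
  obtain ⟨n1, rfl, hn1⟩ := heven N (4 * m1 ^ 4 - 247 * m1 ^ 2 * e ^ 2 + 11552 * e ^ 4)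
    (by rw [h]; ring)
  -- `m1` is even
  have hm1 : m1 % 2 = 0 := by
    rcases Int.emod_two_eq_zero_or_one m1 with h1 | h1
    · exact h1
    · exfalso
      have a1 := hsq8 m1 h1
      have a2 : (m1 ^ 2 * e ^ 2) % 8 = 1 := by
        rw [Int.mul_emod, a1, he8]; norm_num
      have a3 : (m1 ^ 4) % 8 = 1 := by
        have : m1 ^ 4 = m1 ^ 2 * m1 ^ 2 := by ring
        rw [this, Int.mul_emod, a1]; norm_num
      have a4 : n1 ^ 2 % 8 = 5 := by
        have e1 : n1 ^ 2 = 4 * m1 ^ 4 - 247 * (m1 ^ 2 * e ^ 2) + 11552 * e ^ 4 := by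
          rw [hn1]; ring
        generalize m1 ^ 4 = x1 at *
        generalize m1 ^ 2 * e ^ 2 = x2 at *
        generalize e ^ 4 = x3 at *
        omega
      have a5 : n1 % 2 = 1 := by
        rcases Int.emod_two_eq_zero_or_one n1 with h2 | h2
        · exfalso
          obtain ⟨c, rfl⟩ := Int.dvd_of_emod_eq_zero h2
          have : (2 * c) ^ 2 = 4 * c ^ 2 := by ring
          rw [this] at a4
          omega
        · exact h2
      have := hsq8 n1 a5
      omega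
  obtain ⟨m, rfl⟩ := Int.dvd_of_emod_eq_zero hm1
  obtain ⟨n, rfl, hn⟩ := heven n1 (16 * m ^ 4 - 247 * m ^ 2 * e ^ 2 + 2888 * e ^ 4)
    (by rw [hn1]; ring)
  have hm : m % 2 = 1 := by
    rcases Int.emod_two_eq_zero_or_one m with h1 | h1
    · exfalso
      obtain ⟨m3, rfl⟩ := Int.dvd_of_emod_eq_zero h1
      obtain ⟨n3, rfl, hn3⟩ := heven n (64 * m3 ^ 4 - 247 * m3 ^ 2 * e ^ 2 + 722 * e ^ 4)
        (by rw [hn]; ring)
      rcases Int.emod_two_eq_zero_or_one m3 with h2 | h2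
      · obtain ⟨m4, rfl⟩ := Int.dvd_of_emod_eq_zero h2
        have e1 : n3 ^ 2 = 4 * (256 * m4 ^ 4 - 247 * (m4 ^ 2 * e ^ 2) + 180 * e ^ 4) + 2 * e ^ 4 := by
          rw [hn3]; ring
        have e2 : n3 ^ 2 % 4 = 2 := by
          generalize m4 ^ 4 = x1 at *
          generalize m4 ^ 2 * e ^ 2 = x2 at *
          generalize e ^ 4 = x3 at *
          omega
        rcases Int.emod_two_eq_zero_or_one n3 with h3 | h3
        · obtain ⟨c, rfl⟩ := Int.dvd_of_emod_eq_zero h3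
          have : (2 * c) ^ 2 = 4 * c ^ 2 := by ring
          rw [this] at e2
          omega
        · have := hsq8 n3 h3
          omega
      · have a1 := hsq8 m3 h2
        have a2 : (m3 ^ 2 * e ^ 2) % 8 = 1 := by
          rw [Int.mul_emod, a1, he8]; norm_num
        have e1 : n3 ^ 2 = 64 * m3 ^ 4 - 247 * (m3 ^ 2 * e ^ 2) + 722 * e ^ 4 := by
          rw [hn3]; ring
        have e2 : n3 ^ 2 % 8 = 3 := by
          generalize m3 ^ 4 = x1 at *
          generalize m3 ^ 2 * e ^ 2 = x2 at *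
          generalize e ^ 4 = x3 at *
          omega
        rcases Int.emod_two_eq_zero_or_one n3 with h3 | h3
        · obtain ⟨c, rfl⟩ := Int.dvd_of_emod_eq_zero h3
          have : (2 * c) ^ 2 = 4 * c ^ 2 := by ring
          rw [this] at e2
          omega
        · have := hsq8 n3 h3
          omega
    · exact h1
  refine ⟨m, n, by ring, by ring, hm, ?_, hn⟩
  rcases Int.emod_two_eq_zero_or_one n with h1 | h1
  · exfalso
    obtain ⟨c, rfl⟩ := Int.dvd_of_emod_eq_zero h1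
    have a1 := hsq8 m hm
    have a2 : (m ^ 2 * e ^ 2) % 8 = 1 := by
      rw [Int.mul_emod, a1, he8]; norm_num
    have e1 : 4 * c ^ 2 = 16 * m ^ 4 - 247 * (m ^ 2 * e ^ 2) + 2888 * e ^ 4 := by
      have : (2 * c) ^ 2 = 4 * c ^ 2 := by ring
      rw [← this, hn]; ring
    generalize m ^ 4 = x1 at *
    generalize m ^ 2 * e ^ 2 = x2 at *
    generalize e ^ 4 = x3 at *
    generalize c ^ 2 = x4 at *
    omega
  · exact h1

/-- the size argument -/
theorem size {e n k : ℤ} (he : 1 ≤ e) (hn : n ^ 2 = 16 - 247 * e ^ 2 + 2888 * e ^ 4)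
    (hk : 247 * e ^ 2 - 32 = n * k) (hodd : k % 2 = 1) : False := by
  have hE : 1 ≤ e ^ 2 := by nlinarith
  obtain ⟨E, hEe⟩ : ∃ E, E = e ^ 2 := ⟨_, rfl⟩
  have h1 : n ^ 2 = 16 - 247 * E + 2888 * E ^ 2 := by rw [hn, hEe]; ring
  rw [← hEe] at hE hk
  have h2 : (247 * E - 32) ^ 2 = (16 - 247 * E + 2888 * E ^ 2) * k ^ 2 := by
    rw [hk, mul_pow, h1]
  have h3 : k ^ 2 < 25 := by
    by_contra hc
    push Not at hc
    have h4 : 0 ≤ (16 - 247 * E + 2888 * E ^ 2) * (k ^ 2 - 25) := by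
      apply mul_nonneg _ (by linarith)
      nlinarith
    nlinarith
  have h5 : k < 5 := by nlinarith
  have h6 : -5 < k := by nlinarith
  interval_cases k <;> simp at hodd <;> nlinarith

theorem no_equal {M M' e N' : ℤ} (he : 1 ≤ e) (hcop : IsCoprime M' e)
    (h : N' ^ 2 = M' ^ 4 - 247 * M' ^ 2 * e ^ 2 + 46208 * e ^ 4)
    (h2 : 2 * M * M' * N' = M' ^ 4 - 46208 * e ^ 4) : False := by
  rcases Int.emod_two_eq_zero_or_one M' with hM | hM
  · -- `M'` even
    have heo : e % 2 = 1 := by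
      rcases Int.emod_two_eq_zero_or_one e with h1 | h1
      · exfalso
        have := hcop.isUnit_of_dvd' (Int.dvd_of_emod_eq_zero hM) (Int.dvd_of_emod_eq_zero h1)
        exact absurd this (by decide)
      · exact h1
    have h19 := not_dvd19 hcop h
    obtain ⟨m, n, rfl, rfl, hm, hn, hmn⟩ := even_num hM heo h
    have h3 : M * m * n = 4 * (2 * m ^ 4 - 361 * e ^ 4) := by
      have : 32 * (M * m * n) = 32 * (4 * (2 * m ^ 4 - 361 * e ^ 4)) := by
        linear_combination h2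
      exact mul_left_cancel₀ (by norm_num) this
    -- `m` is a unit
    have hm1 : IsUnit m := by
      have c1 : IsCoprime m e := by
        obtain ⟨u, v, huv⟩ := hcop
        exact ⟨4 * u, v, by linear_combination huv⟩
      have c2 : IsCoprime m 19 := by
        rw [isCoprime_comm, Prime.coprime_iff_not_dvd p19]
        intro hc
        exact h19 (hc.mul_left 4)
      have c3 : IsCoprime m 2 := by
        rw [isCoprime_comm, Prime.coprime_iff_not_dvd Int.prime_two]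
        omega
      have d1 : m ∣ (2 ^ 2 * 19 ^ 2) * e ^ 4 := by
        refine ⟨8 * m ^ 3 - M * n, ?_⟩
        linear_combination h3
      have d2 : m ∣ 2 ^ 2 * 19 ^ 2 := (c1.pow_right (n := 4)).dvd_of_dvd_mul_right d1
      have d3 : m ∣ 2 ^ 2 := (c2.pow_right (n := 2)).dvd_of_dvd_mul_right d2
      have d4 : m ∣ 1 := (c3.pow_right (n := 2)).dvd_of_dvd_mul_left (by simpa using d3)
      exact isUnit_of_dvd_one d4
    have hm2 : m ^ 2 = 1 := by
      rcases Int.isUnit_iff.1 hm1 with rfl | rfl <;> norm_num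
    have hm4 : m ^ 4 = 1 := by
      have : m ^ 4 = (m ^ 2) ^ 2 := by ring
      rw [this, hm2]; norm_num
    rw [hm2, hm4] at hmn
    rw [hm4] at h3
    have d1 : n ∣ 4 * (2 - 361 * e ^ 4) := ⟨M * m, by linear_combination -h3⟩
    have c4 : IsCoprime n (2 ^ 2) := by
      apply IsCoprime.pow_right
      rw [isCoprime_comm, Prime.coprime_iff_not_dvd Int.prime_two]
      omega
    have d2 : n ∣ 2 - 361 * e ^ 4 := c4.dvd_of_dvd_mul_left (by simpa using d1)
    have d3 : n ∣ 247 * e ^ 2 - 32 := by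
      have e1 : 247 * e ^ 2 - 32 = -(8 * (2 - 361 * e ^ 4)) - n * n + 0 := by
        linear_combination hmn
      rw [e1]
      exact dvd_add (dvd_sub ((d2.mul_left 8).neg_right) (Dvd.intro _ rfl)) (dvd_zero _)
    obtain ⟨k, hk⟩ := d3
    refine size he (by rw [hmn]; ring) hk ?_
    rcases Int.emod_two_eq_zero_or_one k with h1 | h1
    · exfalso
      obtain ⟨c, rfl⟩ := Int.dvd_of_emod_eq_zero h1
      obtain ⟨f, hf⟩ : ∃ f, e = 2 * f + 1 := ⟨e / 2, by omega⟩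
      rw [hf] at hk
      have : 247 * (4 * (f * f + f) + 1) - 32 = 2 * (n * c) := by linear_combination hk
      omega
    · exact h1
  · rcases Int.emod_two_eq_zero_or_one e with h1 | h1
    · obtain ⟨c, hc⟩ := Int.dvd_of_emod_eq_zero h1
      obtain ⟨f, hf⟩ : ∃ f, M' = 2 * f + 1 := ⟨M' / 2, by omega⟩
      have h3 : 2 * (M * M' * N') = 2 * (8 * f ^ 4 + 16 * f ^ 3 + 12 * f ^ 2 + 4 * f) + 1 -
          2 * (23104 * e ^ 4) := by
        have : M' ^ 4 = 2 * (8 * f ^ 4 + 16 * f ^ 3 + 12 * f ^ 2 + 4 * f) + 1 := by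
          rw [hf]; ring
        linear_combination h2 + this
      omega
    · exact not_both_odd hM h1 h

theorem den_lt {s s' t' : ℚ} (h' : t' ^ 2 = s' ^ 4 - 247 * s' ^ 2 + 46208)
    (hst : s * (2 * s' * t') = s' ^ 4 - 46208) : s'.den < s.den := by
  obtain ⟨N', hN', ht'⟩ := int_form h'
  have hd : (s.den : ℚ) ≠ 0 := by exact_mod_cast s.den_nz
  have hd' : (s'.den : ℚ) ≠ 0 := by exact_mod_cast s'.den_nz
  have hcop : IsCoprime s'.num (s'.den : ℤ) := Rat.isCoprime_num_den s'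
  have hpos : (0 : ℤ) < s.den := by exact_mod_cast s.den_pos
  have hpos' : (0 : ℤ) < s'.den := by exact_mod_cast s'.den_pos
  have key : 2 * s.num * s'.num * N' * (s'.den : ℤ) =
      (s.den : ℤ) * (s'.num ^ 4 - 46208 * (s'.den : ℤ) ^ 4) := by
    have h1 : s = s.num / s.den := (Rat.num_div_den s).symm
    have h2 : s' = s'.num / s'.den := (Rat.num_div_den s').symm
    have h3 : ((s.num : ℚ) / s.den) * (2 * ((s'.num : ℚ) / s'.den) * (N' / (s'.den : ℚ) ^ 2)) =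
        ((s'.num : ℚ) / s'.den) ^ 4 - 46208 := by
      rw [← h1, ← h2, ← ht']
      exact hst
    field_simp at h3
    have h4 : ((2 * s.num * s'.num * N' * (s'.den : ℤ) : ℤ) : ℚ) =
      (((s.den : ℤ) * (s'.num ^ 4 - 46208 * (s'.den : ℤ) ^ 4) : ℤ) : ℚ) := by
      push_cast
      linear_combination h3
    exact_mod_cast h4
  generalize (s.num) = M at *
  generalize hM' : (s'.num) = M' at *
  obtain ⟨e, he⟩ : ∃ e : ℤ, e = s.den := ⟨_, rfl⟩
  obtain ⟨e', he'⟩ : ∃ e' : ℤ, e' = s'.den := ⟨_, rfl⟩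
  rw [← he] at key hpos
  rw [← he'] at key hpos' hcop hN'
  have hD : IsCoprime e' (M' ^ 4 - 46208 * e' ^ 4) := by
    have h1 : IsCoprime e' (M' ^ 4) := (hcop.symm).pow_right
    have h2 : IsCoprime e' (M' ^ 4 + e' * (-46208 * e' ^ 3)) := h1.add_mul_left_right _
    convert h2 using 1
    ring
  have hdvd : e' ∣ e := by
    apply hD.dvd_of_dvd_mul_right
    rw [← key]
    exact Dvd.intro_left _ rfl
  have hle : e' ≤ e := Int.le_of_dvd hpos hdvd
  rcases hle.lt_or_eq with hlt | heq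
  · rw [he, he'] at hlt
    exact_mod_cast hlt
  · exfalso
    rw [← heq] at key
    refine no_equal (M := M) hpos' hcop hN' ?_
    have h1 : e' * (2 * M * M' * N') = e' * (M' ^ 4 - 46208 * e' ^ 4) := by
      linear_combination key
    exact mul_left_cancel₀ hpos'.ne' h1

theorem no_solution (n : ℕ) : ∀ s t : ℚ, s.den = n → s ≠ 0 →
    t ^ 2 = s ^ 4 - 247 * s ^ 2 + 46208 → False := by
  induction n using Nat.strong_induction_on with
  | _ n ih =>
    intro s t hsn hs h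
    obtain ⟨s', t', hs', h', hst⟩ := step h
    exact ih s'.den (by rw [← hsn]; exact den_lt h' hst) s' t' rfl hs' h'

/-- the affine points -/
theorem affine_points {x y : ℚ} (h : y ^ 2 + x * y + y = x ^ 3 + x ^ 2 + 1617 * x + 42677) :
    x = -21 ∧ y = 10 := by
  have hw : (2 * y + x + 1) ^ 2 = (x + 21) * (4 * (x + 21) ^ 2 - 247 * (x + 21) + 11552) := by
    linear_combination 4 * h
  by_cases hu : x + 21 = 0
  · have hx : x = -21 := by linarith
    refine ⟨hx, ?_⟩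
    rw [hu, zero_mul] at hw
    have := pow_eq_zero_iff (two_ne_zero) |>.1 hw
    linarith
  · exfalso
    set X := 4 * (x + 21) with hX
    have hX0 : X ≠ 0 := mul_ne_zero (by norm_num) hu
    have hXc : X * (X ^ 2 - 247 * X + 46208) = (4 * (2 * y + x + 1)) ^ 2 := by
      rw [hX]
      linear_combination (-16) * hw
    rcases local2 hX0 hXc with ⟨s, hs⟩ | ⟨s, hs⟩
    · have hs0 : s ≠ 0 := by
        rintro rfl
        exact hX0 (by rw [hs]; ring)
      apply no_solution s.den s (4 * (2 * y + x + 1) / s) rfl hs0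
      rw [div_pow, ← hXc, hs]
      field_simp
    · have hs0 : s ≠ 0 := by
        rintro rfl
        have : (46208 : ℚ) / X ≠ 0 := div_ne_zero (by norm_num) hX0
        exact this (by rw [hs]; ring)
      have hXs : X = 46208 / s ^ 2 := by
        rw [← hs]; field_simp
      apply no_solution s.den s (s ^ 3 * (4 * (2 * y + x + 1)) / 46208) rfl hs0
      rw [div_pow, mul_pow, ← hXc, hXs]
      field_simp
      ring

end Pool.Agent.R435.PTS

namespace Pool.Agent.R435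

open WeierstrassCurve

theorem pts_nonsingular :
    (EE.map (Int.castRingHom ℚ)).toAffine.Nonsingular (-21) 10 := by
  rw [Affine.nonsingular_iff, Affine.equation_iff]
  simp only [EE, WeierstrassCurve.map, WeierstrassCurve.toAffine, map_one, Int.coe_castRingHom]
  norm_num

theorem s_pts : S_PTS := by
  unfold S_PTS
  rw [Nat.card_eq_two_iff]
  refine ⟨Affine.Point.zero, Affine.Point.some (-21) 10 pts_nonsingular, by simp, ?_⟩
  ext P
  simp only [Set.mem_insert_iff, Set.mem_singleton_iff, Set.mem_univ, iff_true]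
  rcases P with _ | ⟨x, y, h⟩
  · left; rfl
  · right
    have h1 := h.1
    rw [Affine.equation_iff] at h1
    simp only [EE, WeierstrassCurve.map, WeierstrassCurve.toAffine, map_one,
      Int.coe_castRingHom] at h1
    push_cast at h1
    have h2 : y ^ 2 + x * y + y = x ^ 3 + x ^ 2 + 1617 * x + 42677 := by
      linear_combination h1
    obtain ⟨rfl, rfl⟩ := PTS.affine_points h2
    rfl

end Pool.Agent.R435
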