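import Pool.Agent.R435.Stm
import Pool.Agent.W598.MT.TATE

/-!
# The Tate periods of `EE` at `2` and at `7`

At `7` the period is the one of the curve `E14` (the two curves have the same `j`-invariant); at
`2` it is found by a contraction argument, after dividing the equation by `1728`.
-/

set_option autoImplicit false

namespace Pool.Agent.R435.TATE

open Pool.Agent.W97.MT

theorem norm_64 : ‖(64 : ℤ_[2])‖ ≤ 1 / 2 := by
  have h : (64 : ℤ_[2]) = ((2 : ℕ) : ℤ_[2]) ^ 6 := by norm_num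
  rw [h, PadicInt.norm_p_pow]
  norm_num

/-- the series with coefficients `c` at `64 u` -/
noncomputable def AA (c : ℕ → ℕ) (u : ℤ_[2]) : ℤ_[2] :=
  ∑' n : ℕ, (c n : ℤ_[2]) * (64 * u) ^ n

theorem summable_aux (a g : ℕ → ℤ_[2]) : Summable (fun n => a n * (64 ^ n * g n)) := by
  apply Summable.of_norm_bounded (g := fun n => (1 / 2 : ℝ) ^ n)
  · exact summable_geometric_of_lt_one (by norm_num) (by norm_num)
  · intro n
    rw [norm_mul, norm_mul, norm_pow]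
    have h1 : ‖a n‖ ≤ 1 := PadicInt.norm_le_one _
    have h2 : ‖g n‖ ≤ 1 := PadicInt.norm_le_one _
    have h3 : ‖(64 : ℤ_[2])‖ ^ n ≤ (1 / 2) ^ n := pow_le_pow_left₀ (norm_nonneg _) norm_64 n
    have h4 : 0 ≤ ‖(64 : ℤ_[2])‖ ^ n := by positivity
    calc ‖a n‖ * (‖(64 : ℤ_[2])‖ ^ n * ‖g n‖) ≤ 1 * (‖(64 : ℤ_[2])‖ ^ n * 1) := by
          gcongr
      _ ≤ (1 / 2) ^ n := by rw [one_mul, mul_one]; exact h3

theorem summable_AA (c : ℕ → ℕ) (u : ℤ_[2]) :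
    Summable (fun n : ℕ => (c n : ℤ_[2]) * (64 * u) ^ n) := by
  have := summable_aux (fun n => (c n : ℤ_[2])) (fun n => u ^ n)
  simpa only [mul_pow] using this

theorem AA_dvd (c : ℕ → ℕ) (u v : ℤ_[2]) : u - v ∣ AA c u - AA c v := by
  have h : ∀ n : ℕ, ∃ g, u ^ n - v ^ n = (u - v) * g := fun n => sub_dvd_pow_sub_pow u v n
  choose g hg using h
  refine ⟨∑' n : ℕ, (c n : ℤ_[2]) * (64 ^ n * g n), ?_⟩
  unfold AA
  rw [← (summable_AA c u).tsum_sub (summable_AA c v),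
    ← (summable_aux (fun n => (c n : ℤ_[2])) g).tsum_mul_left]
  congr 1
  ext1 n
  rw [← mul_sub, mul_pow, mul_pow, ← mul_sub, hg n]
  ring

/-- the coefficients of the divisor sum series -/
def sg (k n : ℕ) : ℕ := ArithmeticFunction.sigma k (n + 2)

/-- the coefficients `(5 σ_3 + 7 σ_5) / 12` -/
def gg (n : ℕ) : ℕ := (5 * sg 3 n + 7 * sg 5 n) / 12

theorem dvd12 (d : ℕ) : 12 ∣ 5 * d ^ 3 + 7 * d ^ 5 := by
  have h : ∀ x : ZMod 12, 5 * x ^ 3 + 7 * x ^ 5 = 0 := by decide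
  rw [← ZMod.natCast_eq_zero_iff]
  push_cast
  exact h d

theorem gg_spec (n : ℕ) : 12 * gg n = 5 * sg 3 n + 7 * sg 5 n := by
  unfold gg
  apply Nat.mul_div_cancel'
  unfold sg
  rw [ArithmeticFunction.sigma_apply, ArithmeticFunction.sigma_apply, Finset.mul_sum,
    Finset.mul_sum, ← Finset.sum_add_distrib]
  exact Finset.dvd_sum fun d _ => dvd12 d

theorem AA_gg (u : ℤ_[2]) : 12 * AA gg u = 5 * AA (sg 3) u + 7 * AA (sg 5) u := by
  unfold AA
  rw [← (summable_AA gg u).tsum_mul_left, ← (summable_AA (sg 3) u).tsum_mul_left,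
    ← (summable_AA (sg 5) u).tsum_mul_left,
    ← ((summable_AA (sg 3) u).mul_left 5).tsum_add ((summable_AA (sg 5) u).mul_left 7)]
  congr 1
  ext1 n
  have h := congrArg (Nat.cast : ℕ → ℤ_[2]) (gg_spec n)
  push_cast at h
  linear_combination (64 * u) ^ n * h

/-- the coercion of AA -/
theorem coe_AA (k : ℕ) (u : ℤ_[2]) :
    HasSum (fun n : ℕ => (ArithmeticFunction.sigma k (n + 2) : ℚ_[2]) *
      (((u : ℤ_[2]) : ℚ_[2]) * 2 ^ 6) ^ n) ((AA (sg k) u : ℤ_[2]) : ℚ_[2]) := by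
  have h1 := (summable_AA (sg k) u).hasSum
  have h2 := h1.map (PadicInt.Coe.ringHom (p := 2)) continuous_subtype_val
  have h3 : (PadicInt.Coe.ringHom (p := 2)) ∘ (fun n : ℕ =>
      (sg k n : ℤ_[2]) * (64 * u) ^ n) =
      (fun n : ℕ => (ArithmeticFunction.sigma k (n + 2) : ℚ_[2]) *
      (((u : ℤ_[2]) : ℚ_[2]) * 2 ^ 6) ^ n) := by
    funext n
    rw [Function.comp_apply, map_mul, map_natCast, map_pow, map_mul]
    have e1 : (PadicInt.Coe.ringHom (p := 2)) u = (u : ℚ_[2]) := rfl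
    have e2 : (PadicInt.Coe.ringHom (p := 2)) 64 = 2 ^ 6 := by
      rw [map_ofNat]; norm_num
    rw [e1, e2, mul_comm ((2 : ℚ_[2]) ^ 6)]
    rfl
  rw [h3] at h2
  exact h2

theorem series_eq (k : ℕ) (u : ℤ_[2]) :
    ∑' n : ℕ, (ArithmeticFunction.sigma k (n + 1) : ℚ_[2]) *
      (((u : ℤ_[2]) : ℚ_[2]) * 2 ^ 6) ^ (n + 1) =
    ((u : ℤ_[2]) : ℚ_[2]) * 2 ^ 6 + (((u : ℤ_[2]) : ℚ_[2]) * 2 ^ 6) ^ 2 *
      ((AA (sg k) u : ℤ_[2]) : ℚ_[2]) := by
  set q : ℚ_[2] := ((u : ℤ_[2]) : ℚ_[2]) * 2 ^ 6 with hq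
  have h1 := (coe_AA k u).mul_left (q ^ 2)
  rw [← hq] at h1
  have h2 : (fun n : ℕ => q ^ 2 * ((ArithmeticFunction.sigma k (n + 2) : ℚ_[2]) * q ^ n)) =
      fun n : ℕ => (fun n : ℕ => (ArithmeticFunction.sigma k (n + 1) : ℚ_[2]) *
        q ^ (n + 1)) (n + 1) := by
    funext n
    simp only
    ring
  rw [h2] at h1
  have h3 := (hasSum_nat_add_iff' (f := fun n : ℕ =>
    (ArithmeticFunction.sigma k (n + 1) : ℚ_[2]) * q ^ (n + 1)) (g := q + q ^ 2 *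
      ((AA (sg k) u : ℤ_[2]) : ℚ_[2])) 1).1 (by
      have e : q + q ^ 2 * ((AA (sg k) u : ℤ_[2]) : ℚ_[2]) - ∑ i ∈ Finset.range 1,
          (ArithmeticFunction.sigma k (i + 1) : ℚ_[2]) * q ^ (i + 1) =
          q ^ 2 * ((AA (sg k) u : ℤ_[2]) : ℚ_[2]) := by
        rw [Finset.sum_range_one]
        simp
      rw [e]
      exact h1)
  exact h3.tsum_eq

noncomputable def WW (u : ℤ_[2]) : ℤ_[2] :=
  AA gg u + 100 * (1 + 64 * u * AA (sg 3) u) ^ 2 +
    8000 * (64 * u) * (1 + 64 * u * AA (sg 3) u) ^ 3 - 147 * (1 + 64 * u * AA (sg 5) u) ^ 2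

noncomputable def yy (u : ℤ_[2]) : ℤ_[2] := 240 * (u + 64 * u ^ 2 * AA (sg 3) u)

noncomputable def HH (b u : ℤ_[2]) : ℤ_[2] :=
  b * ((-343) * (3 * yy u + 3 * 64 * yy u ^ 2 + 64 ^ 2 * yy u ^ 3) -
    (-215) ^ 3 * u ^ 2 * WW u)

theorem HH_dvd (b u v : ℤ_[2]) : u - v ∣ HH b u - HH b v := by
  rw [← Ideal.mem_span_singleton, ← Ideal.Quotient.eq]
  have h0 : Ideal.Quotient.mk (Ideal.span {u - v}) u = Ideal.Quotient.mk (Ideal.span {u - v}) v :=
    (Ideal.Quotient.eq).2 (Ideal.mem_span_singleton.2 dvd_rfl)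
  have h1 : ∀ c, Ideal.Quotient.mk (Ideal.span {u - v}) (AA c u) =
      Ideal.Quotient.mk (Ideal.span {u - v}) (AA c v) := fun c =>
    (Ideal.Quotient.eq).2 (Ideal.mem_span_singleton.2 (AA_dvd c u v))
  simp only [HH, yy, WW, map_mul, map_sub, map_add, map_pow, h0, h1]

noncomputable def TT (b u : ℤ_[2]) : ℤ_[2] := b * (-343) + 64 * HH b u

theorem TT_contr (b : ℤ_[2]) : ContractingWith (1 / 2 : NNReal) (TT b) := by
  refine ⟨?_, ?_⟩
  · rw [div_lt_one (by norm_num)]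
    norm_num
  · apply LipschitzWith.of_dist_le_mul
    intro u v
    rw [dist_eq_norm, dist_eq_norm]
    obtain ⟨c, hc⟩ := HH_dvd b u v
    have e : TT b u - TT b v = 64 * ((u - v) * c) := by
      unfold TT
      rw [← hc]
      ring
    rw [e, norm_mul, norm_mul]
    have h1 : ‖c‖ ≤ 1 := PadicInt.norm_le_one _
    have h2 := norm_64
    have h3 : ((1 / 2 : NNReal) : ℝ) = 1 / 2 := by norm_num
    rw [h3]
    calc ‖(64 : ℤ_[2])‖ * (‖u - v‖ * ‖c‖) ≤ (1 / 2) * (‖u - v‖ * 1) := by gcongr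
      _ = 1 / 2 * ‖u - v‖ := by rw [mul_one]

theorem c4_EE : EE.c₄ = -215 * 19 ^ 2 := by
  simp [EE, WeierstrassCurve.c₄, WeierstrassCurve.b₂, WeierstrassCurve.b₄]

theorem Δ_EE : EE.Δ = -21952 * 19 ^ 6 := by
  simp [EE, WeierstrassCurve.Δ, WeierstrassCurve.b₂, WeierstrassCurve.b₄,
    WeierstrassCurve.b₆, WeierstrassCurve.b₈]

theorem tate2 : ∃ u : ℤ_[2]ˣ, IsTatePeriod EE (((u : ℤ_[2]) : ℚ_[2]) * (2 : ℚ_[2]) ^ 6) := by
  -- inverse of the constant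
  have hunit : IsUnit ((-215 : ℤ_[2]) ^ 3) := by
    have h1 : PadicInt.toZMod ((-215 : ℤ_[2]) ^ 3) ≠ 0 := by
      rw [map_pow, map_neg, map_ofNat]
      decide
    by_contra h2
    apply h1
    have h3 : ((-215 : ℤ_[2]) ^ 3) ∈ IsLocalRing.maximalIdeal ℤ_[2] :=
      (IsLocalRing.mem_maximalIdeal _).2 h2
    rw [← PadicInt.ker_toZMod] at h3
    exact h3
  obtain ⟨a, ha⟩ := hunit
  set b : ℤ_[2] := ((a⁻¹ : ℤ_[2]ˣ) : ℤ_[2]) with hb
  have hab : ((-215 : ℤ_[2]) ^ 3) * b = 1 := by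
    rw [← ha, hb]
    exact a.mul_inv
  set u := ContractingWith.fixedPoint (TT b) (TT_contr b) with hu
  have hfix : TT b u = u := ContractingWith.fixedPoint_isFixedPt (TT_contr b)
  -- the equation
  have heq : ((-215 : ℤ_[2]) ^ 3) * u = (-343) * (1 + 64 * yy u) ^ 3 -
      64 * ((-215) ^ 3 * u ^ 2 * WW u) := by
    conv_lhs => rw [← hfix]
    unfold TT HH
    linear_combination ((-343) * (1 + 64 * yy u) ^ 3 -
      64 * ((-215) ^ 3 * u ^ 2 * WW u)) * hab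
  have hmod : PadicInt.toZMod u = 1 := by
    have h1 := congrArg (PadicInt.toZMod (p := 2)) heq
    simp only [map_mul, map_sub, map_add, map_pow, map_neg, map_ofNat, map_one] at h1
    have h64 : (64 : ZMod 2) = 0 := by decide
    rw [h64, zero_mul, zero_mul, add_zero, one_pow, mul_one, sub_zero] at h1
    revert h1
    generalize PadicInt.toZMod u = x
    revert x
    decide
  have hu_unit : IsUnit u := by
    by_contra h2
    have h3 : u ∈ IsLocalRing.maximalIdeal ℤ_[2] := (IsLocalRing.mem_maximalIdeal _).2 h2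
    rw [← PadicInt.ker_toZMod] at h3
    have h4 : PadicInt.toZMod u = 0 := h3
    rw [h4] at hmod
    exact absurd hmod (by decide)
  obtain ⟨u', hu'⟩ := hu_unit
  refine ⟨u', ?_, ?_, ?_⟩
  · apply mul_ne_zero
    · rw [hu']
      intro h
      have : u = 0 := Subtype.ext h
      rw [this, map_zero] at hmod
      exact absurd hmod (by decide)
    · norm_num
  · rw [norm_mul, norm_pow]
    have h1 : ‖((u' : ℤ_[2]) : ℚ_[2])‖ ≤ 1 := PadicInt.norm_le_one _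
    have h2 : ‖(2 : ℚ_[2])‖ = (2 : ℝ)⁻¹ := by
      have := Padic.norm_p (p := 2)
      simpa using this
    rw [h2]
    calc ‖((u' : ℤ_[2]) : ℚ_[2])‖ * (2 : ℝ)⁻¹ ^ 6 ≤ 1 * (2 : ℝ)⁻¹ ^ 6 := by gcongr
      _ < 1 := by norm_num
  · rw [c4_EE, Δ_EE, hu']
    unfold E4 E6
    rw [series_eq 3 u, series_eq 5 u]
    have hg := congrArg (PadicInt.Coe.ringHom (p := 2)) (AA_gg u)
    have heq' := congrArg (PadicInt.Coe.ringHom (p := 2)) heq
    simp only [map_mul, map_sub, map_add, map_pow, map_neg, map_ofNat, map_one, yy, WW] at heq' hg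
    have e1 : ∀ x : ℤ_[2], (PadicInt.Coe.ringHom (p := 2)) x = (x : ℚ_[2]) := fun _ => rfl
    simp only [e1] at heq' hg
    generalize (u : ℚ_[2]) = U at *
    generalize ((AA (sg 3) u : ℤ_[2]) : ℚ_[2]) = A at *
    generalize ((AA (sg 5) u : ℤ_[2]) : ℚ_[2]) = B at *
    generalize ((AA gg u : ℤ_[2]) : ℚ_[2]) = G at *
    push_cast
    linear_combination (1728 * 64 * 19 ^ 6) * heq' -
      (144 * 64 ^ 2 * U ^ 2 * (-215) ^ 3 * 19 ^ 6) * hg

theorem tate7 : ∃ u : ℤ_[7]ˣ, IsTatePeriod EE (((u : ℤ_[7]) : ℚ_[7]) * (7 : ℚ_[7]) ^ 3) := by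
  obtain ⟨u, -, h1, h2, h3⟩ := Pool.Agent.W598.MT.s_tate
  refine ⟨u, h1, h2, ?_⟩
  have hc4 : E14.c₄ = -215 := by
    simp [E14, WeierstrassCurve.c₄, WeierstrassCurve.b₂, WeierstrassCurve.b₄]
  have hΔ : E14.Δ = -21952 := by
    simp [E14, WeierstrassCurve.Δ, WeierstrassCurve.b₂, WeierstrassCurve.b₄,
      WeierstrassCurve.b₆, WeierstrassCurve.b₈]
  rw [hc4, hΔ] at h3
  rw [c4_EE, Δ_EE]
  push_cast at h3 ⊢
  linear_combination 19 ^ 6 * h3

end Pool.Agent.R435.TATE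

namespace Pool.Agent.R435

theorem s_tate : S_TATE := ⟨TATE.tate2, TATE.tate7⟩

end Pool.Agent.R435
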