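import Pool.Agent.R435.Mom
import Pool.Agent.R435.Alg
import Pool.Agent.R435.PTS
import Pool.Agent.R435.TATE
import Pool.Agent.R435.OM
import Pool.Agent.R435.MIN

/-!
# The Mazur-Tate element of the twist and the cube of the augmentation ideal
-/

set_option autoImplicit false

namespace Pool.Agent.R435

open Pool.Agent.W97.MT
open Pool.Agent.W97.V20 (lam GM aug IsSplit Omega an anPow fE)

/-! ### The logarithm -/

lemma lg_aux : ∀ i ∈ Finset.range 49, ∀ j ∈ Finset.range 49, i % 7 ≠ 0 → j % 7 ≠ 0 →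
    lg (i * j) = (lg i + lg j) % 7 := by
  decide +kernel

lemma lg_mod (x : ℕ) : lg (x % 49) = lg x := by
  unfold lg
  rw [Nat.mod_mod]

lemma lg_mul {x y : ℕ} (hx : x % 7 ≠ 0) (hy : y % 7 ≠ 0) : (lg (x * y) : ZMod 7) = lg x + lg y := by
  have h := lg_aux (x % 49) (Finset.mem_range.2 (Nat.mod_lt _ (by norm_num))) (y % 49)
    (Finset.mem_range.2 (Nat.mod_lt _ (by norm_num))) (by omega) (by omega)
  rw [← lg_mod, Nat.mul_mod, lg_mod, h, lg_mod, lg_mod, ← Nat.cast_add, ZMod.natCast_mod]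

section log

variable {M : ℕ} (h49 : 49 ∣ M) (hM : 1 < M)

lemma unit_mod_seven (h49 : 49 ∣ M) (u : (ZMod M)ˣ) : (u : ZMod M).val % 7 ≠ 0 := by
  have h := ZMod.val_coe_unit_coprime u
  intro h0
  have h1 : 7 ∣ (u : ZMod M).val := Nat.dvd_of_mod_eq_zero h0
  have h2 : 7 ∣ M := (by norm_num : 7 ∣ 49).trans h49
  have h3 := Nat.dvd_gcd h1 h2
  rw [h] at h3
  norm_num at h3

/-- the homomorphism `(ℤ/M)ˣ → ℤ/7` -/
noncomputable def psi0 : (ZMod M)ˣ →* Multiplicative (ZMod 7) where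
  toFun u := Multiplicative.ofAdd ((lg (u : ZMod M).val : ℕ) : ZMod 7)
  map_one' := by
    rw [Units.val_one, ZMod.val_one'' hM.ne']
    rfl
  map_mul' u v := by
    rw [← ofAdd_add, ← lg_mul (unit_mod_seven h49 u) (unit_mod_seven h49 v), Units.val_mul,
      ZMod.val_mul, ← lg_mod, Nat.mod_mod_of_dvd _ h49, lg_mod]

lemma psi0_neg_one : psi0 h49 hM (-1) = 1 := by
  have h1 : psi0 h49 hM (-1) * psi0 h49 hM (-1) = 1 := by
    rw [← map_mul, neg_mul_neg, one_mul, map_one]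
  have h2 : ∀ x : Multiplicative (ZMod 7), x * x = 1 → x = 1 := by decide
  exact h2 _ h1

/-- the homomorphism `G_M → ℤ/7` -/
noncomputable def psi : GM M →* Multiplicative (ZMod 7) :=
  QuotientGroup.lift _ (psi0 h49 hM) (by
    rw [Subgroup.zpowers_le]
    exact psi0_neg_one h49 hM)

lemma psi_mk (u : (ZMod M)ˣ) : (psi h49 hM (QuotientGroup.mk u)).toAdd =
    ((lg (u : ZMod M).val : ℕ) : ZMod 7) := rfl

end log

/-! ### The ring `R` -/

lemma lamZ_of {M : ℕ} (hM : M ≠ 0) {a : (ZMod M)ˣ} {q : ℚ}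
    (h : (q : ℂ) = lam EE (a : ZMod M).val M) : ∃ n : ℤ, q = n := by
  rw [lamZ_spec s_tw s_om _ _ (by exact_mod_cast hM)] at h
  refine ⟨lamZ (a : ZMod M).val M, ?_⟩
  exact_mod_cast h

lemma R_norm {M : ℕ} (hM : M ≠ 0) : ∀ x ∈ RT EE M, ‖((x : ℚ) : ℚ_[7])‖ ≤ 1 := by
  have h1 : RT EE M ≤ (PadicInt.subring 7).comap (Rat.castHom ℚ_[7]) := by
    unfold RT
    rw [Subring.closure_le]
    rintro q (hq | ⟨a, ha⟩)
    · have hc : Nat.card (Pts EE) = 2 := s_pts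
      rw [Set.mem_singleton_iff, hc] at hq
      have h2 : ‖((2 : ℕ) : ℚ_[7])‖ = 1 := Padic.norm_natCast_eq_one_iff.2 (by norm_num)
      show ‖((q : ℚ) : ℚ_[7])‖ ≤ 1
      rw [hq]
      push_cast
      rw [norm_inv]
      push_cast at h2
      rw [h2, inv_one]
    · obtain ⟨n, hn⟩ := lamZ_of hM ha
      show ‖((q : ℚ) : ℚ_[7])‖ ≤ 1
      rw [hn]
      push_cast
      exact Padic.norm_int_le_one n
  exact fun x hx => h1 hx

/-- the inclusion of `R` into `ℤ_7` -/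
noncomputable def Rpad {M : ℕ} (hM : M ≠ 0) : RT EE M →+* ℤ_[7] where
  toFun x := ⟨((x : ℚ) : ℚ_[7]), R_norm hM x x.2⟩
  map_zero' := by
    apply Subtype.ext
    push_cast
    rfl
  map_one' := by
    apply Subtype.ext
    push_cast
    rfl
  map_add' x y := by
    apply Subtype.ext
    push_cast
    rfl
  map_mul' x y := by
    apply Subtype.ext
    push_cast
    rfl

/-- the reduction modulo `7` -/
noncomputable def rho {M : ℕ} (hM : M ≠ 0) : RT EE M →+* ZMod 7 := PadicInt.toZMod.comp (Rpad hM)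

lemma rho_int {M : ℕ} (hM : M ≠ 0) {x : RT EE M} {n : ℤ} (h : (x : ℚ) = n) :
    rho hM x = (n : ZMod 7) := by
  have h1 : Rpad hM x = (n : ℤ_[7]) := by
    apply Subtype.ext
    show ((x : ℚ) : ℚ_[7]) = _
    rw [h]
    push_cast
    rfl
  unfold rho
  rw [RingHom.comp_apply, h1, map_intCast]

/-! ### The main result -/

lemma coprime_iff {a b : ℕ} (ha : 1 ≤ a) (hb : 1 ≤ b) (x : ℕ) :
    Nat.Coprime x (2 ^ a * 7 ^ b) ↔ x % 2 = 1 ∧ x % 7 ≠ 0 := by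
  rw [Nat.coprime_mul_iff_right, Nat.coprime_pow_right_iff (by omega),
    Nat.coprime_pow_right_iff (by omega)]
  have h2 : Nat.Coprime x 2 ↔ x % 2 = 1 := by
    rw [Nat.coprime_comm, Nat.Prime.coprime_iff_not_dvd Nat.prime_two]
    omega
  have h7 : Nat.Coprime x 7 ↔ x % 7 ≠ 0 := by
    rw [Nat.coprime_comm, Nat.Prime.coprime_iff_not_dvd (by norm_num)]
    omega
  rw [h2, h7]

/-- the sum over the units -/
lemma sum_units {a b : ℕ} (ha : 1 ≤ a) (hb : 1 ≤ b) [NeZero (2 ^ a * 7 ^ b)] (F : ℕ → ZMod 7) :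
    ∑ u : (ZMod (2 ^ a * 7 ^ b))ˣ, F (u : ZMod (2 ^ a * 7 ^ b)).val =
      ∑ x ∈ good (2 ^ a * 7 ^ b), F x := by
  refine Finset.sum_nbij (fun u => (u : ZMod (2 ^ a * 7 ^ b)).val) ?_ ?_ ?_ ?_
  · intro u _
    unfold good
    rw [Finset.mem_filter, Finset.mem_range]
    exact ⟨ZMod.val_lt _, (coprime_iff ha hb _).1 (ZMod.val_coe_unit_coprime u)⟩
  · intro u _ v _ h
    exact Units.ext (ZMod.val_injective _ h)
  · intro x hx
    have hx' : x ∈ good (2 ^ a * 7 ^ b) := hx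
    unfold good at hx'
    rw [Finset.mem_filter, Finset.mem_range] at hx'
    refine ⟨ZMod.unitOfCoprime x ((coprime_iff ha hb x).2 hx'.2), Finset.mem_coe.2 (Finset.mem_univ _), ?_⟩
    dsimp only
    rw [ZMod.coe_unitOfCoprime, ZMod.val_natCast, Nat.mod_eq_of_lt hx'.1]
  · intro u _
    rfl

/-- sums over a quotient group -/
lemma sum_quot {G : Type} [CommGroup G] [Fintype G] (H : Subgroup G) [Fintype (G ⧸ H)]
    (F : G ⧸ H → ZMod 7) (h : ∑ g : G ⧸ H, F g = 0) : ∑ u : G, F (QuotientGroup.mk u) = 0 := by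
  classical
  have : Fintype H := Fintype.ofFinite H
  rw [Fintype.sum_equiv (Subgroup.groupEquivQuotientProdSubgroup (s := H))
    (fun u => F (QuotientGroup.mk u)) (fun x => F x.1) (fun u => rfl),
    Fintype.sum_prod_type]
  simp only [Finset.sum_const]
  rw [← Finset.smul_sum, h, smul_zero]

/-- **the class of `θ_M` is not a multiple of the product** -/
theorem theta_not {a b : ℕ} (ha : 1 ≤ a) (hb : 2 ≤ b)
    (θ : MonoidAlgebra (RT EE (2 ^ a * 7 ^ b)) (GM (2 ^ a * 7 ^ b)))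
    (hθ : IsTheta EE (2 ^ a * 7 ^ b) θ) (S : Finset ℕ) (v : ℕ → (ZMod (2 ^ a * 7 ^ b))ˣ)
    (h2 : 2 ∈ S) (hv : IsQt EE 2 a (2 ^ a * 7 ^ b) (v 2)) (c : RT EE (2 ^ a * 7 ^ b)) :
    θ - c • ∏ p ∈ S, br (RT EE (2 ^ a * 7 ^ b)) (v p) ∉
      aug (RT EE (2 ^ a * 7 ^ b)) (GM (2 ^ a * 7 ^ b)) ^ 3 := by
  intro hmem
  have h49 : 49 ∣ 7 ^ b := by
    obtain ⟨k, rfl⟩ : ∃ k, b = k + 2 := ⟨b - 2, by omega⟩
    exact ⟨7 ^ k, by ring⟩
  have h49' : 49 ∣ 2 ^ a * 7 ^ b := h49.mul_left _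
  have hM0 : 0 < 2 ^ a * 7 ^ b := by positivity
  have hM1 : 1 < 2 ^ a * 7 ^ b := lt_of_lt_of_le (by norm_num) (Nat.le_of_dvd hM0 h49')
  have : NeZero (2 ^ a * 7 ^ b) := ⟨hM0.ne'⟩
  have : Fintype (GM (2 ^ a * 7 ^ b)) := Fintype.ofFinite _
  -- the logarithm of `v 2`
  have hv2 : (psi h49' hM1 (QuotientGroup.mk (v 2))).toAdd = 0 := by
    rw [psi_mk]
    obtain ⟨u, n, -, -, -, h1⟩ := hv
    rw [Nat.mul_div_cancel_left _ (by positivity : 0 < 2 ^ a)] at h1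
    have h3 : (((v 2 : ZMod (2 ^ a * 7 ^ b)).val : ℕ) : ZMod (7 ^ b)) = ((1 : ℕ) : ZMod (7 ^ b)) := by
      rw [h1, Nat.cast_one]
    rw [ZMod.natCast_eq_natCast_iff] at h3
    have h4 : (v 2 : ZMod (2 ^ a * 7 ^ b)).val % 49 = 1 % 49 := h3.of_dvd h49
    rw [← lg_mod, h4]
    rfl
  have h1 := Alg.main (rho hM0.ne') (psi h49' hM1) (θ := θ) S
    (fun p => (QuotientGroup.mk (v p) : GM (2 ^ a * 7 ^ b))) c hmem 2 h2 hv2
  -- the sum over the units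
  have h3 := sum_quot _ (fun g : GM (2 ^ a * 7 ^ b) => rho hM0.ne' (θ.coeff g) *
    (psi h49' hM1 g).toAdd ^ 2) h1
  have h4 : ∀ u : (ZMod (2 ^ a * 7 ^ b))ˣ, rho hM0.ne' (θ.coeff (QuotientGroup.mk u)) *
      (psi h49' hM1 (QuotientGroup.mk u)).toAdd ^ 2 =
      (fun x : ℕ => (((lg x : ℤ) ^ 2 * lamZ x ((2 ^ a * 7 ^ b : ℕ) : ℤ) : ℤ) : ZMod 7))
        (u : ZMod (2 ^ a * 7 ^ b)).val := by
    intro u
    have h5 := hθ u
    rw [lamZ_spec s_tw s_om _ _ (by exact_mod_cast hM0.ne')] at h5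
    have h6 : ((θ.coeff (QuotientGroup.mk u) : RT EE (2 ^ a * 7 ^ b)) : ℚ) =
        (lamZ ((u : ZMod (2 ^ a * 7 ^ b)).val : ℤ) ((2 ^ a * 7 ^ b : ℕ) : ℤ) : ℤ) := by
      exact_mod_cast h5
    rw [rho_int hM0.ne' h6, psi_mk]
    push_cast
    ring
  rw [Finset.sum_congr rfl (fun u _ => h4 u)] at h3
  have h5 := sum_units (a := a) (b := b) ha (by omega)
    (fun x : ℕ => (((lg x : ℤ) ^ 2 * lamZ x ((2 ^ a * 7 ^ b : ℕ) : ℤ) : ℤ) : ZMod 7))
  have h6 : ∑ x ∈ good (2 ^ a * 7 ^ b),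
      (((lg x : ℤ) ^ 2 * lamZ x ((2 ^ a * 7 ^ b : ℕ) : ℤ) : ℤ) : ZMod 7) = 0 := by
    rw [← h5]
    convert h3
  rw [← Int.cast_sum] at h6
  exact mom_ne s_tw s_om ha hb h6

/-! ### Existence -/

lemma lam_neg (a M : ℤ) : lam EE (-a) M = lam EE a M := by
  unfold lam
  have h : ((-a : ℤ) : ℚ) / (M : ℚ) = -((a : ℚ) / (M : ℚ)) := by
    push_cast
    ring
  rw [h, neg_neg, add_comm]

lemma lam_add (a M : ℤ) (hM : M ≠ 0) : lam EE (a + M) M = lam EE a M := by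
  have hM' : (M : ℚ) ≠ 0 := by exact_mod_cast hM
  have h : ((a + M : ℤ) : ℚ) / (M : ℚ) = ((a : ℚ) / (M : ℚ)) + 1 := by
    push_cast
    field_simp
  rw [lam_eq s_tw, lam_eq s_tw, h]
  have h1 : SS ((a : ℚ) / (M : ℚ) + 1) = SS ((a : ℚ) / (M : ℚ)) := by
    unfold SS
    refine Finset.sum_congr rfl fun u _ => ?_
    rw [← II_add_one ((a : ℚ) / (M : ℚ) + u / 19)]
    congr 2
    ring
  rw [h1]

lemma lam_neg_unit {M : ℕ} [NeZero M] (u : (ZMod M)ˣ) :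
    lam EE ((-u : (ZMod M)ˣ) : ZMod M).val M = lam EE (u : ZMod M).val M := by
  have hM : (M : ℤ) ≠ 0 := by exact_mod_cast NeZero.ne M
  rw [Units.val_neg]
  by_cases h0 : (u : ZMod M) = 0
  · rw [h0, neg_zero]
  · have : NeZero (u : ZMod M) := ⟨h0⟩
    rw [ZMod.val_neg_of_ne_zero, Nat.cast_sub (ZMod.val_lt _).le]
    have h1 := lam_add (-((u : ZMod M).val : ℤ)) M hM
    rw [lam_neg] at h1
    rw [← h1]
    congr 1
    ring

lemma lam_mk {M : ℕ} [NeZero M] {u w : (ZMod M)ˣ}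
    (h : (QuotientGroup.mk u : GM M) = QuotientGroup.mk w) :
    lam EE (u : ZMod M).val M = lam EE (w : ZMod M).val M := by
  obtain ⟨k, hk⟩ := Subgroup.mem_zpowers_iff.1 (QuotientGroup.eq.1 h)
  have h1 : w = u * (-1) ^ k := by rw [hk, mul_inv_cancel_left]
  rcases Int.even_or_odd k with he | ho
  · rw [h1, he.neg_one_zpow, mul_one]
  · rw [h1, ho.neg_one_zpow, mul_neg, mul_one, lam_neg_unit]

theorem exists_theta {M : ℕ} [NeZero M] : ∃ θ : MonoidAlgebra (RT EE M) (GM M), IsTheta EE M θ := by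
  classical
  have hM : (M : ℤ) ≠ 0 := by exact_mod_cast NeZero.ne M
  have : Fintype (GM M) := Fintype.ofFinite _
  have hmem : ∀ a : (ZMod M)ˣ, ((lamZ (a : ZMod M).val M : ℤ) : ℚ) ∈ RT EE M := fun a =>
    Subring.subset_closure (Or.inr ⟨a, by
      rw [lamZ_spec s_tw s_om _ _ hM]
      push_cast
      rfl⟩)
  refine ⟨MonoidAlgebra.ofCoeff (Finsupp.equivFunOnFinite.symm fun g : GM M =>
    ⟨((lamZ ((Quotient.out g : (ZMod M)ˣ) : ZMod M).val M : ℤ) : ℚ), hmem _⟩), ?_⟩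
  intro a
  change ((((lamZ ((Quotient.out (QuotientGroup.mk a : GM M) : (ZMod M)ˣ) : ZMod M).val M : ℤ) : ℚ)) :
    ℂ) = _
  have h1 : (QuotientGroup.mk (Quotient.out (QuotientGroup.mk a : GM M)) : GM M) =
      QuotientGroup.mk a := Quotient.out_eq _
  rw [← lam_mk h1, lamZ_spec s_tw s_om _ _ hM]
  push_cast
  rfl

lemma exists_v {m n M : ℕ} (hMmn : M = m * n) [NeZero M] (hmn : m.Coprime n) (w : (ZMod m)ˣ) :
    ∃ v : (ZMod M)ˣ, (((v : ZMod M).val : ℕ) : ZMod m) = w ∧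
      (((v : ZMod M).val : ℕ) : ZMod n) = 1 := by
  subst hMmn
  have key : ∀ z : ZMod (m * n), ZMod.chineseRemainder hmn z = ((z.val : ZMod m), (z.val : ZMod n)) := by
    intro z
    conv_lhs => rw [← ZMod.natCast_zmod_val z, map_natCast]
    rfl
  have hu : IsUnit ((ZMod.chineseRemainder hmn).symm ((w : ZMod m), (1 : ZMod n))) := by
    refine IsUnit.map (ZMod.chineseRemainder hmn).symm ?_
    rw [Prod.isUnit_iff]
    exact ⟨w.isUnit, isUnit_one⟩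
  have h1 := key (hu.unit : ZMod (m * n))
  rw [IsUnit.unit_spec, RingEquiv.apply_symm_apply] at h1
  refine ⟨hu.unit, ?_, ?_⟩
  · exact (congrArg Prod.fst h1).symm
  · exact (congrArg Prod.snd h1).symm

theorem exists_v2 (a b : ℕ) : ∃ v : (ZMod (2 ^ a * 7 ^ b))ˣ, IsQt EE 2 a (2 ^ a * 7 ^ b) v := by
  have : NeZero (2 ^ a * 7 ^ b) := ⟨by positivity⟩
  obtain ⟨u, hu⟩ := s_tate.1
  have hcop : Nat.Coprime (2 ^ a) (7 ^ b) := Nat.Coprime.pow _ _ (by norm_num)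
  obtain ⟨v, h1, h2⟩ := exists_v rfl hcop (Units.map (PadicInt.toZModPow a).toMonoidHom u)
  refine ⟨v, u, 6, by norm_num, hu, h1, ?_⟩
  rw [Nat.mul_div_cancel_left _ (by positivity : 0 < 2 ^ a)]
  exact h2

theorem exists_v7 (a b : ℕ) : ∃ v : (ZMod (2 ^ a * 7 ^ b))ˣ, IsQt EE 7 b (2 ^ a * 7 ^ b) v := by
  have : NeZero (2 ^ a * 7 ^ b) := ⟨by positivity⟩
  obtain ⟨u, hu⟩ := s_tate.2
  have hcop : Nat.Coprime (7 ^ b) (2 ^ a) := Nat.Coprime.pow _ _ (by norm_num)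
  obtain ⟨v, h1, h2⟩ := exists_v (mul_comm _ _) hcop
    (Units.map (PadicInt.toZModPow b).toMonoidHom u)
  refine ⟨v, u, 3, by norm_num, hu, h1, ?_⟩
  rw [Nat.mul_div_cancel _ (by positivity : 0 < 7 ^ b)]
  exact h2

end Pool.Agent.R435
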