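import Pool.Agent.R435.Stm

set_option autoImplicit false

/-!
# The twist by the quadratic character modulo `19`

This follows `Pool.Agent.W839.V20.GAUSS` (the case of the modulus `13`).
-/

namespace Pool.Agent.R435.Gauss

open Pool.Agent.R435

instance fact19 : Fact (Nat.Prime 19) := ⟨by norm_num⟩

/-- the quadratic character modulo `19` -/
noncomputable def chi : MulChar (ZMod 19) ℂ :=
  (quadraticChar (ZMod 19)).ringHomComp (Int.castRingHom ℂ)

/-- its Gauss sum -/
noncomputable def g : ℂ := gaussSum chi (ZMod.stdAddChar (N := 19))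

theorem chi_nat (n : ℕ) : chi (n : ZMod 19) = ((jacobiSym n 19 : ℤ) : ℂ) := by
  have h := jacobiSym.legendreSym.to_jacobiSym 19 (n : ℤ)
  rw [← h]
  unfold legendreSym chi
  simp

theorem chi_quad : chi.IsQuadratic := (quadraticChar_isQuadratic (ZMod 19)).comp _

theorem chi_ne : chi ≠ 1 := by
  intro h
  have h1 : chi (2 : ZMod 19) = 1 := by
    rw [h]
    exact MulChar.one_apply (by decide)
  have h2 := chi_nat 2
  have h3 : jacobiSym 2 19 = -1 := by decide +kernel
  have h4 : chi (2 : ZMod 19) = ((jacobiSym 2 19 : ℤ) : ℂ) := by exact_mod_cast h2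
  rw [h4, h3] at h1
  norm_num at h1

theorem chi_neg_one : chi (-1) = -1 := by
  have h2 := chi_nat 18
  have h3 : jacobiSym 18 19 = -1 := by decide +kernel
  have h4 : ((18 : ℕ) : ZMod 19) = -1 := by decide
  rw [h4] at h2
  rw [h2]
  exact_mod_cast h3

theorem g_sq : g ^ 2 = -19 := by
  have h := gaussSum_sq chi_ne chi_quad (ZMod.isPrimitive_stdAddChar 19)
  rw [chi_neg_one, ZMod.card] at h
  simpa [g] using h

theorem sum_zmod (F : ZMod 19 → ℂ) : ∑ a : ZMod 19, F a = ∑ u ∈ Finset.range 19, F (u : ZMod 19) := by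
  rw [Finset.sum_range]
  refine Finset.sum_congr rfl fun i _ => ?_
  congr 1
  exact (ZMod.natCast_zmod_val i).symm

theorem sum_chi (n : ℕ) :
    ∑ u ∈ Finset.range 19, ((jacobiSym u 19 : ℤ) : ℂ) *
      Complex.exp (2 * Real.pi * Complex.I * n * (u / 19)) = ((jacobiSym n 19 : ℤ) : ℂ) * g := by
  have hL : ∑ u ∈ Finset.range 19, ((jacobiSym u 19 : ℤ) : ℂ) *
      Complex.exp (2 * Real.pi * Complex.I * n * (u / 19)) =
      gaussSum chi (AddChar.mulShift (ZMod.stdAddChar (N := 19)) (n : ZMod 19)) := by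
    unfold gaussSum
    rw [sum_zmod]
    refine Finset.sum_congr rfl fun u _ => ?_
    rw [chi_nat, AddChar.mulShift_apply]
    congr 1
    have h2 : (n : ZMod 19) * (u : ZMod 19) = ((n * u : ℤ) : ZMod 19) := by
      push_cast
      rfl
    rw [h2, ZMod.stdAddChar_coe]
    congr 1
    push_cast
    ring
  rw [hL, ← chi_nat]
  by_cases hn : (n : ZMod 19) = 0
  · rw [hn, AddChar.mulShift_zero]
    unfold gaussSum
    simp only [AddChar.one_apply, mul_one]
    rw [MulChar.sum_eq_zero_of_ne_one chi_ne, MulChar.map_zero, zero_mul]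
  · have hu : IsUnit (n : ZMod 19) := isUnit_iff_ne_zero.2 hn
    obtain ⟨a, ha⟩ := hu
    rw [← ha, gaussSum_mulShift_eq, chi_quad.inv]
    rfl

theorem s_gauss : S_GAUSS := by
  have hg : g ^ 2 = (((Real.sqrt 19 : ℝ) : ℂ) * Complex.I) ^ 2 := by
    rw [g_sq, mul_pow, ← Complex.ofReal_pow, Real.sq_sqrt (by norm_num), Complex.I_sq]
    norm_num
  obtain ⟨τ, hτ, hgτ⟩ : ∃ τ : ℝ, τ ^ 2 = 19 ∧ g = (τ : ℂ) * Complex.I := by
    rcases sq_eq_sq_iff_eq_or_eq_neg.1 hg with h | h
    · exact ⟨Real.sqrt 19, Real.sq_sqrt (by norm_num), h⟩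
    · refine ⟨-Real.sqrt 19, ?_, ?_⟩
      · rw [neg_sq]
        exact Real.sq_sqrt (by norm_num)
      · rw [h]
        push_cast
        ring
  have hτ0 : (τ : ℂ) * Complex.I ≠ 0 := by
    intro h
    have h0 : (τ : ℂ) = 0 := by
      rcases mul_eq_zero.1 h with h | h
      · exact h
      · exact absurd h Complex.I_ne_zero
    have : τ = 0 := by exact_mod_cast h0
    rw [this] at hτ
    norm_num at hτ
  refine ⟨τ, hτ, fun A f hf z hz => ?_⟩
  have h1 : HasSum (fun n : ℕ => ∑ u ∈ Finset.range 19, ((jacobiSym u 19 : ℤ) : ℂ) *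
      ((A n : ℂ) * Complex.exp (2 * Real.pi * Complex.I * n * (z + u / 19))))
      (∑ u ∈ Finset.range 19, ((jacobiSym u 19 : ℤ) : ℂ) * f (z + u / 19)) := by
    refine hasSum_sum fun u _ => ?_
    refine (hf (z + u / 19) ?_).mul_left _
    have h13 : ((u : ℂ) / 19).im = 0 := by
      have : ((u : ℂ) / 19) = (((u : ℝ) / 19 : ℝ) : ℂ) := by push_cast; rfl
      rw [this, Complex.ofReal_im]
    rw [Complex.add_im, h13, add_zero]
    exact hz
  have h2 := h1.div_const ((τ : ℂ) * Complex.I)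
  suffices hfun : (fun n : ℕ => ((jacobiSym n 19 * A n : ℤ) : ℂ) *
      Complex.exp (2 * Real.pi * Complex.I * n * z)) =
      fun n : ℕ => (∑ u ∈ Finset.range 19, ((jacobiSym u 19 : ℤ) : ℂ) *
      ((A n : ℂ) * Complex.exp (2 * Real.pi * Complex.I * n * (z + u / 19)))) /
        ((τ : ℂ) * Complex.I) by
    rw [hfun]
    exact h2
  funext n
  have h3 : ∑ u ∈ Finset.range 19, ((jacobiSym u 19 : ℤ) : ℂ) *
      ((A n : ℂ) * Complex.exp (2 * Real.pi * Complex.I * n * (z + u / 19))) =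
      (A n : ℂ) * Complex.exp (2 * Real.pi * Complex.I * n * z) *
        (((jacobiSym n 19 : ℤ) : ℂ) * (τ * Complex.I)) := by
    rw [← hgτ, ← sum_chi n, Finset.mul_sum]
    refine Finset.sum_congr rfl fun u _ => ?_
    rw [mul_add, Complex.exp_add]
    ring
  rw [h3, Int.cast_mul, ← mul_assoc, ← mul_assoc, mul_assoc _ (τ : ℂ), mul_div_assoc,
    div_self hτ0, mul_one]
  ring

end Pool.Agent.R435.Gauss
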