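import Pool.Agent.W97.MT.Asm

/-!
# The integrals of the form of level 14 between rational points

`II r` is `2π ∫_0^∞ f(r + it) dt`. We show that `II (γ r) = II r + p(γ)` for `γ ∈ Γ_0(14)`.
-/

set_option autoImplicit false

open Filter Topology MeasureTheory Set

namespace Pool.Agent.R435

open Pool.Agent.W97.MT

/-- the horoballs at `r` -/
noncomputable def Hor (r : ℝ) : Filter ℂ := comap (fun z : ℂ => z.im / ‖z - r‖ ^ 2) atTop ⊓ 𝓟 {z : ℂ | 0 < z.im}

/-- the map `z ↦ r - 1 / (K (z - x))` -/
noncomputable def nn (r K x : ℝ) (z : ℂ) : ℂ := r - 1 / (K * (z - x))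

lemma sub_ne {z : ℂ} (hz : 0 < z.im) (x : ℝ) : z - x ≠ 0 := by
  intro h
  have := congrArg Complex.im h
  simp at this
  exact hz.ne' this

lemma nn_im {r K x : ℝ} {z : ℂ} (hK : 0 < K) (hz : 0 < z.im) :
    (nn r K x z).im = z.im / (K * ‖z - x‖ ^ 2) := by
  unfold nn
  have h1 := sub_ne hz x
  rw [Complex.sub_im, Complex.ofReal_im, zero_sub, one_div, Complex.inv_im, Complex.normSq_eq_norm_sq,
    norm_mul, Complex.norm_real, Real.norm_of_nonneg hK.le]
  simp only [Complex.mul_im, Complex.ofReal_re, Complex.ofReal_im, Complex.sub_im, Complex.sub_re]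
  have h2 : ‖z - x‖ ≠ 0 := norm_ne_zero_iff.2 h1
  field_simp
  ring

lemma nn_pos {r K x : ℝ} {z : ℂ} (hK : 0 < K) (hz : 0 < z.im) : 0 < (nn r K x z).im := by
  rw [nn_im hK hz]
  have : 0 < ‖z - x‖ := norm_pos_iff.2 (sub_ne hz x)
  positivity

lemma nn_nn {r K x : ℝ} {z : ℂ} (hK : 0 < K) (hz : 0 < z.im) : nn r K x (nn x K r z) = z := by
  unfold nn
  have h1 := sub_ne hz r
  have hK' : (K : ℂ) ≠ 0 := by exact_mod_cast hK.ne'
  have e : (x : ℂ) - 1 / (K * (z - r)) - x = -1 / (K * (z - r)) := by ring
  rw [e]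
  field_simp
  ring

lemma nn_diff {r K x : ℝ} {z : ℂ} (hK : 0 < K) (hz : 0 < z.im) :
    DifferentiableAt ℂ (nn r K x) z := by
  have h1 := sub_ne hz x
  have hK' : (K : ℂ) ≠ 0 := by exact_mod_cast hK.ne'
  unfold nn
  have h2 : (K : ℂ) * (z - x) ≠ 0 := mul_ne_zero hK' h1
  fun_prop (disch := exact h2)

lemma isPre : IsPreconnected {z : ℂ | 0 < z.im} := (convex_halfSpace_im_gt 0).isPreconnected

/-- every rational number is seen through a map `nn` -/
theorem exists_nn (hint : ∀ r : ℚ, IntegrableOn (fun t : ℝ => ff ((r : ℂ) + t * Complex.I)) (Ioi 0))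
    (r : ℚ) : ∃ ε : ℂ, ∃ K x : ℝ, 0 < K ∧
    ∀ z : ℂ, 0 < z.im → F (nn r K x z) = ε * F z + II r := by
  have key : ∀ {m j : ℂ → ℂ} (_ : IsMap m j), Hit (r : ℂ) m → ∃ ε : ℂ, ∃ K x : ℝ, 0 < K ∧
      ∀ z : ℂ, 0 < z.im → F (nn r K x z) = ε * F z + II r := by
    intro m j h hit
    obtain ⟨ε, C0, -, -, hC⟩ := h.const
    obtain ⟨a, b, c, d, hdet, K, x, hK, he⟩ := hit
    obtain ⟨p, hp⟩ := F_gamma hcp hqe hdet
    set C : ℂ := C0 + p with hCdef
    -- on the vertical line
    have h1 : ∀ s : ℝ, 0 < s → F (nn r K x (x + s * Complex.I)) = ε * F (x + s * Complex.I) + C := by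
      intro s hs
      have him : 0 < ((x : ℂ) + s * Complex.I).im := by simpa using hs
      have h2 := he s hs
      have h3 : nn r K x (x + s * Complex.I) = (r : ℂ) + ((K * s)⁻¹ : ℝ) * Complex.I := by
        unfold nn
        have hs' : (s : ℂ) ≠ 0 := by exact_mod_cast hs.ne'
        have hK' : (K : ℂ) ≠ 0 := by exact_mod_cast hK.ne'
        have hI := Complex.I_ne_zero
        push_cast
        field_simp
        linear_combination (-(s : ℂ)) * Complex.I_sq
      rw [h3, ← h2, hp _ (h.pos _ him), hC _ him]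
      ring
    -- everywhere
    have h2 : ∀ z : ℂ, 0 < z.im → F (nn r K x z) = ε * F z + C := by
      have a1 : AnalyticOnNhd ℂ (fun z => F (nn r K x z)) {z : ℂ | 0 < z.im} := by
        refine DifferentiableOn.analyticOnNhd (fun z hz => ?_) H_open
        exact ((F_diff (nn_pos hK hz)).comp z (nn_diff hK hz)).differentiableWithinAt
      have a2 : AnalyticOnNhd ℂ (fun z => ε * F z + C) {z : ℂ | 0 < z.im} := by
        refine DifferentiableOn.analyticOnNhd (fun z hz => ?_) H_open
        exact (((F_diff hz).const_mul ε).add_const C).differentiableWithinAt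
      have hz0 : ((x : ℂ) + (1 : ℝ) * Complex.I) ∈ {z : ℂ | 0 < z.im} := by simp
      have hfr : ∃ᶠ z in 𝓝[≠] ((x : ℂ) + (1 : ℝ) * Complex.I),
          F (nn r K x z) = ε * F z + C := by
        have hd : HasDerivAt (fun t : ℝ => (x : ℂ) + (t : ℂ) * Complex.I) Complex.I 1 := by
          have := ((Complex.ofRealCLM.hasDerivAt (x := (1 : ℝ))).mul_const Complex.I).const_add (x : ℂ)
          simpa using this
        have h3 := hd.tendsto_nhdsNE Complex.I_ne_zero
        refine h3.frequently (Eventually.frequently ?_)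
        have : ∀ᶠ t : ℝ in 𝓝[≠] 1, 0 < t :=
          eventually_nhdsWithin_of_eventually_nhds (isOpen_Ioi.mem_nhds (by norm_num : (0:ℝ) < 1))
        exact this.mono fun t ht => h1 t ht
      intro z hz
      exact a1.eqOn_of_preconnected_of_frequently_eq a2 isPre hz0 hfr hz
    -- the value
    have h3 : II r = C := by
      unfold II
      refine integral_line _ (by simp) (hint r) ?_
      have ht : Tendsto (fun t : ℝ => (x : ℂ) + ((K * t)⁻¹ : ℝ) * Complex.I) (𝓝[>] 0) iI := by
        unfold iI
        rw [tendsto_comap_iff]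
        have e : Complex.im ∘ (fun t : ℝ => (x : ℂ) + ((K * t)⁻¹ : ℝ) * Complex.I) =
            fun t : ℝ => K⁻¹ * t⁻¹ := by
          ext t; simp [mul_comm]
        rw [e]
        exact tendsto_inv_nhdsGT_zero.const_mul_atTop (inv_pos.2 hK)
      have h4 := ((F_QV.tendsto.comp ht).const_mul ε).add_const C
      rw [mul_zero, zero_add] at h4
      refine h4.congr' ?_
      filter_upwards [self_mem_nhdsWithin] with t ht
      have ht0 : (0 : ℝ) < t := ht
      have hs0 : 0 < (K * t)⁻¹ := by positivity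
      have h5 := h2 ((x : ℂ) + ((K * t)⁻¹ : ℝ) * Complex.I) (by simpa using hs0)
      have h6 : nn r K x (x + ((K * t)⁻¹ : ℝ) * Complex.I) = (r : ℂ) + t * Complex.I := by
        unfold nn
        have hs' : (t : ℂ) ≠ 0 := by exact_mod_cast ht0.ne'
        have hK' : (K : ℂ) ≠ 0 := by exact_mod_cast hK.ne'
        have hI := Complex.I_ne_zero
        push_cast
        field_simp
        linear_combination (-(t : ℂ)) * Complex.I_sq
      rw [h6] at h5
      exact h5.symm
    exact ⟨ε, K, x, hK, fun z hz => by rw [h2 z hz, h3]⟩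
  rcases exists_hit r with h | h | h | h
  · exact key (isCusp14 hcp hqe).map h
  · exact key (isCusp7 hcp hqe).map h
  · exact key cusp2.map h
  · exact key idMap h

/-- the limit of `F` in the horoballs -/
theorem tendsto_Hor
    (hint : ∀ r : ℚ, IntegrableOn (fun t : ℝ => ff ((r : ℂ) + t * Complex.I)) (Ioi 0)) (r : ℚ) :
    Tendsto F (Hor r) (𝓝 (II r)) := by
  obtain ⟨ε, K, x, hK, h⟩ := exists_nn hint r
  have hw : Tendsto (nn x K r) (Hor r) iI := by
    unfold iI
    rw [tendsto_comap_iff]
    have h1 : Tendsto (fun z : ℂ => K⁻¹ * (z.im / ‖z - (r : ℝ)‖ ^ 2)) (Hor r) atTop :=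
      (tendsto_comap.mono_left inf_le_left).const_mul_atTop (inv_pos.2 hK)
    refine h1.congr' ?_
    have h2 : ∀ᶠ z in Hor r, 0 < z.im :=
      Filter.Eventually.filter_mono inf_le_right (mem_principal_self _)
    filter_upwards [h2] with z hz
    rw [Function.comp_apply, nn_im hK hz]
    field_simp
  have h1 := ((F_QV.tendsto.comp hw).const_mul ε).add_const (II r)
  rw [mul_zero, zero_add] at h1
  refine h1.congr' ?_
  have h2 : ∀ᶠ z in Hor r, 0 < z.im :=
    Filter.Eventually.filter_mono inf_le_right (mem_principal_self _)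
  filter_upwards [h2] with z hz
  have h3 := h (nn x K r z) (nn_pos hK hz)
  have e : nn (r : ℝ) K x (nn x K r z) = z := nn_nn hK hz
  rw [e] at h3
  exact h3.symm

lemma line_tendsto
    (hint : ∀ r : ℚ, IntegrableOn (fun t : ℝ => ff ((r : ℂ) + t * Complex.I)) (Ioi 0)) (r : ℚ) : Tendsto (fun s : ℝ => F ((r : ℂ) + s * Complex.I)) (𝓝[>] 0)
    (𝓝 (II r)) := by
  refine (tendsto_Hor hint r).comp ?_
  unfold Hor
  rw [tendsto_inf]
  constructor
  · rw [tendsto_comap_iff]
    refine tendsto_inv_nhdsGT_zero.congr' ?_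
    filter_upwards [self_mem_nhdsWithin] with s hs
    have hs0 : (0 : ℝ) < s := hs
    rw [Function.comp_apply]
    have e1 : ((r : ℂ) + s * Complex.I - ((r : ℝ) : ℂ)) = s * Complex.I := by push_cast; ring
    have e2 : ((r : ℂ) + s * Complex.I).im = s := by simp
    rw [e1, e2, norm_mul, Complex.norm_real, Complex.norm_I, mul_one, Real.norm_of_nonneg hs0.le]
    field_simp
  · rw [tendsto_principal]
    filter_upwards [self_mem_nhdsWithin] with s hs
    have hs0 : (0 : ℝ) < s := hs
    simpa using hs0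

/-- the imaginary part of `γ z` -/
lemma im_gam {a b c d : ℤ} (hdet : a * d - b * (14 * c) = 1) (z : ℂ) :
    ((a * z + b) / (14 * c * z + d)).im = z.im / ‖14 * (c : ℂ) * z + d‖ ^ 2 := by
  have h4 : ((a * z + b) / (14 * c * z + d)).im =
      ((a * z + b) * (starRingEnd ℂ) (14 * c * z + d)).im / ‖14 * (c : ℂ) * z + d‖ ^ 2 := by
    rw [div_eq_mul_inv, Complex.inv_def, Complex.normSq_eq_norm_sq, ← mul_assoc,
      Complex.im_mul_ofReal, div_eq_mul_inv]
  rw [h4]
  congr 1
  have hdr : (a : ℝ) * d - b * (14 * c) = 1 := by exact_mod_cast hdet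
  simp only [Complex.mul_im, Complex.add_re, Complex.add_im, Complex.mul_re,
    Complex.conj_re, Complex.conj_im, Complex.intCast_re, Complex.intCast_im,
    Complex.re_ofNat, Complex.im_ofNat]
  linear_combination (z.im) * hdr

section gamma

variable (hint : ∀ r : ℚ, IntegrableOn (fun t : ℝ => ff ((r : ℂ) + t * Complex.I)) (Ioi 0))
  {a b c d : ℤ} (hdet : a * d - b * (14 * c) = 1) {p : ℂ}
  (hp : ∀ z : ℂ, 0 < z.im → F ((a * z + b) / (14 * c * z + d)) = F z + p)
include hint hdet hp

theorem II_gamma (r : ℚ) (hr : 14 * (c : ℚ) * r + d ≠ 0) :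
    II ((a * r + b) / (14 * c * r + d)) = II r + p := by
  have h1 := (line_tendsto hint r).add_const p
  set r' : ℚ := (a * r + b) / (14 * c * r + d) with hr'
  have h2 : Tendsto (fun s : ℝ => F ((a * ((r : ℂ) + s * Complex.I) + b) /
      (14 * c * ((r : ℂ) + s * Complex.I) + d))) (𝓝[>] 0) (𝓝 (II r')) := by
    refine (tendsto_Hor hint r').comp ?_
    unfold Hor
    rw [tendsto_inf]
    constructor
    · rw [tendsto_comap_iff]
      have hpos : 0 < (14 * (c : ℝ) * r + d) ^ 2 := by
        have : (14 * (c : ℝ) * r + d) ≠ 0 := by exact_mod_cast hr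
        positivity
      refine (tendsto_inv_nhdsGT_zero.const_mul_atTop hpos).congr' ?_
      filter_upwards [self_mem_nhdsWithin] with s hs
      have hs0 : (0 : ℝ) < s := hs
      rw [Function.comp_apply]
      set z : ℂ := (r : ℂ) + s * Complex.I with hz
      have him : z.im = s := by simp [hz]
      have hzpos : 0 < z.im := by rw [him]; exact hs0
      have hden : (14 * (c : ℂ) * z + d) ≠ 0 := (G_gamma hdet hzpos).2.1
      have hC : (14 * (c : ℂ) * r + d) ≠ 0 := by exact_mod_cast hr
      have hdet' : (a : ℂ) * d - b * (14 * c) = 1 := by exact_mod_cast hdet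
      have e1 : (a * z + b) / (14 * c * z + d) - ((r' : ℝ) : ℂ) =
          (s * Complex.I) / ((14 * c * z + d) * (14 * (c : ℂ) * r + d)) := by
        have : ((r' : ℝ) : ℂ) = (a * (r : ℂ) + b) / (14 * c * r + d) := by
          rw [hr']; push_cast; rfl
        rw [this, div_sub_div _ _ hden hC]
        congr 1
        rw [hz]
        linear_combination (s * Complex.I) * hdet'
      have e2 := im_gam hdet z
      rw [him] at e2
      rw [e1, e2, norm_div, norm_mul, norm_mul, Complex.norm_real, Complex.norm_I, mul_one,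
        Real.norm_of_nonneg hs0.le]
      have e3 : ‖14 * (c : ℂ) * r + d‖ ^ 2 = (14 * (c : ℝ) * r + d) ^ 2 := by
        have : (14 * (c : ℂ) * r + d) = ((14 * (c : ℝ) * r + d : ℝ) : ℂ) := by push_cast; rfl
        rw [this, Complex.norm_real, Real.norm_eq_abs, sq_abs]
      have h5 : ‖14 * (c : ℂ) * z + d‖ ≠ 0 := norm_ne_zero_iff.2 hden
      have h6 : ‖14 * (c : ℂ) * r + d‖ ≠ 0 := norm_ne_zero_iff.2 hC
      rw [← e3]
      field_simp
    · rw [tendsto_principal]
      filter_upwards [self_mem_nhdsWithin] with s hs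
      have hs0 : (0 : ℝ) < s := hs
      exact (G_gamma hdet (by simpa using hs0 : 0 < ((r : ℂ) + s * Complex.I).im)).1
  have h3 : Tendsto (fun s : ℝ => F ((r : ℂ) + s * Complex.I) + p) (𝓝[>] 0) (𝓝 (II r')) := by
    refine h2.congr' ?_
    filter_upwards [self_mem_nhdsWithin] with s hs
    have hs0 : (0 : ℝ) < s := hs
    exact hp _ (by simpa using hs0)
  exact tendsto_nhds_unique h3 h1

theorem II_inf (hc : c ≠ 0) : II ((a : ℚ) / (14 * c)) = p := by
  have h0 : Tendsto (fun s : ℝ => (s : ℂ) * Complex.I) atTop iI := by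
    unfold iI
    rw [tendsto_comap_iff]
    have e : Complex.im ∘ (fun s : ℝ => (s : ℂ) * Complex.I) = fun s : ℝ => s := by
      ext s; simp
    rw [e]
    exact tendsto_id
  have h1 := (F_QV.tendsto.comp h0).add_const p
  rw [zero_add] at h1
  set r' : ℚ := (a : ℚ) / (14 * c) with hr'
  have h2 : Tendsto (fun s : ℝ => F ((a * ((s : ℂ) * Complex.I) + b) /
      (14 * c * ((s : ℂ) * Complex.I) + d))) atTop (𝓝 (II r')) := by
    refine (tendsto_Hor hint r').comp ?_
    unfold Hor
    rw [tendsto_inf]
    constructor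
    · rw [tendsto_comap_iff]
      have hpos : 0 < (14 * (c : ℝ)) ^ 2 := by
        have : (14 * (c : ℝ)) ≠ 0 := by
          have : (c : ℝ) ≠ 0 := by exact_mod_cast hc
          positivity
        positivity
      refine (tendsto_id.const_mul_atTop hpos).congr' ?_
      filter_upwards [eventually_gt_atTop 0] with s hs0
      rw [Function.comp_apply]
      set z : ℂ := (s : ℂ) * Complex.I with hz
      have him : z.im = s := by simp [hz]
      have hzpos : 0 < z.im := by rw [him]; exact hs0
      have hden : (14 * (c : ℂ) * z + d) ≠ 0 := (G_gamma hdet hzpos).2.1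
      have hC : (14 * (c : ℂ)) ≠ 0 := by
        have : (c : ℂ) ≠ 0 := by exact_mod_cast hc
        exact mul_ne_zero (by norm_num) this
      have hdet' : (a : ℂ) * d - b * (14 * c) = 1 := by exact_mod_cast hdet
      have e1 : (a * z + b) / (14 * c * z + d) - ((r' : ℝ) : ℂ) =
          -1 / ((14 * c * z + d) * (14 * (c : ℂ))) := by
        have : ((r' : ℝ) : ℂ) = (a : ℂ) / (14 * c) := by
          rw [hr']; push_cast; rfl
        rw [this, div_sub_div _ _ hden hC]
        congr 1
        linear_combination (-1 : ℂ) * hdet'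
      have e2 := im_gam hdet z
      rw [him] at e2
      rw [e1, e2, norm_div, norm_mul, norm_neg, norm_one]
      have e3 : ‖14 * (c : ℂ)‖ ^ 2 = (14 * (c : ℝ)) ^ 2 := by
        have : (14 * (c : ℂ)) = ((14 * (c : ℝ) : ℝ) : ℂ) := by push_cast; rfl
        rw [this, Complex.norm_real, Real.norm_eq_abs, sq_abs]
      have h5 : ‖14 * (c : ℂ) * z + d‖ ≠ 0 := norm_ne_zero_iff.2 hden
      have h6 : ‖14 * (c : ℂ)‖ ≠ 0 := norm_ne_zero_iff.2 hC
      rw [← e3, id]
      field_simp
    · rw [tendsto_principal]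
      filter_upwards [eventually_gt_atTop 0] with s hs0
      exact (G_gamma hdet (by simpa using hs0 : 0 < ((s : ℂ) * Complex.I).im)).1
  have h3 : Tendsto (fun s : ℝ => F ((s : ℂ) * Complex.I) + p) atTop (𝓝 (II r')) := by
    refine h2.congr' ?_
    filter_upwards [eventually_gt_atTop 0] with s hs0
    exact hp _ (by simpa using hs0)
  exact tendsto_nhds_unique h3 h1

theorem II_pole (hc : c ≠ 0) (r : ℚ) (hr : 14 * (c : ℚ) * r + d = 0) : II r + p = 0 := by
  have h1 := (line_tendsto hint r).add_const p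
  have h2 : Tendsto (fun s : ℝ => F ((a * ((r : ℂ) + s * Complex.I) + b) /
      (14 * c * ((r : ℂ) + s * Complex.I) + d))) (𝓝[>] 0) (𝓝 0) := by
    refine F_QV.tendsto.comp ?_
    unfold iI
    rw [tendsto_comap_iff]
    have hpos : 0 < ((14 * (c : ℝ)) ^ 2)⁻¹ := by
      have : (14 * (c : ℝ)) ≠ 0 := by
        have : (c : ℝ) ≠ 0 := by exact_mod_cast hc
        positivity
      positivity
    refine (tendsto_inv_nhdsGT_zero.const_mul_atTop hpos).congr' ?_
    filter_upwards [self_mem_nhdsWithin] with s hs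
    have hs0 : (0 : ℝ) < s := hs
    rw [Function.comp_apply]
    set z : ℂ := (r : ℂ) + s * Complex.I with hz
    have him : z.im = s := by simp [hz]
    have e2 := im_gam hdet z
    rw [e2, him]
    have hr' : 14 * (c : ℂ) * r + d = 0 := by exact_mod_cast hr
    have e3 : 14 * (c : ℂ) * z + d = ((14 * (c : ℝ) * s : ℝ) : ℂ) * Complex.I := by
      rw [hz]
      push_cast
      linear_combination hr'
    rw [e3, norm_mul, Complex.norm_real, Complex.norm_I, mul_one, Real.norm_eq_abs, sq_abs]
    have hc' : (c : ℝ) ≠ 0 := by exact_mod_cast hc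
    field_simp
  have h3 : Tendsto (fun s : ℝ => F ((r : ℂ) + s * Complex.I) + p) (𝓝[>] 0) (𝓝 0) := by
    refine h2.congr' ?_
    filter_upwards [self_mem_nhdsWithin] with s hs
    have hs0 : (0 : ℝ) < s := hs
    exact hp _ (by simpa using hs0)
  exact tendsto_nhds_unique h1 h3

omit hint in
theorem p_zero (hc : c = 0) : p = 0 := by
  have h0 : Tendsto (fun s : ℝ => (s : ℂ) * Complex.I) atTop iI := by
    unfold iI
    rw [tendsto_comap_iff]
    have e : Complex.im ∘ (fun s : ℝ => (s : ℂ) * Complex.I) = fun s : ℝ => s := by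
      ext s; simp
    rw [e]
    exact tendsto_id
  have h1 := (F_QV.tendsto.comp h0).add_const p
  rw [zero_add] at h1
  have h2 : Tendsto (fun s : ℝ => F ((a * ((s : ℂ) * Complex.I) + b) /
      (14 * c * ((s : ℂ) * Complex.I) + d))) atTop (𝓝 0) := by
    refine F_QV.tendsto.comp ?_
    unfold iI
    rw [tendsto_comap_iff]
    have hd : (d : ℝ) ≠ 0 := by
      intro h
      have : d = 0 := by exact_mod_cast h
      rw [this, hc] at hdet
      norm_num at hdet
    have hpos : 0 < ((d : ℝ) ^ 2)⁻¹ := by positivity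
    refine (tendsto_id.const_mul_atTop hpos).congr' ?_
    filter_upwards [eventually_gt_atTop 0] with s hs0
    rw [Function.comp_apply]
    have e2 := im_gam hdet ((s : ℂ) * Complex.I)
    have him : ((s : ℂ) * Complex.I).im = s := by simp
    rw [e2, him, hc, id]
    have e3 : ‖14 * ((0 : ℤ) : ℂ) * ((s : ℂ) * Complex.I) + d‖ ^ 2 = (d : ℝ) ^ 2 := by
      have : 14 * ((0 : ℤ) : ℂ) * ((s : ℂ) * Complex.I) + d = ((d : ℝ) : ℂ) := by
        push_cast; ring
      rw [this, Complex.norm_real, Real.norm_eq_abs, sq_abs]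
    rw [e3]
    field_simp
  have h3 : Tendsto (fun s : ℝ => F ((s : ℂ) * Complex.I) + p) atTop (𝓝 0) := by
    refine h2.congr' ?_
    filter_upwards [eventually_gt_atTop 0] with s hs0
    exact hp _ (by simpa using hs0)
  exact tendsto_nhds_unique h1 h3

end gamma

/-- integrability, from the starting library -/
theorem hint : ∀ r : ℚ, IntegrableOn (fun t : ℝ => ff ((r : ℂ) + t * Complex.I)) (Ioi 0) := by
  obtain ⟨L, Op, Om, -, -, g2, g3, -⟩ := hlat
  exact (integrals hcp hqe hode L g2 g3 hinj htors).2.2.2.2.1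

/-- the imaginary part of the integral at the cusp `a / c` (which is zero for `c = 0`) -/
noncomputable def Y (a c : ℤ) : ℝ := (II ((a : ℚ) / c)).im

lemma Y_zero_right (a : ℤ) : Y a 0 = 0 := by
  unfold Y
  rw [Int.cast_zero, div_zero]
  exact II_zero_im

lemma Y_neg (a c : ℤ) : Y (-a) c = -Y a c := by
  unfold Y
  have : (((-a : ℤ) : ℚ) / c) = -((a : ℚ) / c) := by push_cast; ring
  rw [this, II_conj, Complex.conj_im]

lemma Y_neg_right (a c : ℤ) : Y a (-c) = -Y a c := by
  unfold Y
  have : ((a : ℚ) / ((-c : ℤ) : ℚ)) = -((a : ℚ) / c) := by push_cast; rw [div_neg]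
  rw [this, II_conj, Complex.conj_im]

lemma Y_add (a c : ℤ) : Y (a + c) c = Y a c := by
  by_cases hc : c = 0
  · subst hc
    rw [Y_zero_right, Y_zero_right]
  unfold Y
  have hc' : (c : ℚ) ≠ 0 := by exact_mod_cast hc
  have : (((a + c : ℤ) : ℚ) / c) = (a : ℚ) / c + 1 := by push_cast; field_simp
  rw [this, II_add_one]

lemma Y_one (a : ℤ) : Y a 1 = 0 := by
  induction a using Int.induction_on with
  | zero =>
    unfold Y
    simpa using II_zero_im
  | succ n ih =>
    have h := Y_add n 1
    rw [h]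
    exact ih
  | pred n ih =>
    have h := Y_add (-n - 1) 1
    rw [sub_add_cancel] at h
    rw [← h]
    exact ih

/-- **the action of `Γ_0(14)`** -/
theorem Y_gamma {A B C D : ℤ} (hdet : A * D - B * (14 * C) = 1) : ∃ q : ℝ, ∀ a c : ℤ,
    (a ≠ 0 ∨ c ≠ 0) → Y (A * a + B * c) (14 * C * a + D * c) = Y a c + q := by
  obtain ⟨p, hp⟩ := F_gamma hcp hqe hdet
  refine ⟨p.im, fun a c hac => ?_⟩
  by_cases hC : C = 0
  · -- translations
    have hp0 : p = 0 := p_zero hdet hp hC
    subst hC
    rw [hp0, Complex.zero_im, add_zero]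
    have hAD : A * D = 1 := by linarith
    by_cases hc : c = 0
    · subst hc
      have : 14 * 0 * a + D * 0 = 0 := by ring
      rw [this, Y_zero_right, Y_zero_right]
    · have hr : 14 * ((0 : ℤ) : ℚ) * ((a : ℚ) / c) + D ≠ 0 := by
        rw [Int.cast_zero, mul_zero, zero_mul, zero_add]
        intro h
        have : D = 0 := by exact_mod_cast h
        rw [this] at hAD
        norm_num at hAD
      have h := II_gamma hint hdet hp ((a : ℚ) / c) hr
      rw [hp0, add_zero] at h
      unfold Y
      rw [← h]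
      congr 2
      have hc' : (c : ℚ) ≠ 0 := by exact_mod_cast hc
      have hD : (D : ℚ) ≠ 0 := by
        intro h'
        have : D = 0 := by exact_mod_cast h'
        rw [this] at hAD
        norm_num at hAD
      push_cast
      field_simp
      ring
  · by_cases hc : c = 0
    · subst hc
      have ha : a ≠ 0 := by
        rcases hac with h | h
        · exact h
        · exact absurd rfl h
      rw [Y_zero_right, zero_add]
      have h := II_inf hint hdet hp hC
      unfold Y
      rw [← h]
      congr 2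
      have ha' : (a : ℚ) ≠ 0 := by exact_mod_cast ha
      have hC' : (C : ℚ) ≠ 0 := by exact_mod_cast hC
      push_cast
      field_simp
      ring
    · have hc' : (c : ℚ) ≠ 0 := by exact_mod_cast hc
      by_cases hr : 14 * (C : ℚ) * ((a : ℚ) / c) + D = 0
      · have h := II_pole hint hdet hp hC _ hr
        have h0 : 14 * C * a + D * c = 0 := by
          have : (14 * (C : ℚ) * a + D * c) = 0 := by
            field_simp at hr
            linarith
          exact_mod_cast this
        rw [h0, Y_zero_right]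
        unfold Y
        rw [← Complex.add_im, h, Complex.zero_im]
      · have h := II_gamma hint hdet hp ((a : ℚ) / c) hr
        unfold Y
        rw [← Complex.add_im, ← h]
        congr 2
        have hr' : 14 * (C : ℚ) * a + D * c ≠ 0 := by
          intro h'
          apply hr
          field_simp
          linarith
        push_cast
        have hr'' : 14 * (C : ℚ) * ((a : ℚ) / c) + D = (14 * C * a + D * c) / c := by
          field_simp
        rw [hr'']
        field_simp

end Pool.Agent.R435
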