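import Pool.Agent.W97.MT.Fin
import Pool.Agent.W237.V20.MULT
import Pool.Agent.R435.Path
import Pool.Agent.R435.GAUSS

/-!
# The newform of the twisted curve and its integrals
-/

set_option autoImplicit false

open UpperHalfPlane MatrixGroups CongruenceSubgroup Filter Topology MeasureTheory
open scoped ModularForm Pointwise

namespace Pool.Agent.R435

open Pool.Agent.W97.MT
open Pool.Agent.W97
open Pool.Agent.W97.V20 (lam GM aug IsSplit Omega an anPow fE)

/-- the expansion of the form divided by `q` -/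
noncomputable def P14 : PowerSeries ℤ := (expansions hqe).choose_spec.choose_spec.choose

lemma P14_rep : Rep phi P14 := (expansions hqe).choose_spec.choose_spec.choose_spec.2.2.1

lemma P14_tr : Tr P14 lphi := (expansions hqe).choose_spec.choose_spec.choose_spec.2.2.2.2.2

lemma P14_zero : PowerSeries.coeff 0 P14 = 1 := by
  rw [P14_tr 0 (by norm_num)]; rfl

lemma P14_prime {l : ℕ} (hl : l.Prime) : PowerSeries.coeff (l - 1) P14 = ap E14 l := by
  obtain ⟨L, Op, Om, -, -, g2, g3, -⟩ := hlat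
  have h := (expansions hqe).choose_spec.choose_spec.choose_spec
  exact coef_eq L g2 g3 h.1 h.2.1 h.2.2.1 h.2.2.2.1 h.2.2.2.2.1 h.2.2.2.2.2 hl

/-- the coefficients of the form of level `14` -/
noncomputable def A14 (n : ℕ) : ℤ := PowerSeries.coeff n (PowerSeries.X * P14)

lemma A14_zero : A14 0 = 0 := by unfold A14; simp

lemma A14_succ (n : ℕ) : A14 (n + 1) = PowerSeries.coeff n P14 := by
  unfold A14; rw [PowerSeries.coeff_succ_X_mul]

lemma A14_one : A14 1 = 1 := by rw [show (1 : ℕ) = 0 + 1 from rfl, A14_succ, P14_zero]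

lemma A14_two : A14 2 = -1 := by
  rw [show (2 : ℕ) = 1 + 1 from rfl, A14_succ, P14_tr 1 (by norm_num)]; rfl

lemma A14_seven : A14 7 = 1 := by
  rw [show (7 : ℕ) = 6 + 1 from rfl, A14_succ, P14_tr 6 (by norm_num)]; rfl

lemma A14_prime {l : ℕ} (hl : l.Prime) : A14 l = ap E14 l := by
  obtain ⟨m, hm⟩ : ∃ m, l = m + 1 := ⟨l - 1, by have := hl.pos; omega⟩
  have h := P14_prime hl
  rw [hm, Nat.add_sub_cancel] at h
  rw [hm, A14_succ, h]

lemma hasSum_A14 {z : ℂ} (hz : 0 < z.im) :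
    HasSum (fun n : ℕ => (A14 n : ℂ) * qq z ^ n) (ff z) := by
  have h1 := (Rep.X.mul P14_rep) (qq z) (norm_qq_lt hz)
  simp only [PowerSeries.coeff_map, eq_intCast] at h1
  rw [ff_q]
  exact h1

lemma coeff_form14 (n : ℕ) : (qExpansion 1 form14).coeff n = (A14 n : ℂ) :=
  coeff_f14 hcp hqe P14_rep n

lemma hecke_form14 {p : ℕ} (hp : p.Prime) (z : ℍ) :
    MT.hecke 14 p form14 z = (A14 p : ℂ) * form14 z := by
  have h := hecke_f14 hcp hqe P14_rep P14_zero hp z
  rw [P14_prime hp, ← A14_prime hp] at h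
  exact h

lemma A14_rec {p : ℕ} (hp : p.Prime) (n : ℕ) :
    A14 (p * n) + (if p ∣ 14 then 0 else (p : ℤ)) * (if p ∣ n then A14 (n / p) else 0) =
      A14 p * A14 n := by
  have h1 : ∀ z : ℍ, TW.heckeT 14 2 p form14 z = (A14 p : ℂ) * form14 z := fun z => by
    rw [← hecke_form14 hp z]
    unfold MT.hecke TW.heckeT
    norm_num
  have hA : ∀ n, TW.A form14 n = (A14 n : ℂ) := coeff_form14
  have h3 := TW.hecke_rec form14 hp.pos h1 n
  unfold TW.B at h3
  simp only [hA] at h3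
  have h2 : ((A14 (p * n) + (if p ∣ 14 then 0 else (p : ℤ)) *
      (if p ∣ n then A14 (n / p) else 0) : ℤ) : ℂ) = A14 p * A14 n := by
    rw [← h3]
    by_cases h4 : p ∣ 14 <;> by_cases h5 : p ∣ n
    · rw [if_pos h4, if_pos h5, if_pos h4, if_pos h5]
      push_cast
      ring
    · rw [if_pos h4, if_neg h5, if_pos h4, if_neg h5]
      push_cast
      ring
    · rw [if_neg h4, if_pos h5, if_neg h4, if_pos h5]
      push_cast
      norm_num
      ring
    · rw [if_neg h4, if_neg h5, if_neg h4, if_neg h5]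
      push_cast
      ring
  exact_mod_cast h2

lemma jac_mul (a b : ℤ) : jacobiSym (a * b) 19 = jacobiSym a 19 * jacobiSym b 19 :=
  jacobiSym.mul_left a b 19

lemma jac_sq {p : ℕ} (hp : p.Prime) (h : p ≠ 19) : jacobiSym p 19 * jacobiSym p 19 = 1 := by
  have h1 : IsCoprime ((p : ℤ)) 19 := by
    have := (Nat.coprime_primes hp (by norm_num : Nat.Prime 19)).2 h
    exact_mod_cast Nat.isCoprime_iff_coprime.2 this
  have h2 := jacobiSym.sq_one' (a := (p : ℤ)) (b := 19) (by
    exact_mod_cast Int.isCoprime_iff_gcd_eq_one.1 h1)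
  rw [← jac_mul, ← sq]
  exact h2

lemma EE_disc : EE.Δ = -(2 ^ 6 * 7 ^ 3 * 19 ^ 6) := by
  unfold EE WeierstrassCurve.Δ WeierstrassCurve.b₂ WeierstrassCurve.b₄ WeierstrassCurve.b₆
    WeierstrassCurve.b₈
  norm_num

lemma dvd_disc {p : ℕ} (hp : p.Prime) : (p : ℤ) ∣ EE.Δ ↔ p = 2 ∨ p = 7 ∨ p = 19 := by
  rw [EE_disc]
  constructor
  · intro h
    have h1 : (p : ℤ) ∣ ((2 ^ 6 * 7 ^ 3 * 19 ^ 6 : ℕ) : ℤ) := by
      rw [dvd_neg] at h
      have e : (((2 ^ 6 * 7 ^ 3 * 19 ^ 6 : ℕ)) : ℤ) = 2 ^ 6 * 7 ^ 3 * 19 ^ 6 := by norm_num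
      rw [e]
      exact h
    have h2 : p ∣ 2 ^ 6 * 7 ^ 3 * 19 ^ 6 := by exact_mod_cast h1
    rcases (Nat.Prime.dvd_mul hp).1 h2 with h3 | h3
    · rcases (Nat.Prime.dvd_mul hp).1 h3 with h4 | h4
      · exact Or.inl ((Nat.prime_dvd_prime_iff_eq hp Nat.prime_two).1 (hp.dvd_of_dvd_pow h4))
      · exact Or.inr (Or.inl ((Nat.prime_dvd_prime_iff_eq hp (by norm_num)).1
          (hp.dvd_of_dvd_pow h4)))
    · exact Or.inr (Or.inr ((Nat.prime_dvd_prime_iff_eq hp (by norm_num)).1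
        (hp.dvd_of_dvd_pow h3)))
  · rintro (rfl | rfl | rfl) <;> norm_num

lemma dvd_14 {p : ℕ} (hp : p.Prime) (h2 : p ≠ 2) (h7 : p ≠ 7) : ¬ p ∣ 14 := by
  intro h
  have h1 : p ∣ 2 * 7 := by simpa using h
  rcases (Nat.Prime.dvd_mul hp).1 h1 with h3 | h3
  · exact h2 ((Nat.prime_dvd_prime_iff_eq hp Nat.prime_two).1 h3)
  · exact h7 ((Nat.prime_dvd_prime_iff_eq hp (by norm_num)).1 h3)

/-- the coefficients of the twist -/
theorem an_eq (htw : S_TW) (n : ℕ) : an EE n = jacobiSym n 19 * A14 n := by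
  by_cases hn : n = 0
  · subst hn
    rw [A14_zero, mul_zero]
    unfold an
    rw [if_pos rfl]
  refine Pool.Agent.W237.V20.MULT.s_mult EE (fun n => jacobiSym n 19 * A14 n) ?_ ?_ ?_ n
    (Nat.pos_of_ne_zero hn)
  · rw [A14_one, Nat.cast_one, jacobiSym.one_left, mul_one]
  · intro p hp
    rw [htw p hp, A14_prime hp]
  · intro p hp n hn
    have h1 := A14_rec hp n
    have h2 := dvd_disc hp
    have h3 : A14 (p * n) = A14 p * A14 n - (if p ∣ 14 then 0 else (p : ℤ)) *
      (if p ∣ n then A14 (n / p) else 0) := by linarith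
    rw [Nat.cast_mul, jac_mul, h3]
    by_cases h19 : p = 19
    · subst h19
      have h4 : jacobiSym ((19 : ℕ) : ℤ) 19 = 0 := by decide +kernel
      rw [h4, if_pos (h2.2 (Or.inr (Or.inr rfl)))]
      simp
    · have hsq := jac_sq hp h19
      by_cases hd : (p : ℤ) ∣ EE.Δ
      · rw [if_pos hd]
        have h20 : p ∣ 14 := by
          rcases h2.1 hd with h | h | h
          · rw [h]; norm_num
          · rw [h]; norm_num
          · exact absurd h h19
        rw [if_pos h20]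
        push_cast
        ring
      · rw [if_neg hd]
        have h20 : ¬ p ∣ 14 := dvd_14 hp (fun h => hd (h2.2 (Or.inl h)))
          (fun h => hd (h2.2 (Or.inr (Or.inl h))))
        rw [if_neg h20]
        by_cases hpn : p ∣ n
        · obtain ⟨m, rfl⟩ := hpn
          rw [if_pos (dvd_mul_right p m), if_pos (dvd_mul_right p m),
            Nat.mul_div_cancel_left _ hp.pos, Nat.cast_mul, jac_mul]
          linear_combination (-(jacobiSym m 19 * p * A14 m)) * hsq
        · rw [if_neg hpn, if_neg hpn]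
          ring

lemma qq_pow_eq (n : ℕ) (z : ℂ) : qq z ^ n = Complex.exp (2 * Real.pi * Complex.I * n * z) := by
  unfold qq
  rw [← Complex.exp_nat_mul]
  congr 1
  ring

/-- the Gauss sum is `τ i` -/
noncomputable def tau : ℝ := Gauss.s_gauss.choose

lemma tau_sq : tau ^ 2 = 19 := Gauss.s_gauss.choose_spec.1

lemma tau_ne : (tau : ℂ) ≠ 0 := by
  intro h
  have h1 : tau = 0 := by exact_mod_cast h
  have := tau_sq
  rw [h1] at this
  norm_num at this

theorem fE_eq (htw : S_TW) {z : ℂ} (hz : 0 < z.im) : fE EE (ofComplex z) =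
    (∑ u ∈ Finset.range 19, (jacobiSym u 19 : ℂ) * ff (z + u / 19)) / (tau * Complex.I) := by
  have h1 := Gauss.s_gauss.choose_spec.2 A14 ff (fun z hz => by
    have := hasSum_A14 hz
    simp only [qq_pow_eq] at this
    exact this) z hz
  unfold fE
  rw [ofComplex_apply_of_im_pos hz]
  have h2 : (fun n : ℕ => ((an EE n : ℤ) : ℂ) * Complex.exp (2 * Real.pi * Complex.I * n * z)) =
      fun n : ℕ => ((jacobiSym n 19 * A14 n : ℤ) : ℂ) *
        Complex.exp (2 * Real.pi * Complex.I * n * z) := by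
    ext n
    rw [an_eq htw]
  change (∑' n : ℕ, ((an EE n : ℤ) : ℂ) * Complex.exp (2 * Real.pi * Complex.I * n * z)) = _
  rw [h2]
  exact h1.tsum_eq

/-- the character sum of the integrals -/
noncomputable def SS (x : ℚ) : ℂ :=
  ∑ u ∈ Finset.range 19, (jacobiSym u 19 : ℂ) * II (x + u / 19)

lemma prim_fE (htw : S_TW) (r : ℚ) : prim (fE EE) (r : ℂ) = SS r / (tau * Complex.I) := by
  have h1 : Set.EqOn (fun t : ℝ => fE EE (ofComplex ((r : ℂ) + t * Complex.I)))
      (fun t : ℝ => (∑ u ∈ Finset.range 19, (jacobiSym u 19 : ℂ) *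
        ff (((r + u / 19 : ℚ) : ℂ) + t * Complex.I)) / (tau * Complex.I)) (Set.Ioi 0) := by
    intro t ht
    have ht' : 0 < t := ht
    have him : 0 < ((r : ℂ) + t * Complex.I).im := by simpa using ht'
    dsimp only
    rw [fE_eq htw him]
    congr 1
    refine Finset.sum_congr rfl fun u _ => ?_
    congr 2
    push_cast
    ring
  have h5 : (∫ t in Set.Ioi (0 : ℝ), ∑ u ∈ Finset.range 19, (jacobiSym u 19 : ℂ) *
        ff (((r + u / 19 : ℚ) : ℂ) + t * Complex.I)) =
      ∑ u ∈ Finset.range 19, ∫ t in Set.Ioi (0 : ℝ), (jacobiSym u 19 : ℂ) *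
        ff (((r + u / 19 : ℚ) : ℂ) + t * Complex.I) :=
    integral_finsetSum _ (fun u _ => (hint (r + u / 19)).const_mul _)
  unfold prim
  rw [setIntegral_congr_fun measurableSet_Ioi h1, integral_div, h5]
  have h2 : ∀ u : ℕ, ∫ t in Set.Ioi (0 : ℝ), (jacobiSym u 19 : ℂ) *
      ff (((r + u / 19 : ℚ) : ℂ) + t * Complex.I) =
      (jacobiSym u 19 : ℂ) * ∫ t in Set.Ioi (0 : ℝ),
        ff (((r + u / 19 : ℚ) : ℂ) + t * Complex.I) := fun u =>
    integral_const_mul _ _
  simp only [h2]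
  unfold SS II
  rw [← mul_div_assoc, Finset.mul_sum]
  congr 1
  refine Finset.sum_congr rfl fun u _ => ?_
  ring

lemma jac_refl : ∀ u ∈ Finset.Icc (1 : ℕ) 18, jacobiSym ((19 - u : ℕ) : ℤ) 19 = -jacobiSym u 19 := by
  decide +kernel

lemma SS_eq (x : ℚ) : SS x = ∑ u ∈ Finset.Icc (1 : ℕ) 18, (jacobiSym u 19 : ℂ) *
    II (x + u / 19) := by
  unfold SS
  rw [Finset.range_eq_Ico, Finset.sum_eq_sum_Ico_succ_bot (by norm_num)]
  have h0 : jacobiSym ((0 : ℕ) : ℤ) 19 = 0 := by decide +kernel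
  rw [h0, Int.cast_zero, zero_mul, zero_add]
  rfl

lemma SS_conj (x : ℚ) : SS (-x) = -starRingEnd ℂ (SS x) := by
  rw [SS_eq, SS_eq, map_sum, ← Finset.sum_neg_distrib]
  refine Finset.sum_nbij' (fun u => 19 - u) (fun u => 19 - u) ?_ ?_ ?_ ?_ ?_
  · intro u hu
    rw [Finset.mem_Icc] at hu ⊢
    omega
  · intro u hu
    rw [Finset.mem_Icc] at hu ⊢
    omega
  · intro u hu
    rw [Finset.mem_Icc] at hu
    omega
  · intro u hu
    rw [Finset.mem_Icc] at hu
    omega
  · intro u hu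
    have h1 := jac_refl u hu
    rw [Finset.mem_Icc] at hu
    rw [h1, map_mul, ← II_conj]
    have h2 : (starRingEnd ℂ) ((-jacobiSym u 19 : ℤ) : ℂ) = ((-jacobiSym u 19 : ℤ) : ℂ) :=
      map_intCast (starRingEnd ℂ) _
    rw [h2]
    push_cast
    rw [neg_mul, neg_neg]
    congr 1
    rw [← II_add_one (-(x + ((19 - u : ℕ) : ℚ) / 19))]
    congr 1
    rw [Nat.cast_sub (by omega)]
    push_cast
    ring

/-- the modular symbols of the twist -/
theorem lam_eq (htw : S_TW) (a M : ℤ) :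
    lam EE a M = ((SS ((a : ℚ) / M)).im / (tau * Omega EE) : ℝ) := by
  unfold lam
  rw [prim_fE htw, prim_fE htw, SS_conj, ← add_div]
  have h3 : SS ((a : ℚ) / M) + -starRingEnd ℂ (SS ((a : ℚ) / M)) =
      ((2 * (SS ((a : ℚ) / M)).im : ℝ) : ℂ) * Complex.I := by
    rw [← sub_eq_add_neg, Complex.sub_conj]
  rw [h3]
  push_cast
  have hI := Complex.I_ne_zero
  have hτ := tau_ne
  by_cases hO : (Omega EE : ℂ) = 0
  · rw [hO]
    simp
  field_simp

end Pool.Agent.R435
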