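import Pool.Agent.R435.Sym
import Pool.Agent.R435.Twist

/-!
# The values of the modular symbols of the twist
-/

set_option autoImplicit false

open MeasureTheory

namespace Pool.Agent.R435

open Pool.Agent.W97.MT
open Pool.Agent.W97.V20 (lam GM aug IsSplit Omega an anPow fE)

lemma reps_aux : ∀ c ∈ Finset.range 14, ∀ d ∈ Finset.range 14,
    (∃ x ∈ reps, ((c : ℤ) * x.2.2.2.1 - (d : ℤ) * x.2.2.1) % 14 = 0) ∨ (2 ∣ c ∧ 2 ∣ d) ∨
      (7 ∣ c ∧ 7 ∣ d) := by decide +kernel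

lemma kf_isSome {a b c d : ℤ} (h : a * d - b * c = 1) : ∃ x, kf c d = some x := by
  have hc : c = 14 * (c / 14) + (c % 14).toNat := by omega
  have hd : d = 14 * (d / 14) + (d % 14).toNat := by omega
  have hc' : (c % 14).toNat ∈ Finset.range 14 := by rw [Finset.mem_range]; omega
  have hd' : (d % 14).toNat ∈ Finset.range 14 := by rw [Finset.mem_range]; omega
  set c' := (c % 14).toNat
  set d' := (d % 14).toNat
  rcases reps_aux c' hc' d' hd' with ⟨x, hx, h1⟩ | ⟨h1, h2⟩ | ⟨h1, h2⟩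
  · have h2 : (reps.find? fun x => decide ((c * x.2.2.2.1 - d * x.2.2.1) % 14 = 0)).isSome := by
      rw [List.find?_isSome]
      refine ⟨x, hx, ?_⟩
      rw [decide_eq_true_eq]
      have : c * x.2.2.2.1 - d * x.2.2.1 = ((c' : ℤ) * x.2.2.2.1 - (d' : ℤ) * x.2.2.1) +
          14 * ((c / 14) * x.2.2.2.1 - (d / 14) * x.2.2.1) := by
        linear_combination x.2.2.2.1 * hc - x.2.2.1 * hd
      rw [this, Int.add_mul_emod_self_left]
      exact h1
    exact Option.isSome_iff_exists.1 h2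
  · exfalso
    have h3 : (2 : ℤ) ∣ c := by omega
    have h4 : (2 : ℤ) ∣ d := by omega
    have h5 : (2 : ℤ) ∣ 1 := by
      rw [← h]
      exact dvd_sub (h4.mul_left a) (h3.mul_left b)
    norm_num at h5
  · exfalso
    have h3 : (7 : ℤ) ∣ c := by omega
    have h4 : (7 : ℤ) ∣ d := by omega
    have h5 : (7 : ℤ) ∣ 1 := by
      rw [← h]
      exact dvd_sub (h4.mul_left a) (h3.mul_left b)
    norm_num at h5

lemma Y_int_aux : ∀ (n : ℕ) (a c : ℤ), c.natAbs = n → IsCoprime a c → ∃ v : ℤ, Y a c = v * tt := by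
  intro n
  induction n using Nat.strong_induction_on with
  | _ n ih =>
    intro a c hn hac
    by_cases hc : c = 0
    · refine ⟨0, ?_⟩
      rw [hc, Y_zero_right]
      norm_num
    · obtain ⟨u, w, huw⟩ := hac
      have hdm := Int.emod_add_mul_ediv u c
      have h1 : a * (u % c) - (-w - a * (u / c)) * c = 1 := by
        linear_combination huw + a * hdm
      obtain ⟨x, hx⟩ := kf_isSome h1
      have h2 := kf_spec h1 hx
      have h3 : (u % c).natAbs < n := by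
        have h4 := Int.emod_lt_abs u hc
        have h5 := Int.emod_nonneg u hc
        rcases abs_cases c with ⟨h6, h7⟩ | ⟨h6, h7⟩ <;> rw [h6] at h4 <;> omega
      obtain ⟨v, hv⟩ := ih _ h3 (-w - a * (u / c)) (u % c) rfl ⟨-c, a, by linear_combination h1⟩
      refine ⟨x.2.2.2.2 + v, ?_⟩
      rw [Int.cast_add]
      linear_combination h2 + hv

lemma Y_ratio {a c a' c' : ℤ} (h : (a : ℚ) / c = (a' : ℚ) / c') : Y a c = Y a' c' := by
  unfold Y
  rw [h]

/-- **integrality** -/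
theorem Y_int (a c : ℤ) : ∃ v : ℤ, Y a c = v * tt := by
  set r : ℚ := (a : ℚ) / c with hr
  have h1 : Y a c = Y r.num r.den := by
    refine Y_ratio ?_
    rw [← hr]
    exact_mod_cast (Rat.num_div_den r).symm
  rw [h1]
  exact Y_int_aux _ _ _ rfl (Rat.isCoprime_num_den r)

/-- the generator is `±Ω⁻` -/
theorem tt_eq : ∃ (L : PeriodPair) (Op Om : ℝ), 0 < Op ∧ 0 < Om ∧
    L.g₂ = -215 / 12 ∧ L.g₃ = 5291 / 216 ∧
    (∀ w : ℂ, w ∈ L.lattice ↔ ∃ a b : ℤ, 2 ∣ a - b ∧ w = a * Op + b * Om * Complex.I) ∧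
    ∃ e : ℤ, (e = 1 ∨ e = -1) ∧ tt = e * Om := by
  obtain ⟨L, Op, Om, hOp, hOm, g2, g3, hL⟩ := hlat
  refine ⟨L, Op, Om, hOp, hOm, g2, g3, hL, ?_⟩
  have h1 : ((Op : ℂ) + Om * Complex.I) ∈ L.lattice := (hL _).2 ⟨1, 1, by norm_num, by simp⟩
  obtain ⟨a, b, c, d, hdet, hp⟩ := (optimal hcp hqe hode L g2 g3 hinj hsub _).1 h1
  have him : ((Op : ℂ) + Om * Complex.I).im = Om := by simp
  have hex : ∃ v : ℤ, Om = v * tt := by
    by_cases hc : c = 0
    · have h2 := p_zero hdet hp hc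
      rw [h2, Complex.zero_im] at him
      exact absurd him.symm hOm.ne'
    · have h2 := II_inf hint hdet hp hc
      obtain ⟨v, hv⟩ := Y_int a (14 * c)
      refine ⟨v, ?_⟩
      rw [← hv, ← him, ← h2]
      unfold Y
      congr 3
      push_cast
      rfl
  obtain ⟨v, hv⟩ := hex
  obtain ⟨j, hj⟩ := (integrals hcp hqe hode L g2 g3 hinj htors).2.2.2.2.2.1 (1 / 3)
  obtain ⟨m, n, -, hmn⟩ := (hL _).1 hj
  have h3 : tt = n * Om := by
    have h4 := congrArg Complex.im hmn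
    have h5 : (II (1 / 3)).im = tt := by
      unfold tt Y
      norm_num
    rw [Complex.sub_im, h5] at h4
    have h6 : ((j : ℂ) * II 0).im = 0 := by
      rw [← Complex.ofReal_intCast, Complex.im_ofReal_mul, II_zero_im, mul_zero]
    rw [h6] at h4
    simpa using h4
  have h7 : (v * n : ℤ) = 1 := by
    have h8 : ((v * n : ℤ) : ℝ) * Om = 1 * Om := by
      push_cast
      rw [one_mul]
      rw [h3] at hv
      linarith
    have h9 := mul_right_cancel₀ hOm.ne' h8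
    exact_mod_cast h9
  refine ⟨n, ?_, h3⟩
  exact (Int.isUnit_iff.1 (IsUnit.of_mul_eq_one_right v h7))

lemma sqrt19_pos : 0 < Real.sqrt 19 := Real.sqrt_pos.2 (by norm_num)

/-- the sign of the Gauss sum -/
lemma exists_sign : ∃ ε : ℤ, (ε = 1 ∨ ε = -1) ∧ tau = ε * Real.sqrt 19 := by
  have h1 : tau ^ 2 = Real.sqrt 19 ^ 2 := by rw [tau_sq, Real.sq_sqrt (by norm_num)]
  rcases sq_eq_sq_iff_eq_or_eq_neg.1 h1 with h | h
  · exact ⟨1, Or.inl rfl, by rw [h]; simp⟩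
  · exact ⟨-1, Or.inr rfl, by rw [h]; simp⟩

lemma SS_im {a M : ℤ} (hM : M ≠ 0) : (SS ((a : ℚ) / M)).im =
    ∑ u ∈ Finset.Icc (1 : ℕ) 18, (jacobiSym u 19 : ℝ) * Y (19 * a + M * u) (19 * M) := by
  rw [SS_eq, Complex.im_sum]
  refine Finset.sum_congr rfl fun u _ => ?_
  rw [← Complex.ofReal_intCast, Complex.im_ofReal_mul]
  unfold Y
  congr 3
  have hM' : (M : ℚ) ≠ 0 := by exact_mod_cast hM
  push_cast
  field_simp

/-- the values of the modular symbols, up to a global sign -/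
theorem lam_vals (htw : S_TW) (hom : S_OM) : ∃ ε : ℤ, (ε = 1 ∨ ε = -1) ∧
    ∀ (a M : ℤ) (v : ℕ → ℤ), M ≠ 0 →
      (∀ u ∈ Finset.Icc (1 : ℕ) 18, Y (19 * a + M * u) (19 * M) = v u * tt) →
      lam EE a M = ((ε * ∑ u ∈ Finset.Icc (1 : ℕ) 18, jacobiSym u 19 * v u : ℤ) : ℂ) := by
  obtain ⟨L, Op, Om, hOp, hOm, g2, g3, hL, e, he, ht⟩ := tt_eq
  obtain ⟨ε, hε, hτ⟩ := exists_sign
  refine ⟨ε * e, ?_, fun a M v hM hv => ?_⟩
  · rcases hε with h | h <;> rcases he with h' | h' <;> rw [h, h'] <;> norm_num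
  · rw [lam_eq htw, SS_im hM, hom L Op Om hOp hOm g2 g3 hL, hτ]
    have h1 : ∑ u ∈ Finset.Icc (1 : ℕ) 18, (jacobiSym u 19 : ℝ) * Y (19 * a + M * u) (19 * M) =
        (∑ u ∈ Finset.Icc (1 : ℕ) 18, jacobiSym u 19 * v u : ℤ) * (e * Om) := by
      rw [← ht, Int.cast_sum, Finset.sum_mul]
      refine Finset.sum_congr rfl fun u hu => ?_
      rw [hv u hu]
      push_cast
      ring
    rw [h1]
    have h2 := sqrt19_pos.ne'
    have hε2 : (ε : ℝ) * ε = 1 := by rcases hε with h | h <;> rw [h] <;> norm_num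
    have hε0 : (ε : ℝ) ≠ 0 := left_ne_zero_of_mul_eq_one hε2
    have h3 : ((∑ u ∈ Finset.Icc (1 : ℕ) 18, jacobiSym u 19 * v u : ℤ) * (e * Om)) /
        (ε * Real.sqrt 19 * (Om / Real.sqrt 19)) =
        ((ε * e * ∑ u ∈ Finset.Icc (1 : ℕ) 18, jacobiSym u 19 * v u : ℤ) : ℝ) := by
      have hO := hOm.ne'
      push_cast
      have hne : (ε : ℝ) * Real.sqrt 19 * (Om / Real.sqrt 19) ≠ 0 :=
        mul_ne_zero (mul_ne_zero hε0 h2) (div_ne_zero hO h2)
      rw [div_eq_iff hne]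
      have h4 : (ε : ℝ) * Real.sqrt 19 * (Om / Real.sqrt 19) = ε * Om := by field_simp
      rw [h4]
      linear_combination (-(∑ x ∈ Finset.Icc 1 18, (jacobiSym (x : ℕ) 19 : ℝ) * (v x : ℝ)) * e * Om) * hε2
    rw [h3]
    push_cast
    rfl

end Pool.Agent.R435
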