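import Pool.Agent.R435.Lam

/-!
# The second moment of the modular symbols modulo `98`
-/

set_option autoImplicit false

namespace Pool.Agent.R435

open Pool.Agent.W97.MT
open Pool.Agent.W97.V20 (lam GM aug IsSplit Omega an anPow fE)

/-- the values of the character modulo `19` -/
def chiL : List ℤ := [0, 1, -1, -1, 1, 1, 1, 1, -1, 1, -1, 1, -1, -1, -1, -1, 1, 1, -1]

lemma chiL_spec : ∀ u ∈ Finset.Icc (1 : ℕ) 18, jacobiSym u 19 = chiL.getD u 0 := by
  decide +kernel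

/-- the value at `x / 98`, up to the global sign -/
def lz (x : ℕ) : ℤ :=
  ∑ u ∈ Finset.Icc (1 : ℕ) 18, chiL.getD u 0 * (ev (19 * x + 98 * u) (19 * 98)).getD 0

/-- the logarithm `(ℤ/49)ˣ → ℤ/7` -/
def lg (x : ℕ) : ℕ := ((x % 49) ^ 6 - 1) / 7 % 7

lemma lz_isSome : ∀ x ∈ Finset.range 98, x % 2 = 1 → x % 7 ≠ 0 →
    ∀ u ∈ Finset.Icc (1 : ℕ) 18, (ev (19 * x + 98 * u) (19 * 98)).isSome = true := by
  decide +kernel

lemma moment : (∑ x ∈ (Finset.range 98).filter (fun x => x % 2 = 1 ∧ x % 7 ≠ 0),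
    (lg x : ℤ) ^ 2 * lz x) % 7 = 6 := by
  decide +kernel

end Pool.Agent.R435
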