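import Pool.Agent.R435.Norm
import Pool.Agent.R435.Num

/-!
# The second moment for the modulus `2^a 7^b`
-/

set_option autoImplicit false

namespace Pool.Agent.R435

open Pool.Agent.W97.MT
open Pool.Agent.W97.V20 (lam GM aug IsSplit Omega an anPow fE)

open Classical in
/-- the integer `λ(a, M)` -/
noncomputable def lamZ (a M : ℤ) : ℤ := if h : ∃ n : ℤ, lam EE a M = (n : ℂ) then h.choose else 0

section

variable (htw : S_TW) (hom : S_OM)
include htw hom

lemma lamZ_spec (a M : ℤ) (hM : M ≠ 0) : lam EE a M = (lamZ a M : ℂ) := by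
  have h := lam_int htw hom a M hM
  unfold lamZ
  rw [dif_pos h]
  exact h.choose_spec

/-- the residues prime to `14` -/
def good (M : ℕ) : Finset ℕ := (Finset.range M).filter (fun x => x % 2 = 1 ∧ x % 7 ≠ 0)

/-- the second moment -/
noncomputable def mom (M : ℕ) : ℤ := ∑ x ∈ good M, (lg x : ℤ) ^ 2 * lamZ x M

omit htw hom in
lemma lg_add {M : ℕ} (h : 98 ∣ M) (y j : ℕ) : lg (y + j * M) = lg y := by
  obtain ⟨k, rfl⟩ := h
  unfold lg
  have : (y + j * (98 * k)) % 49 = y % 49 := by
    rw [show y + j * (98 * k) = y + 49 * (j * (2 * k)) by ring, Nat.add_mul_mod_self_left]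
  rw [this]

lemma mom_step {p M : ℕ} (hp : p = 2 ∨ p = 7) (hM : 0 < M) (h98 : 98 ∣ M) :
    mom (p * M) = mom M := by
  have hp0 : 0 < p := by rcases hp with rfl | rfl <;> norm_num
  have h1 : mom (p * M) = ∑ y ∈ good M ×ˢ Finset.range p,
      (lg (y.1 + y.2 * M) : ℤ) ^ 2 * lamZ ((y.1 + y.2 * M : ℕ) : ℤ) ((p * M : ℕ) : ℤ) := by
    unfold mom
    refine Finset.sum_nbij' (fun x => (x % M, x / M)) (fun y => y.1 + y.2 * M) ?_ ?_ ?_ ?_ ?_
    · intro x hx
      unfold good at hx ⊢
      rw [Finset.mem_filter, Finset.mem_range] at hx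
      rw [Finset.mem_product, Finset.mem_filter, Finset.mem_range, Finset.mem_range]
      obtain ⟨hx1, hx2, hx3⟩ := hx
      obtain ⟨k, rfl⟩ := h98
      refine ⟨⟨Nat.mod_lt _ hM, ?_, ?_⟩, ?_⟩
      · dsimp only
        rw [Nat.mod_mod_of_dvd _ (Dvd.intro (49 * k) (by ring))]
        exact hx2
      · dsimp only
        rw [Nat.mod_mod_of_dvd _ (Dvd.intro (14 * k) (by ring))]
        exact hx3
      · exact Nat.div_lt_of_lt_mul (by rw [mul_comm]; exact hx1)
    · intro y hy
      unfold good at hy ⊢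
      rw [Finset.mem_product, Finset.mem_filter, Finset.mem_range, Finset.mem_range] at hy
      rw [Finset.mem_filter, Finset.mem_range]
      obtain ⟨⟨h2, h3, h4⟩, h5⟩ := hy
      obtain ⟨k, rfl⟩ := h98
      refine ⟨?_, ?_, ?_⟩
      · calc y.1 + y.2 * (98 * k) < 98 * k + y.2 * (98 * k) := by omega
          _ = (y.2 + 1) * (98 * k) := by ring
          _ ≤ p * (98 * k) := Nat.mul_le_mul_right _ h5
      · rw [show y.1 + y.2 * (98 * k) = y.1 + 2 * (y.2 * (49 * k)) by ring,
          Nat.add_mul_mod_self_left]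
        exact h3
      · rw [show y.1 + y.2 * (98 * k) = y.1 + 7 * (y.2 * (14 * k)) by ring,
          Nat.add_mul_mod_self_left]
        exact h4
    · intro x _
      dsimp only
      rw [mul_comm]
      exact Nat.mod_add_div x M
    · intro y hy
      rw [Finset.mem_product] at hy
      have h2 := hy.1
      unfold good at h2
      rw [Finset.mem_filter, Finset.mem_range] at h2
      ext
      · dsimp only
        rw [mul_comm, Nat.add_mul_mod_self_left, Nat.mod_eq_of_lt h2.1]
      · dsimp only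
        rw [mul_comm, Nat.add_mul_div_left _ _ hM, Nat.div_eq_of_lt h2.1, zero_add]
    · intro x _
      dsimp only
      have : x % M + x / M * M = x := by rw [mul_comm]; exact Nat.mod_add_div x M
      rw [this]
  rw [h1, Finset.sum_product]
  unfold mom
  refine Finset.sum_congr rfl fun y _ => ?_
  dsimp only
  simp only [lg_add h98]
  rw [← Finset.mul_sum]
  congr 1
  have hM' : (M : ℤ) ≠ 0 := by exact_mod_cast hM.ne'
  have hpM' : ((p * M : ℕ) : ℤ) ≠ 0 := by exact_mod_cast (Nat.mul_pos hp0 hM).ne'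
  have h2 := lam_norm htw hp y M hM'
  rw [lamZ_spec htw hom y M hM'] at h2
  have h3 : ∀ b ∈ Finset.range p, lam EE ((y : ℤ) + b * M) (p * M) =
      (lamZ ((y + b * M : ℕ) : ℤ) ((p * M : ℕ) : ℤ) : ℂ) := by
    intro b _
    rw [← lamZ_spec htw hom _ _ hpM']
    push_cast
    rfl
  rw [Finset.sum_congr rfl h3] at h2
  exact_mod_cast h2

theorem mom_eq (k l : ℕ) : mom (2 ^ k * (7 ^ l * 98)) = mom 98 := by
  have h7 : ∀ l : ℕ, mom (7 ^ l * 98) = mom 98 := by
    intro l
    induction l with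
    | zero => rw [pow_zero, one_mul]
    | succ l ih =>
      rw [pow_succ', mul_assoc, mom_step htw hom (Or.inr rfl) (by positivity)
        (Dvd.intro_left _ rfl), ih]
  induction k with
  | zero => rw [pow_zero, one_mul, h7]
  | succ k ih =>
    rw [pow_succ', mul_assoc, mom_step htw hom (Or.inl rfl) (by positivity)
      ((Dvd.intro_left _ rfl : 98 ∣ 7 ^ l * 98).mul_left _), ih]

theorem mom_ne_98 : (mom 98 : ZMod 7) ≠ 0 := by
  obtain ⟨ε, hε, h⟩ := lam_vals htw hom
  have h1 : ∀ x ∈ good 98, lamZ x 98 = ε * lz x := by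
    intro x hx
    unfold good at hx
    rw [Finset.mem_filter] at hx
    have h2 : ∀ u ∈ Finset.Icc (1 : ℕ) 18, Y (19 * (x : ℤ) + 98 * u) (19 * 98) =
        ((fun u => (ev (19 * x + 98 * u) (19 * 98)).getD 0) u : ℤ) * tt := by
      intro u hu
      have h3 := lz_isSome x hx.1 hx.2.1 hx.2.2 u hu
      obtain ⟨v, hv⟩ := Option.isSome_iff_exists.1 h3
      have h4 := ev_spec hv
      dsimp only
      rw [hv, Option.getD_some, ← h4]
      push_cast
      rfl
    have h3 := h x 98 _ (by norm_num) h2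
    rw [lamZ_spec htw hom _ _ (by norm_num)] at h3
    have h4 : lamZ x 98 = ε * ∑ u ∈ Finset.Icc (1 : ℕ) 18, jacobiSym u 19 *
        (ev (19 * x + 98 * u) (19 * 98)).getD 0 := by exact_mod_cast h3
    rw [h4]
    unfold lz
    congr 1
    exact Finset.sum_congr rfl fun u hu => by rw [chiL_spec u hu]
  have h2 : mom 98 = ε * ∑ x ∈ good 98, (lg x : ℤ) ^ 2 * lz x := by
    unfold mom
    rw [Finset.mul_sum]
    refine Finset.sum_congr rfl fun x hx => ?_
    have h3 := h1 x hx
    push_cast at h3 ⊢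
    rw [h3]
    ring
  have h3 : (∑ x ∈ good 98, (lg x : ℤ) ^ 2 * lz x) % 7 = 6 := moment
  intro h4
  rw [ZMod.intCast_zmod_eq_zero_iff_dvd] at h4
  rcases hε with rfl | rfl
  · rw [h2] at h4
    push_cast at h4
    omega
  · rw [h2] at h4
    push_cast at h4
    omega

/-- **the second moment is not divisible by 7** -/
theorem mom_ne {a b : ℕ} (ha : 1 ≤ a) (hb : 2 ≤ b) : (mom (2 ^ a * 7 ^ b) : ZMod 7) ≠ 0 := by
  obtain ⟨k, rfl⟩ : ∃ k, a = k + 1 := ⟨a - 1, by omega⟩
  obtain ⟨l, rfl⟩ : ∃ l, b = l + 2 := ⟨b - 2, by omega⟩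
  have : 2 ^ (k + 1) * 7 ^ (l + 2) = 2 ^ k * (7 ^ l * 98) := by ring
  rw [this, mom_eq htw hom]
  exact mom_ne_98 htw hom

end

end Pool.Agent.R435
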