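import Pool.Agent.R435.Lam

/-!
# The norm relations at the primes `2` and `7`
-/

set_option autoImplicit false

open MeasureTheory

namespace Pool.Agent.R435

open Pool.Agent.W97.MT
open Pool.Agent.W97.V20 (lam GM aug IsSplit Omega an anPow fE)

lemma II_add_nat (r : ℚ) (n : ℕ) : II (r + n) = II r := by
  induction n with
  | zero => rw [Nat.cast_zero, add_zero]
  | succ n ih => rw [Nat.cast_succ, ← add_assoc, II_add_one, ih]

lemma II_hecke {p : ℕ} (hp : p.Prime) (h : p ∣ 14) (r : ℚ) :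
    ∑ b ∈ Finset.range p, II ((r + b) / p) = A14 p * II r := by
  obtain ⟨L, Op, Om, -, -, g2, g3, -⟩ := hlat
  have h1 := hhint 14 p form14 (A14 p : ℂ) hp (int_rat L g2 g3) (fun z => hecke_form14 hp z) r
  rw [if_pos h, zero_add, prim_rat] at h1
  rw [h1]
  exact Finset.sum_congr rfl fun b _ => (prim_rat _).symm

/-- the norm relation for the character sums -/
lemma SS_norm {p p' : ℕ} (hp : p.Prime) (h : p ∣ 14)
    (h1 : ∀ u ∈ Finset.range 19, (p * ((p' * u) % 19)) % 19 = u ∧ (p' * ((p * u) % 19)) % 19 = u ∧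
      jacobiSym ((p * u) % 19 : ℕ) 19 = jacobiSym p 19 * jacobiSym u 19)
    (h2 : jacobiSym p 19 * A14 p = 1) (r : ℚ) :
    ∑ b ∈ Finset.range p, SS ((r + b) / p) = SS r := by
  have hp0 : (p : ℚ) ≠ 0 := by exact_mod_cast hp.ne_zero
  have hs : (jacobiSym p 19 : ℂ) * jacobiSym p 19 = 1 := by
    have h3 : jacobiSym p 19 * jacobiSym p 19 = 1 := by
      rcases Int.isUnit_iff.1 (IsUnit.of_mul_eq_one _ h2) with h | h <;> rw [h] <;> norm_num
    exact_mod_cast h3
  have hA : (jacobiSym p 19 : ℂ) * A14 p = 1 := by exact_mod_cast h2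
  unfold SS
  rw [Finset.sum_comm]
  have e1 : ∀ u ∈ Finset.range 19, ∑ b ∈ Finset.range p, (jacobiSym u 19 : ℂ) *
      II ((r + b) / p + u / 19) = (jacobiSym ((p * u) % 19 : ℕ) 19 : ℂ) *
        II (r + ((p * u) % 19 : ℕ) / 19) := by
    intro u hu
    obtain ⟨-, -, h3⟩ := h1 u hu
    rw [← Finset.mul_sum]
    have e2 : ∀ b ∈ Finset.range p, II ((r + b) / p + u / 19) =
        II ((r + ((p * u : ℕ) : ℚ) / 19 + b) / p) := by
      intro b _
      congr 1
      push_cast
      field_simp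
      ring
    rw [Finset.sum_congr rfl e2, II_hecke hp h, h3]
    have e3 : II (r + ((p * u : ℕ) : ℚ) / 19) = II (r + ((p * u) % 19 : ℕ) / 19) := by
      rw [← II_add_nat (r + ((p * u) % 19 : ℕ) / 19) ((p * u) / 19)]
      congr 1
      have h4 : ((p * u : ℕ) : ℚ) = 19 * ((p * u) / 19 : ℕ) + ((p * u) % 19 : ℕ) := by
        exact_mod_cast (Nat.div_add_mod (p * u) 19).symm
      rw [h4]
      ring
    rw [e3]
    push_cast
    linear_combination (-(jacobiSym u 19 : ℂ) * II (r + ((p * u % 19 : ℕ) : ℚ) / 19) * A14 p) * hs +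
      ((jacobiSym p 19 : ℂ) * jacobiSym u 19 * II (r + ((p * u % 19 : ℕ) : ℚ) / 19)) * hA
  rw [Finset.sum_congr rfl e1]
  refine Finset.sum_nbij' (fun u => (p * u) % 19) (fun u => (p' * u) % 19) ?_ ?_ ?_ ?_ ?_
  · intro u _
    rw [Finset.mem_range]
    exact Nat.mod_lt _ (by norm_num)
  · intro u _
    rw [Finset.mem_range]
    exact Nat.mod_lt _ (by norm_num)
  · intro u hu
    exact (h1 u hu).2.1
  · intro u hu
    exact (h1 u hu).1
  · intro u _
    rfl

lemma SS_norm_two (r : ℚ) : ∑ b ∈ Finset.range 2, SS ((r + b) / 2) = SS r := by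
  have h := SS_norm (p := 2) (p' := 10) Nat.prime_two (by norm_num) (by decide +kernel) (by
    rw [A14_two]
    decide +kernel) r
  exact_mod_cast h

lemma SS_norm_seven (r : ℚ) : ∑ b ∈ Finset.range 7, SS ((r + b) / 7) = SS r := by
  have h := SS_norm (p := 7) (p' := 11) (by norm_num) (by norm_num) (by decide +kernel) (by
    rw [A14_seven]
    decide +kernel) r
  exact_mod_cast h

lemma lam_norm_aux (htw : S_TW) {p : ℕ} (hp : 0 < p)
    (h : ∀ r : ℚ, ∑ b ∈ Finset.range p, SS ((r + b) / p) = SS r) (a M : ℤ) (hM : M ≠ 0) :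
    ∑ b ∈ Finset.range p, lam EE (a + b * M) (p * M) = lam EE a M := by
  have hM' : (M : ℚ) ≠ 0 := by exact_mod_cast hM
  have hp' : (p : ℚ) ≠ 0 := by exact_mod_cast hp.ne'
  rw [lam_eq htw]
  have e : ∀ b ∈ Finset.range p, lam EE (a + b * M) (p * M) =
      ((SS (((a : ℚ) / M + b) / p)).im / (tau * Omega EE) : ℝ) := by
    intro b _
    rw [lam_eq htw]
    congr 4
    push_cast
    field_simp
  rw [Finset.sum_congr rfl e, ← h ((a : ℚ) / M), Complex.im_sum, Finset.sum_div, Complex.ofReal_sum]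

/-- **the norm relations** -/
theorem lam_norm (htw : S_TW) {p : ℕ} (hp : p = 2 ∨ p = 7) (a M : ℤ) (hM : M ≠ 0) :
    ∑ b ∈ Finset.range p, lam EE (a + b * M) (p * M) = lam EE a M := by
  rcases hp with rfl | rfl
  · exact lam_norm_aux htw (by norm_num) (fun r => by exact_mod_cast SS_norm_two r) a M hM
  · exact lam_norm_aux htw (by norm_num) (fun r => by exact_mod_cast SS_norm_seven r) a M hM

/-- the modular symbols are integers -/
theorem lam_int (htw : S_TW) (hom : S_OM) (a M : ℤ) (hM : M ≠ 0) :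
    ∃ n : ℤ, lam EE a M = (n : ℂ) := by
  obtain ⟨ε, -, h⟩ := lam_vals htw hom
  choose v hv using fun u : ℕ => Y_int (19 * a + M * u) (19 * M)
  exact ⟨_, h a M v hM fun u _ => hv u⟩

end Pool.Agent.R435
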