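import Pool.Agent.R435.Defs
import Pool.Agent.W97.MT.Stm

/-!
Statements of the independent parts.
-/

set_option autoImplicit false

open MeasureTheory

namespace Pool.Agent.R435

open Pool.Agent.W97.MT (IsGloballyMinimal IsTatePeriod ap E14)
open Pool.Agent.W97.V20 (lam GM aug IsSplit Omega)

/-- PTS: the point at infinity and `(-21, 10)` are the only rational points of `EE` -/
def S_PTS : Prop := Nat.card (Pts EE) = 2

/-- TATE: existence of the Tate periods at `2` and `7` -/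
def S_TATE : Prop := (∃ u : ℤ_[2]ˣ, IsTatePeriod EE (((u : ℤ_[2]) : ℚ_[2]) * (2 : ℚ_[2]) ^ 6)) ∧
  (∃ u : ℤ_[7]ˣ, IsTatePeriod EE (((u : ℤ_[7]) : ℚ_[7]) * (7 : ℚ_[7]) ^ 3))

/-- OM: the real period of the twist is the imaginary period of the lattice of `X_0(14)` -/
def S_OM : Prop := ∀ (L : PeriodPair) (Op Om : ℝ), 0 < Op → 0 < Om → L.g₂ = -215 / 12 →
  L.g₃ = 5291 / 216 →
  (∀ w : ℂ, w ∈ L.lattice ↔ ∃ a b : ℤ, 2 ∣ a - b ∧ w = a * Op + b * Om * Complex.I) →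
  Omega EE = Om / Real.sqrt 19

/-- TW: the point counts of the quadratic twist -/
def S_TW : Prop := ∀ p : ℕ, p.Prime → ap EE p = jacobiSym p 19 * ap E14 p

/-- MIN: global minimality and the reduction types -/
def S_MIN : Prop := IsGloballyMinimal EE ∧ IsSplit EE 2 ∧ IsSplit EE 7 ∧
  EE.Δ = -(2 ^ 6 * 7 ^ 3 * 19 ^ 6)

/-- GAUSS: the twist by the quadratic character modulo `19` -/
def S_GAUSS : Prop := ∃ τ : ℝ, τ ^ 2 = 19 ∧ ∀ (A : ℕ → ℤ) (f : ℂ → ℂ),
  (∀ z : ℂ, 0 < z.im → HasSum (fun n : ℕ => (A n : ℂ) *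
    Complex.exp (2 * Real.pi * Complex.I * n * z)) (f z)) → ∀ z : ℂ, 0 < z.im →
  HasSum (fun n : ℕ => ((jacobiSym n 19 * A n : ℤ) : ℂ) *
    Complex.exp (2 * Real.pi * Complex.I * n * z))
    ((∑ u ∈ Finset.range 19, (jacobiSym u 19 : ℂ) * f (z + u / 19)) / (τ * Complex.I))

end Pool.Agent.R435
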