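import Pool.Agent.R435.Path

/-!
# The imaginary parts of the integrals of the form of level 14 at the cusps

`Y a c` is an integral multiple of `t = Y 1 3`, and this multiple is computed by the algorithm of
the continued fraction.
-/

set_option autoImplicit false

namespace Pool.Agent.R435

/-- the generator -/
noncomputable def tt : ℝ := Y 1 3

lemma Y_neg_neg (a c : ℤ) : Y (-a) (-c) = Y a c := by rw [Y_neg, Y_neg_right, neg_neg]

/-- the differences `Y a c - Y b d` only depend on the class of the matrix -/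
theorem trans_rep {a b c d a0 b0 c0 d0 : ℤ} (h : a * d - b * c = 1) (h0 : a0 * d0 - b0 * c0 = 1)
    (hm : (14 : ℤ) ∣ c * d0 - d * c0) : Y a c - Y b d = Y a0 c0 - Y b0 d0 := by
  obtain ⟨C, hC⟩ := hm
  have hdet : (a * d0 - b * c0) * (d * a0 - c * b0) - (b * a0 - a * b0) * (14 * C) = 1 := by
    rw [← hC]
    linear_combination (a0 * d0 - b0 * c0) * h + h0
  obtain ⟨q, hq⟩ := Y_gamma hdet
  have h1 := hq a0 c0 (by
    by_contra hn
    push Not at hn
    rw [hn.1, hn.2] at h0
    norm_num at h0)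
  have h2 := hq b0 d0 (by
    by_contra hn
    push Not at hn
    rw [hn.1, hn.2] at h0
    norm_num at h0)
  have e1 : (a * d0 - b * c0) * a0 + (b * a0 - a * b0) * c0 = a := by
    linear_combination a * h0
  have e2 : 14 * C * a0 + (d * a0 - c * b0) * c0 = c := by
    rw [← hC]
    linear_combination c * h0
  have e3 : (a * d0 - b * c0) * b0 + (b * a0 - a * b0) * d0 = b := by
    linear_combination b * h0
  have e4 : 14 * C * b0 + (d * a0 - c * b0) * d0 = d := by
    rw [← hC]
    linear_combination d * h0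
  rw [e1, e2] at h1
  rw [e3, e4] at h2
  rw [h1, h2]
  ring

lemma Y_zero_left (c : ℤ) : Y 0 c = 0 := by
  have h := Y_neg 0 c
  rw [neg_zero] at h
  linarith

lemma Y_negone (a : ℤ) : Y a (-1) = 0 := by rw [Y_neg_right, Y_one, neg_zero]

lemma Y12 : Y 1 2 = 0 := by
  have h1 := Y_add (-1) 2
  have h2 := Y_neg 1 2
  norm_num at h1
  linarith

lemma Y17 : Y 1 7 = 0 := by
  obtain ⟨q, hq⟩ := Y_gamma (A := 1) (B := 0) (C := 1) (D := 1) (by norm_num)
  have h1 := hq 0 1 (Or.inr (by norm_num))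
  have h2 := hq 1 (-7) (Or.inr (by norm_num))
  norm_num at h1 h2
  rw [h1, add_zero, Y_neg_right] at h2
  linarith

lemma Y15 : Y 1 5 = tt := by
  obtain ⟨q, hq⟩ := Y_gamma (A := 5) (B := -1) (C := -1) (D := 3) (by norm_num)
  have h1 := hq 0 1 (Or.inr (by norm_num))
  have h2 := hq (-1) (-5) (Or.inr (by norm_num))
  norm_num at h1 h2
  rw [Y_zero_left, Y_neg_neg] at h2
  rw [Y_one, Y_neg, zero_add] at h1
  unfold tt
  linarith

lemma Y14 : Y 1 4 = tt := by
  obtain ⟨q, hq⟩ := Y_gamma (A := -3) (B := 1) (C := 1) (D := -5) (by norm_num)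
  have h1 := hq 1 2 (Or.inr (by norm_num))
  have h2 := hq 1 3 (Or.inr (by norm_num))
  norm_num at h1 h2
  rw [Y12, Y_neg, zero_add] at h1
  rw [Y_zero_left] at h2
  unfold tt
  linarith

lemma Y16 : Y 1 6 = 0 := by
  obtain ⟨q, hq⟩ := Y_gamma (A := 5) (B := 1) (C := 1) (D := 3) (by norm_num)
  have h1 := hq 0 1 (Or.inr (by norm_num))
  have h2 := hq (-1) 6 (Or.inr (by norm_num))
  norm_num at h1 h2
  rw [Y_one, zero_add] at h1
  rw [Y14, Y_neg] at h2
  unfold tt at h2
  linarith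

lemma Y25 : Y 2 5 = 0 := by
  have h := trans_rep (a := -1) (b := 2) (c := 2) (d := -5) (a0 := -1) (b0 := 0) (c0 := 6)
    (d0 := -1) (by norm_num) (by norm_num) (by norm_num)
  rw [Y_neg, Y12, Y_neg_right, Y_neg, Y16, Y_zero_left] at h
  linarith

lemma Y37 : Y 3 7 = 0 := by
  have h := trans_rep (a := 1) (b := 3) (c := 2) (d := 7) (a0 := 1) (b0 := 1) (c0 := 6)
    (d0 := 7) (by norm_num) (by norm_num) (by norm_num)
  rw [Y12, Y16, Y17] at h
  linarith

lemma Y47 : Y 4 7 = 0 := by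
  have h1 := Y_add (-3) 7
  rw [Y_neg, Y37] at h1
  norm_num at h1
  exact h1

/-- the representatives `(a, b, c, d)` of `Γ_0(14) \ SL_2(ℤ)` with the values `k` -/
def reps : List (ℤ × ℤ × ℤ × ℤ × ℤ) :=
  [(1, 0, 0, 1, 0), (0, -1, 1, -6, 0), (0, -1, 1, -5, -1), (0, -1, 1, -4, -1), (0, -1, 1, -3, -1),
   (0, -1, 1, -2, 0), (0, -1, 1, -1, 0), (0, -1, 1, 0, 0), (0, -1, 1, 1, 0), (0, -1, 1, 2, 0),
   (0, -1, 1, 3, 1), (0, -1, 1, 4, 1), (0, -1, 1, 5, 1), (0, -1, 1, 6, 0), (0, -1, 1, 7, 0),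
   (1, 0, 2, 1, 0), (-1, 0, 2, -1, 0), (-1, 2, 2, -5, 0), (1, 2, 2, 5, 0), (1, 3, 2, 7, 0),
   (1, 1, 2, 3, -1), (-1, 1, 2, -3, 1), (1, 0, 7, 1, 0), (4, 1, 7, 2, 0)]

lemma Y13 : Y 1 3 = tt := rfl

theorem reps_spec : ∀ x ∈ reps, x.1 * x.2.2.2.1 - x.2.1 * x.2.2.1 = 1 ∧
    Y x.1 x.2.2.1 - Y x.2.1 x.2.2.2.1 = x.2.2.2.2 * tt := by
  intro x hx
  simp only [reps, List.mem_cons, List.not_mem_nil, or_false] at hx
  rcases hx with h | h | h | h | h | h | h | h | h | h | h | h | h | h | h | h | h | h | h | h | h |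
    h | h | h <;> subst h <;> refine ⟨by norm_num, ?_⟩ <;> dsimp only <;>
    simp only [Y_neg, Y_neg_right, Y_one, Y_zero_right, Y12, Y13, Y14, Y15, Y16, Y17,
      Y25, Y37, Y47, Int.cast_zero, Int.cast_one, Int.cast_neg] <;> ring

/-- the representative with a given second row modulo `14` -/
def kf (c d : ℤ) : Option (ℤ × ℤ × ℤ × ℤ × ℤ) :=
  reps.find? fun x => decide ((c * x.2.2.2.1 - d * x.2.2.1) % 14 = 0)

theorem kf_spec {a b c d : ℤ} (h : a * d - b * c = 1) {x : ℤ × ℤ × ℤ × ℤ × ℤ}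
    (hx : kf c d = some x) : Y a c - Y b d = x.2.2.2.2 * tt := by
  have h1 := List.mem_of_find?_eq_some hx
  have h2 := List.find?_some hx
  rw [decide_eq_true_eq] at h2
  obtain ⟨h3, h4⟩ := reps_spec x h1
  rw [← h4]
  exact trans_rep h h3 (Int.dvd_of_emod_eq_zero h2)

/-- the algorithm of the continued fraction -/
def cf : ℕ → ℕ → ℕ → ℤ → ℤ → ℤ → ℤ → ℤ → ℤ → Option ℤ
  | 0, _, _, _, _, _, _, _, _ => none
  | n + 1, x, y, p, q, p', q', s, acc =>
    if y = 0 then (if x = 1 then some acc else none) else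
      match kf ((x / y : ℕ) * q + q') (-s * q) with
      | none => none
      | some z => cf n y (x % y) ((x / y : ℕ) * p + p') ((x / y : ℕ) * q + q') p q (-s)
          (acc + z.2.2.2.2)

lemma Y_sign {s : ℤ} (hs : s * s = 1) (p q : ℤ) : Y (s * p) (s * q) = Y p q := by
  rcases mul_self_eq_one_iff.1 hs with h | h
  · rw [h, one_mul, one_mul]
  · rw [h, neg_one_mul, neg_one_mul, Y_neg_neg]

theorem cf_spec : ∀ (n x y : ℕ) (p q p' q' s acc v : ℤ), s * s = 1 → p * q' - p' * q = s →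
    Y p q = acc * tt → cf n x y p q p' q' s acc = some v →
    Y (x * p + y * p') (x * q + y * q') = v * tt := by
  intro n
  induction n with
  | zero =>
    intro x y p q p' q' s acc v _ _ _ h
    simp [cf] at h
  | succ n ih =>
    intro x y p q p' q' s acc v hs hdet hY h
    rw [cf] at h
    split_ifs at h with h1 h2
    · rw [h1, h2]
      have : acc = v := by simpa using h
      rw [← this, ← hY]
      norm_num
    · split at h
      · simp at h
      · rename_i z hz
        have hdm : (y : ℤ) * (x / y : ℕ) + (x % y : ℕ) = x := by exact_mod_cast Nat.div_add_mod x y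
        have hs' : (-s) * (-s) = 1 := by rw [neg_mul_neg, hs]
        have h3 : ((x / y : ℕ) * p + p') * (-s * q) - (-s * p) * ((x / y : ℕ) * q + q') = 1 := by
          linear_combination s * hdet + hs
        have h4 := kf_spec h3 hz
        rw [Y_sign hs'] at h4
        have h5 := ih y (x % y) ((x / y : ℕ) * p + p') ((x / y : ℕ) * q + q') p q (-s)
          (acc + z.2.2.2.2) v hs' (by linear_combination (-1 : ℤ) * hdet)
          (by rw [Int.cast_add]; linear_combination h4 + hY) h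
        rw [← h5]
        congr 1
        · linear_combination (-p) * hdm
        · linear_combination (-q) * hdm

/-- the value at `a / c` -/
def ev (a c : ℕ) : Option ℤ := cf 40 a c 1 0 0 1 1 0

theorem ev_spec {a c : ℕ} {v : ℤ} (h : ev a c = some v) : Y a c = v * tt := by
  have h1 := cf_spec 40 a c 1 0 0 1 1 0 v (by norm_num) (by norm_num)
    (by rw [Y_zero_right]; norm_num) h
  simpa using h1

end Pool.Agent.R435
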