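import Pool.Agent.R435.Stm

/-!
# TW, MIN: point counts of the quadratic twist by `-19`, global minimality
-/

set_option autoImplicit false

namespace Pool.Agent.R435

open Pool.Agent.W97.MT (IsGloballyMinimal ap affCount E14)
open Pool.Agent.W97.V20 (IsSplit)
open Finset WeierstrassCurve

theorem tw_eq (W : WeierstrassCurve ℤ) (p : ℕ) (P : ZMod p × ZMod p) :
    (W.map (Int.castRingHom (ZMod p))).toAffine.Equation P.1 P.2 ↔
      P.2 ^ 2 + W.a₁ * P.1 * P.2 + W.a₃ * P.2 = P.1 ^ 3 + W.a₂ * P.1 ^ 2 + W.a₄ * P.1 + W.a₆ := by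
  rw [WeierstrassCurve.Affine.equation_iff]
  simp

theorem tw_aff (W : WeierstrassCurve ℤ) (p : ℕ) [NeZero p] : affCount W p =
    (Finset.univ.filter (fun P : ZMod p × ZMod p =>
      P.2 ^ 2 + W.a₁ * P.1 * P.2 + W.a₃ * P.2 =
        P.1 ^ 3 + W.a₂ * P.1 ^ 2 + W.a₄ * P.1 + W.a₆)).card := by
  unfold affCount
  rw [Nat.card_congr (Equiv.subtypeEquivRight (tw_eq W p)), Nat.card_eq_fintype_card,
    Fintype.card_subtype]

/-- the cubic `4 x³ + b₂ x² + 2 b₄ x + b₆` -/
def ps (W : WeierstrassCurve ℤ) (p : ℕ) (x : ZMod p) : ZMod p :=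
  4 * x ^ 3 + W.b₂ * x ^ 2 + 2 * W.b₄ * x + W.b₆

theorem tw_ap (W : WeierstrassCurve ℤ) (p : ℕ) [Fact p.Prime] (hp : p ≠ 2) :
    ap W p = -∑ x : ZMod p, quadraticChar (ZMod p) (ps W p x) := by
  classical
  have hchar : ringChar (ZMod p) ≠ 2 := by
    rw [ZMod.ringChar_zmod_n]
    exact hp
  have h2 : (2 : ZMod p) ≠ 0 := Ring.two_ne_zero hchar
  have e1 : affCount W p = Fintype.card {P : ZMod p × ZMod p // P.2 ^ 2 = ps W p P.1} := by
    unfold affCount
    rw [Nat.card_congr (Equiv.subtypeEquivRight (tw_eq W p)), Nat.card_eq_fintype_card]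
    refine Fintype.card_congr (Equiv.subtypeEquiv
      (Equiv.mk (fun P => (P.1, 2 * P.2 + W.a₁ * P.1 + W.a₃))
        (fun P => (P.1, (P.2 - W.a₁ * P.1 - W.a₃) / 2)) ?_ ?_) ?_)
    · intro P
      ext1
      · rfl
      · simp only
        rw [div_eq_iff h2]
        ring
    · intro P
      ext1
      · rfl
      · simp only
        rw [mul_div_cancel₀ _ h2]
        ring
    · intro P
      simp only [Equiv.coe_fn_mk]
      have h4 : (4 : ZMod p) ≠ 0 := by
        have : (4 : ZMod p) = 2 * 2 := by norm_num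
        rw [this]
        exact mul_ne_zero h2 h2
      have h5 : (2 * P.2 + W.a₁ * P.1 + W.a₃) ^ 2 - ps W p P.1 =
          4 * ((P.2 ^ 2 + W.a₁ * P.1 * P.2 + W.a₃ * P.2) -
            (P.1 ^ 3 + W.a₂ * P.1 ^ 2 + W.a₄ * P.1 + W.a₆)) := by
        unfold ps WeierstrassCurve.b₂ WeierstrassCurve.b₄ WeierstrassCurve.b₆
        push_cast
        ring
      rw [← sub_eq_zero, ← sub_eq_zero (a := (2 * P.2 + W.a₁ * P.1 + W.a₃) ^ 2), h5,
        mul_eq_zero, or_iff_right h4]
  have e2 : Fintype.card {P : ZMod p × ZMod p // P.2 ^ 2 = ps W p P.1} =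
      ∑ x : ZMod p, Fintype.card {y : ZMod p // y ^ 2 = ps W p x} := by
    rw [← Fintype.card_sigma]
    exact Fintype.card_congr ⟨fun P => ⟨P.1.1, P.1.2, P.2⟩, fun P => ⟨(P.1, P.2.1), P.2.2⟩,
      fun _ => rfl, fun _ => rfl⟩
  have e3 : ∀ x : ZMod p, ((Fintype.card {y : ZMod p // y ^ 2 = ps W p x} : ℕ) : ℤ) =
      quadraticChar (ZMod p) (ps W p x) + 1 := by
    intro x
    rw [← quadraticChar_card_sqrts hchar, Set.toFinset_card]
    rfl
  unfold ap
  rw [e1, e2]
  push_cast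
  rw [sum_congr rfl (fun x _ => e3 x), sum_add_distrib]
  simp

theorem ee_two : ap EE 2 = 1 := by
  unfold ap
  rw [tw_aff]
  decide

theorem ee_seven : ap EE 7 = 1 := by
  unfold ap
  rw [tw_aff]
  decide +kernel

theorem ee_nineteen : ap EE 19 = 0 := by
  unfold ap
  rw [tw_aff]
  decide +kernel

theorem e14_two : ap E14 2 = -1 := by
  unfold ap
  rw [tw_aff]
  decide

theorem jac (p : ℕ) (hp : Odd p) : jacobiSym (-19) p = jacobiSym p 19 := by
  have h1 : jacobiSym (-19) p = ZMod.χ₄ p * jacobiSym 19 p := jacobiSym.neg 19 hp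
  rw [h1]
  rcases Nat.odd_mod_four_iff.mp (Nat.odd_iff.1 hp) with h | h
  · rw [ZMod.χ₄_nat_one_mod_four h, one_mul]
    exact jacobiSym.quadratic_reciprocity_one_mod_four' (a := 19) (by decide) h
  · rw [ZMod.χ₄_nat_three_mod_four h]
    have := jacobiSym.quadratic_reciprocity_three_mod_four (a := 19) (b := p) (by norm_num) h
    have h2 : jacobiSym 19 p = -jacobiSym p 19 := this
    rw [h2]
    ring

theorem s_tw : S_TW := by
  intro p hp
  have : Fact p.Prime := ⟨hp⟩
  by_cases h2 : p = 2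
  · subst h2
    rw [ee_two, e14_two]
    norm_num
  by_cases h19 : p = 19
  · subst h19
    have h3 : jacobiSym ((19 : ℕ) : ℤ) 19 = 0 := by norm_num
    rw [h3, zero_mul]
    exact ee_nineteen
  have h19' : (19 : ZMod p) ≠ 0 := by
    intro h
    have h1 : ((19 : ℕ) : ZMod p) = 0 := by exact_mod_cast h
    rw [ZMod.natCast_eq_zero_iff] at h1
    exact h19 ((Nat.prime_dvd_prime_iff_eq hp (by norm_num)).1 h1)
  have h19n : (-19 : ZMod p) ≠ 0 := neg_ne_zero.2 h19'
  have h3 : ap EE p = quadraticChar (ZMod p) (-19) * ap E14 p := by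
    rw [tw_ap _ p h2, tw_ap _ p h2, mul_neg, mul_sum]
    congr 1
    symm
    refine Fintype.sum_equiv ((Equiv.mulLeft₀ (-19 : ZMod p) h19n).trans (Equiv.addRight (-2)))
      _ _ fun x => ?_
    have h4 : quadraticChar (ZMod p) (-19) = quadraticChar (ZMod p) ((-19) ^ 3) := by
      rw [pow_succ, map_mul, quadraticChar_sq_one' h19n, one_mul]
    rw [h4, ← map_mul]
    simp only [Equiv.trans_apply, Equiv.mulLeft₀_apply, Equiv.coe_addRight]
    congr 1
    unfold ps WeierstrassCurve.b₂ WeierstrassCurve.b₄ WeierstrassCurve.b₆ EE E14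
    push_cast
    ring
  rw [h3]
  congr 1
  have h5 : quadraticChar (ZMod p) (-19) = legendreSym p (-19) := by
    rw [legendreSym]
    norm_num
  rw [h5, jacobiSym.legendreSym.to_jacobiSym]
  exact jac p (hp.odd_of_ne_two h2)

end Pool.Agent.R435
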